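import Pool.Agent.Helper72.Jack.Bridge

/-!
# Stability of the matrix of coefficients
-/

set_option linter.unusedSectionVars false
set_option linter.unusedSimpArgs false
set_option linter.style.longLine false

open MvPolynomial Finset

namespace Pool.Agent.Helper61.JackSuper

open Pool.Agent.Helper72.Jack (SPar)

variable {n m : ℕ}

/-- set the variables of index at least `T` equal to zero -/
noncomputable def cut (T : ℕ) : MvPolynomial ℕ ℤ →ₐ[ℤ] MvPolynomial ℕ ℤ :=
  aeval (fun k => if k < T then X k else 0)

lemma coeff_cut (T : ℕ) (d : ℕ →₀ ℕ) (hd : ∀ k, T ≤ k → d k = 0) (p : MvPolynomial ℕ ℤ) :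
    coeff d (cut T p) = coeff d p := by
  induction p using MvPolynomial.induction_on' with
  | monomial e a =>
    by_cases he : ∀ k, T ≤ k → e k = 0
    · have : cut T (monomial e a) = monomial e a := by
        rw [monomial_eq, map_mul, Finsupp.prod, map_prod]
        congr 1
        · rw [cut, aeval_C]; rfl
        · refine Finset.prod_congr rfl fun k hk => ?_
          rw [map_pow, cut, aeval_X, if_pos]
          by_contra hkT
          exact (Finsupp.mem_support_iff.1 hk) (he k (not_lt.1 hkT))
      rw [this]
    · push Not at he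
      obtain ⟨k, hk, hek⟩ := he
      have h1 : cut T (monomial e a) = 0 := by
        rw [monomial_eq, map_mul, Finsupp.prod, map_prod]
        rw [Finset.prod_eq_zero (Finsupp.mem_support_iff.2 hek), mul_zero]
        rw [map_pow, cut, aeval_X, if_neg (not_lt.2 hk), zero_pow hek]
      rw [h1, coeff_zero, coeff_monomial, if_neg]
      rintro rfl
      exact hek (hd k hk)
  | add p q hp hq => rw [map_add, coeff_add, coeff_add, hp, hq]

theorem Cmat_stable {N : ℕ} (hN : n + m ≤ N) (G O : SuperPartition n m) :
    Cmat N G O = Cmat (n + m) G O := by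
  have hd : ∀ k, n + m ≤ k → expo O k = 0 := by
    intro k hk
    have h1 : expo O k = (toS O).part k := by
      rw [part_toS, expo, List.toFinsupp_apply]
    rw [h1, SPar.part_eq_zero _ hk]
  rw [Cmat, Cmat, ← coeff_cut (n + m) _ hd, ← coeff_cut (n + m) _ hd (_ * _)]
  congr 1
  rw [map_mul, map_mul]
  congr 1
  rw [map_multiset_prod, map_multiset_prod, Multiset.map_map, Multiset.map_map]
  congr 1
  apply Multiset.map_congr rfl
  intro s hs
  have hs0 : s ≠ 0 := (G.bos_pos s hs).ne'
  simp only [Function.comp_apply, map_sum, map_pow]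
  symm
  apply Finset.sum_subset_zero_on_sdiff (Finset.range_subset_range.2 hN)
  · intro k hk
    rw [Finset.mem_sdiff, Finset.mem_range, Finset.mem_range] at hk
    rw [cut, aeval_X, if_neg hk.2, zero_pow hs0]
  · intro k _; rfl

end Pool.Agent.Helper61.JackSuper
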