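import Pool.Agent.Helper61.Jack.B5
import Pool.Agent.Helper61.Jack.C4
import Pool.Agent.Helper72.Jack.Stable

/-!
# The matrix of coefficients: stability, cast, and the exponents of power sums
-/

set_option linter.unusedSectionVars false
set_option linter.unusedSimpArgs false
set_option linter.style.longLine false
set_option autoImplicit false

open MvPolynomial Finset

namespace Pool.Agent.Helper61.JackSuper

open Pool.Agent.Helper61.Jack (Pw psm pmu wt Asym ex dt map_dt map_Pw dt_eq_Asym)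

variable {n m : ℕ}

theorem Cmat_indep {N N' : ℕ} (hN : n + m ≤ N) (hN' : n + m ≤ N') (Γ Ω : SuperPartition n m) :
    Cmat N Γ Ω = Cmat N' Γ Ω := by
  rw [Cmat_stable hN, Cmat_stable hN']

/-- The exponents of the power sums. -/
noncomputable def muOf (s : Multiset ℕ) : ℕ →₀ ℕ :=
  (Multiset.toFinsupp s).comapDomain (· + 1) (add_left_injective 1).injOn

lemma muOf_apply (s : Multiset ℕ) (r : ℕ) : muOf s r = s.count (r + 1) := by
  rw [muOf, Finsupp.comapDomain_apply, Multiset.toFinsupp_apply]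

lemma count_pmu (N : ℕ) (μ : ℕ →₀ ℕ) (k : ℕ) :
    (pmu N μ).count k = ∑ r ∈ range N, if r + 1 = k then μ r else 0 := by
  rw [pmu, Multiset.count_sum']
  refine Finset.sum_congr rfl fun r _ => ?_
  rw [Multiset.count_replicate]

lemma count_pmu_succ (N : ℕ) (μ : ℕ →₀ ℕ) (r : ℕ) :
    (pmu N μ).count (r + 1) = if r < N then μ r else 0 := by
  rw [count_pmu]
  have : ∀ x ∈ range N, (if x + 1 = r + 1 then μ x else 0) = if x = r then μ x else 0 := by
    intro x _
    simp
  rw [Finset.sum_congr rfl this, Finset.sum_ite_eq']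
  simp

lemma pmu_muOf {s : Multiset ℕ} {N : ℕ} (hpos : ∀ x ∈ s, 0 < x) (hN : ∀ x ∈ s, x ≤ N) :
    pmu N (muOf s) = s := by
  ext k
  rcases k with _ | r
  · rw [count_pmu]
    have h0 : s.count 0 = 0 := by
      rw [Multiset.count_eq_zero]
      intro h; exact absurd (hpos 0 h) (lt_irrefl _)
    rw [h0]
    apply Finset.sum_eq_zero
    intro r _
    simp
  · rw [count_pmu_succ, muOf_apply]
    by_cases hr : r < N
    · rw [if_pos hr]
    · rw [if_neg hr]
      symm
      rw [Multiset.count_eq_zero]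
      intro h
      have := hN _ h
      omega

lemma muOf_pmu {μ : ℕ →₀ ℕ} {N : ℕ} (h : ∀ r, N ≤ r → μ r = 0) : muOf (pmu N μ) = μ := by
  ext r
  rw [muOf_apply, count_pmu_succ]
  by_cases hr : r < N
  · rw [if_pos hr]
  · rw [if_neg hr, h r (not_lt.1 hr)]

lemma prod_range_succ_eq {M : Type*} [CommMonoid M] {s : Multiset ℕ} {N : ℕ}
    (hpos : ∀ x ∈ s, 0 < x) (hN : ∀ x ∈ s, x ≤ N) (g : ℕ → M) (hg : ∀ k, k ∉ s → g k = 1) :
    ∏ r ∈ range N, g (r + 1) = ∏ k ∈ s.toFinset, g k := by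
  have h1 : ∏ r ∈ range N, g (r + 1) = ∏ k ∈ (range N).image (· + 1), g k := by
    rw [Finset.prod_image]
    intro a _ b _ hab
    exact add_left_injective 1 hab
  rw [h1]
  symm
  apply Finset.prod_subset
  · intro k hk
    rw [Multiset.mem_toFinset] at hk
    rw [Finset.mem_image]
    refine ⟨k - 1, ?_, ?_⟩
    · rw [Finset.mem_range]
      have := hpos k hk
      have := hN k hk
      omega
    · have := hpos k hk
      omega
  · intro k _ hk
    exact hg k (fun h => hk (Multiset.mem_toFinset.2 h))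

lemma psm_muOf {R : Type*} [CommRing R] {s : Multiset ℕ} {N : ℕ} (hpos : ∀ x ∈ s, 0 < x)
    (hN : ∀ x ∈ s, x ≤ N) :
    (psm N (muOf s) : MvPolynomial ℕ R) = (s.map (fun k => Pw N k)).prod := by
  rw [psm, Finset.prod_multiset_map_count]
  simp only [muOf_apply]
  rw [prod_range_succ_eq hpos hN (fun k => (Pw N k : MvPolynomial ℕ R) ^ s.count k)]
  intro k hk
  rw [Multiset.count_eq_zero.2 hk, pow_zero]

lemma bos_le (Γ : SuperPartition n m) : ∀ x ∈ Γ.bos, x ≤ n := by
  intro x hx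
  have := Γ.sum_eq
  have := Multiset.single_le_sum (fun _ _ => Nat.zero_le _) x hx
  omega

lemma wt_muOf {R : Type*} [CommRing R] (α : R) {N : ℕ} (hN : n ≤ N) (Γ : SuperPartition n m) :
    wt N α (muOf Γ.bos) = α ^ (Multiset.card Γ.bos) * (Γ.zee : R) := by
  rw [wt]
  simp only [muOf_apply]
  rw [prod_range_succ_eq Γ.bos_pos (fun x hx => (bos_le Γ x hx).trans hN)
    (fun k => ((Nat.factorial (Γ.bos.count k) : R) * (α * ((k : ℕ) : R)) ^ (Γ.bos.count k)))]
  · rw [SuperPartition.zee, ← Multiset.toFinset_sum_count_eq, ← Finset.prod_pow_eq_pow_sum,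
      Nat.cast_prod, ← Finset.prod_mul_distrib]
    refine Finset.prod_congr rfl fun k _ => ?_
    rw [mul_pow]; push_cast; ring
  · intro k hk
    rw [Multiset.count_eq_zero.2 hk]; simp

theorem Cmat_cast {R : Type*} [CommRing R] [IsDomain R] [CharZero R] {N : ℕ} (hN : n ≤ N)
    (Γ Ω : SuperPartition n m) : ((Cmat N Γ Ω : ℤ) : R) =
      coeff (expo Ω) (Asym 0 m (monomial (ex (dec Γ.fer.val)) (1 : R)) * psm N (muOf Γ.bos)) := by
  have hlen : (dec Γ.fer.val).length = m := by
    rw [← Multiset.coe_card, dec_coe]; exact Γ.card_fer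
  have h1 : Cmat N Γ Ω = coeff (expo Ω) (dt ℤ m (dec Γ.fer.val) * psm N (muOf Γ.bos)) := by
    rw [psm_muOf Γ.bos_pos (fun x hx => (bos_le Γ x hx).trans hN)]
    rfl
  rw [h1, ← dt_eq_Asym hlen (dec_pairwise' _), psm_muOf Γ.bos_pos (fun x hx => (bos_le Γ x hx).trans hN),
    psm_muOf Γ.bos_pos (fun x hx => (bos_le Γ x hx).trans hN)]
  have h2 : ((coeff (expo Ω) (dt ℤ m (dec Γ.fer.val) * (Γ.bos.map (fun k => Pw N k)).prod) : ℤ) : R) =
      coeff (expo Ω) (MvPolynomial.map (Int.castRingHom R)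
        (dt ℤ m (dec Γ.fer.val) * (Γ.bos.map (fun k => Pw N k)).prod)) := by
    rw [coeff_map]; rfl
  rw [h2, map_mul, map_dt, map_multiset_prod, Multiset.map_map]
  simp only [Function.comp_def, map_Pw]

end Pool.Agent.Helper61.JackSuper
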