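import Pool.Agent.Helper72.Jack.Bridge

/-!
# The dominance order is a partial order; `v` is not zero
-/

set_option linter.unusedSectionVars false
set_option linter.unusedSimpArgs false
set_option linter.style.longLine false

open Finset

namespace Pool.Agent.Helper61.JackSuper

variable {n m : ℕ}

lemma sum_take_succ' (l : List ℕ) : ∀ k, (l.take (k + 1)).sum = (l.take k).sum + l.getD k 0 := by
  induction l with
  | nil => intro k; simp
  | cons x xs ih =>
    intro k
    rcases k with _ | k
    · simp
    · rw [List.take_succ_cons, List.take_succ_cons, List.sum_cons, List.sum_cons, ih k,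
        List.getD_cons_succ]
      ring

lemma getD_eq_of_dom {a b : List ℕ} (h1 : SuperPartition.domList a b)
    (h2 : SuperPartition.domList b a) (k : ℕ) : a.getD k 0 = b.getD k 0 := by
  have e : ∀ k, (a.take k).sum = (b.take k).sum := fun k => le_antisymm (h1 k) (h2 k)
  have := e (k + 1)
  rw [sum_take_succ', sum_take_succ', e k] at this
  omega

lemma count_eq_of_getD {a b : List ℕ} (h : ∀ k, a.getD k 0 = b.getD k 0) {k : ℕ} (hk : k ≠ 0) :
    a.count k = b.count k := by
  have h1 := card_filter_getD a k (a.length + b.length) (by omega)
  have h2 := card_filter_getD b k (a.length + b.length) (by omega)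
  rw [if_neg hk, add_zero] at h1 h2
  rw [← h1, ← h2]
  simp only [h]

lemma count_dec (s : Multiset ℕ) (k : ℕ) : (dec s).count k = s.count k := by
  rw [← Multiset.coe_count, dec_coe]

theorem Dom_antisymm {L W : SuperPartition n m} (h1 : SuperPartition.Dom L W)
    (h2 : SuperPartition.Dom W L) : L = W := by
  have hs : ∀ k, k ≠ 0 → L.fer.val.count k + L.bos.count k = W.fer.val.count k + W.bos.count k := by
    intro k hk
    have := count_eq_of_getD (getD_eq_of_dom h1.1 h2.1) hk
    rw [SuperPartition.star, SuperPartition.star, count_dec, count_dec, Multiset.count_add,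
      Multiset.count_add] at this
    exact this
  have hc : ∀ k, L.fer.val.count k + L.bos.count (k + 1) = W.fer.val.count k + W.bos.count (k + 1) := by
    intro k
    have := count_eq_of_getD (getD_eq_of_dom h1.2 h2.2) (Nat.succ_ne_zero k)
    rw [SuperPartition.circ, SuperPartition.circ, count_dec, count_dec, Multiset.count_add,
      Multiset.count_add] at this
    have hm : ∀ s : Multiset ℕ, (s.map (· + 1)).count (k + 1) = s.count k := fun s =>
      Multiset.count_map_eq_count' _ _ (add_left_injective 1) _
    have h3 : k.succ = k + 1 := rfl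
    rw [h3, hm, hm] at this
    exact this
  have hf : ∀ k, L.fer.val.count k = W.fer.val.count k := by
    -- the difference is constant and vanishes for large `k`
    have hconst : ∀ k, (L.fer.val.count k : ℤ) - W.fer.val.count k =
        (L.fer.val.count (k + 1) : ℤ) - W.fer.val.count (k + 1) := by
      intro k
      have e1 := hs (k + 1) (Nat.succ_ne_zero k)
      have e2 := hc k
      omega
    have hconst' : ∀ j k, (L.fer.val.count k : ℤ) - W.fer.val.count k =
        (L.fer.val.count (k + j) : ℤ) - W.fer.val.count (k + j) := by
      intro j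
      induction j with
      | zero => intro k; rfl
      | succ j ih => intro k; rw [ih k, hconst (k + j)]; rfl
    intro k
    have hbig : ∀ S : SuperPartition n m, S.fer.val.count (k + (n + 1)) = 0 := by
      intro S
      rw [Multiset.count_eq_zero]
      intro hmem
      have h3 := S.sum_eq
      have h5 : k + (n + 1) ∈ S.fer := by simpa using hmem
      have h4 := Finset.single_le_sum (f := fun x : ℕ => x) (fun _ _ => Nat.zero_le _) h5
      omega
    have := hconst' (n + 1) k
    rw [hbig L, hbig W] at this
    omega
  apply SuperPartition.ext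
  · apply Finset.val_injective
    exact Multiset.ext.2 hf
  · rw [Multiset.ext]
    intro k
    rcases Nat.eq_zero_or_pos k with rfl | hk
    · have h0 : ∀ S : SuperPartition n m, S.bos.count 0 = 0 := fun S => by
        rw [Multiset.count_eq_zero]
        intro h; exact absurd (S.bos_pos 0 h) (lt_irrefl _)
      rw [h0, h0]
    · have := hs k hk.ne'
      rw [hf k] at this
      omega

theorem Dom_refl (L : SuperPartition n m) : SuperPartition.Dom L L :=
  ⟨fun _ => le_rfl, fun _ => le_rfl⟩

theorem Dom_trans {L W S : SuperPartition n m} (h1 : SuperPartition.Dom L W)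
    (h2 : SuperPartition.Dom W S) : SuperPartition.Dom L S :=
  ⟨fun k => (h1.1 k).trans (h2.1 k), fun k => (h1.2 k).trans (h2.2 k)⟩

/-- strict dominance -/
def SDom (L W : SuperPartition n m) : Prop := SuperPartition.Dom L W ∧ L ≠ W

instance : IsTrans (SuperPartition n m) SDom := ⟨fun a b c h1 h2 => ⟨Dom_trans h1.1 h2.1, by
  rintro rfl
  exact h1.2 (Dom_antisymm h1.1 h2.1)⟩⟩

instance : Std.Irrefl (SDom (n := n) (m := m)) := ⟨fun _ h => h.2 rfl⟩

lemma SDom_wf : WellFounded (SDom (n := n) (m := m)) := Finite.wellFounded_of_trans_of_irrefl _

lemma le_countP {l : List ℕ} (hl : l.Pairwise (· ≥ ·)) {i j : ℕ} (hj : 1 ≤ j)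
    (hij : j ≤ l.getD i 0) : i + 1 ≤ l.countP (fun x => decide (j ≤ x)) := by
  have hi : i < l.length := by
    by_contra hc
    rw [List.getD_eq_default _ _ (not_lt.1 hc)] at hij
    omega
  have h1 : (l.take (i + 1)).countP (fun x => decide (j ≤ x)) = i + 1 := by
    have : (l.take (i + 1)).countP (fun x => decide (j ≤ x)) = (l.take (i + 1)).length := by
      rw [List.countP_eq_length]
      intro x hx
      obtain ⟨k, hk, rfl⟩ := List.getElem_of_mem hx
      rw [List.length_take] at hk
      rw [List.getElem_take]
      rw [List.getD_eq_getElem _ _ hi] at hij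
      simp only [decide_eq_true_eq]
      rcases Nat.lt_or_ge k i with hki | hki
      · have := List.pairwise_iff_getElem.1 hl k i (by omega) hi hki
        omega
      · have : k = i := by omega
        subst this; exact hij
    rw [this, List.length_take]; omega
  rw [← h1]
  exact (List.take_sublist _ _).countP_le

theorem v_ne_zero (L : SuperPartition n m) : L.v ≠ 0 := by
  rw [SuperPartition.v, Finset.prod_ne_zero_iff]
  intro b hb h0
  have h1 := congrArg (fun p => Polynomial.coeff p 0) h0
  simp only [Polynomial.coeff_add, Polynomial.coeff_C_zero, Polynomial.coeff_zero,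
    Polynomial.mul_coeff_zero, Polynomial.coeff_X_zero, mul_zero, zero_add] at h1
  rw [SuperPartition.boxes, Finset.mem_filter, Finset.mem_product, Finset.mem_Icc] at hb
  have h2 := le_countP (dec_pairwise _) hb.1.2.1 hb.2.1
  have h3 : SuperPartition.colLen L.star b.2 =
      (dec (L.fer.val + L.bos)).countP (fun x => decide (b.2 ≤ x)) := rfl
  rw [← h3] at h2
  omega

end Pool.Agent.Helper61.JackSuper
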