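import Pool.Agent.Helper72.Jack.Wrap
import Pool.Agent.Helper72.Jack.DomAnti

/-!
# The Jack family from the interface data
-/

set_option linter.unusedSectionVars false
set_option linter.unusedSimpArgs false
set_option linter.style.longLine false

open MvPolynomial Finset

namespace Pool.Agent.Helper61.JackSuper

open SuperPartition

variable {n m N : ℕ}

/-- `P` is the family of the Jack superpolynomials `P_Λ` of degree `(n|m)` in `N` variables:
`P_Λ - m_Λ` is a combination of the `m_Ω`, `Ω < Λ`, and the `P_Λ` are pairwise orthogonal. -/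
def IsJackFamily (n m N : ℕ) (P : SuperPartition n m → SP N) : Prop :=
  (∀ L, P L - mon N L ∈ Submodule.span K (mon N '' {O | Dom O L ∧ O ≠ L})) ∧
  ∀ B, IsScalarProduct n m N B → ∀ L L', L ≠ L' → B (P L) (P L') = 0

lemma al_ne_zero : al ≠ 0 := RatFunc.X_ne_zero

lemma zee_ne_zero (L : SuperPartition n m) : (zee L : K) ≠ 0 := by
  rw [Nat.cast_ne_zero, zee, Finset.prod_ne_zero_iff]
  intro k hk
  have := L.bos_pos k (Multiset.mem_toFinset.1 hk)
  exact mul_ne_zero (pow_ne_zero _ (by omega)) (Nat.factorial_ne_zero _)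

/-- the norm of `p_Λ` -/
noncomputable def nrm (L : SuperPartition n m) : K :=
  (-1) ^ (m.choose 2) * al ^ (m + Multiset.card L.bos) * (zee L : K)

lemma nrm_ne_zero (L : SuperPartition n m) : nrm L ≠ 0 :=
  mul_ne_zero (mul_ne_zero (pow_ne_zero _ (by norm_num)) (pow_ne_zero _ al_ne_zero)) (zee_ne_zero L)

lemma aeval_ne_zero {p : Polynomial ℤ} (hp : p ≠ 0) : Polynomial.aeval al p ≠ 0 := by
  have h1 : Polynomial.aeval al p = algebraMap (Polynomial ℚ) K (p.map (Int.castRingHom ℚ)) := by
    have h2 : (Polynomial.aeval al : Polynomial ℤ →ₐ[ℤ] K).toRingHom =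
        (algebraMap (Polynomial ℚ) K).comp (Polynomial.mapRingHom (Int.castRingHom ℚ)) := by
      apply Polynomial.ringHom_ext
      · intro a; simp
      · simp [al]
    exact DFunLike.congr_fun h2 p
  rw [h1]
  intro h0
  rw [map_eq_zero_iff _ (RatFunc.algebraMap_injective ℚ)] at h0
  exact hp ((Polynomial.map_eq_zero_iff (RingHom.injective_int _)).1 h0)

noncomputable instance : DecidableRel (SDom (n := n) (m := m)) := Classical.decRel _

section
variable (w : SuperPartition n m → SuperPartition n m → Polynomial ℤ)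

/-- the integral form -/
noncomputable def FF (N : ℕ) (L : SuperPartition n m) : SP N :=
  ∑ O, Polynomial.aeval al (w L O) • mon N O

variable (I3 : ∀ L, w L L = v L) (I4 : ∀ L O, w L O ≠ 0 → Dom O L)

include I3 I4 in
lemma FF_eq (L : SuperPartition n m) :
    FF w N L = Polynomial.aeval al (v L) • mon N L +
      ∑ O ∈ univ.filter (fun O => SDom O L), Polynomial.aeval al (w L O) • mon N O := by
  rw [FF, ← Finset.add_sum_erase univ _ (mem_univ L), I3]
  congr 1
  symm
  apply Finset.sum_subset
  · intro O hO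
    rw [Finset.mem_filter] at hO
    exact Finset.mem_erase.2 ⟨hO.2.2, mem_univ _⟩
  · intro O hO hO'
    have h1 : w L O = 0 := by
      by_contra h
      exact hO' (Finset.mem_filter.2 ⟨mem_univ _, I4 L O h, (Finset.mem_erase.1 hO).1⟩)
    rw [h1, map_zero, zero_smul]

include I3 I4 in
lemma mon_mem (L : SuperPartition n m) :
    mon N L ∈ Submodule.span K (FF w N '' {O | Dom O L}) := by
  induction L using SDom_wf.induction with
  | _ L ih =>
    have h1 : mon N L = (Polynomial.aeval al (v L))⁻¹ • (FF w N L -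
        ∑ O ∈ univ.filter (fun O => SDom O L), Polynomial.aeval al (w L O) • mon N O) := by
      rw [FF_eq w I3 I4, add_sub_cancel_right, inv_smul_smul₀ (aeval_ne_zero (v_ne_zero L))]
    rw [h1]
    apply Submodule.smul_mem
    apply Submodule.sub_mem
    · exact Submodule.subset_span ⟨L, Dom_refl L, rfl⟩
    · apply Submodule.sum_mem
      intro O hO
      rw [Finset.mem_filter] at hO
      apply Submodule.smul_mem
      refine Submodule.span_mono ?_ (ih O hO.2)
      rintro _ ⟨S, hS, rfl⟩
      exact ⟨S, Dom_trans hS hO.2.1, rfl⟩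

end

/-- the candidate for `P_Λ` -/
noncomputable def PP (w : SuperPartition n m → SuperPartition n m → Polynomial ℤ) (N : ℕ)
    (L : SuperPartition n m) : SP N := (Polynomial.aeval al (v L))⁻¹ • FF w N L

section
variable (N1 : ℕ) (w : SuperPartition n m → SuperPartition n m → Polynomial ℤ)
    (u : SuperPartition n m → SuperPartition n m → K) (c : SuperPartition n m → K)
    (hc : ∀ L, c L ≠ 0)
    (hC : ∀ N, n + m ≤ N → ∀ G O : SuperPartition n m, Cmat N G O = Cmat N1 G O)
    (I1 : ∀ L O, c L * Polynomial.aeval al (w L O) = ∑ G, u L G * (Cmat N1 G O : K))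
    (I2 : ∀ L L', L ≠ L' → ∑ G, u L G * u L' G * (al ^ (Multiset.card G.bos) * (zee G : K)) = 0)
    (I3 : ∀ L, w L L = v L) (I4 : ∀ L O, w L O ≠ 0 → Dom O L)

include hC I1 in
lemma c_FF (hN : n + m ≤ N) (L : SuperPartition n m) : c L • FF w N L = ∑ G, u L G • pow N G := by
  have h1 : ∀ G, u L G • pow N G = ∑ O, (u L G * (Cmat N1 G O : K)) • mon N O := by
    intro G
    rw [pow_eq_sum hN, Finset.smul_sum]
    refine Finset.sum_congr rfl fun O _ => ?_
    rw [smul_smul, hC N hN]
  rw [Finset.sum_congr rfl (fun G _ => h1 G), Finset.sum_comm, FF, Finset.smul_sum]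
  refine Finset.sum_congr rfl fun O _ => ?_
  rw [smul_smul, I1, Finset.sum_smul]

include hc hC I1 in
lemma FF_mem (hN : n + m ≤ N) (L : SuperPartition n m) :
    FF w N L ∈ Submodule.span K (Set.range (pow N : SuperPartition n m → SP N)) := by
  have h1 : FF w N L = (c L)⁻¹ • ∑ G, u L G • pow N G := by
    rw [← c_FF N1 w u c hC I1 hN, inv_smul_smul₀ (hc L)]
  rw [h1]
  apply Submodule.smul_mem
  apply Submodule.sum_mem
  intro G _
  exact Submodule.smul_mem _ _ (Submodule.subset_span ⟨G, rfl⟩)

include hc hC I1 I3 I4 in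
lemma span_eq (hN : n + m ≤ N) : Submodule.span K (Set.range (pow N : SuperPartition n m → SP N)) =
    Submodule.span K (Set.range (mon N : SuperPartition n m → SP N)) := by
  apply le_antisymm
  · rw [Submodule.span_le]
    rintro _ ⟨G, rfl⟩
    rw [SetLike.mem_coe, pow_eq_sum hN]
    apply Submodule.sum_mem
    intro O _
    exact Submodule.smul_mem _ _ (Submodule.subset_span ⟨O, rfl⟩)
  · rw [Submodule.span_le]
    rintro _ ⟨L, rfl⟩
    refine Submodule.span_le.2 ?_ (mon_mem w I3 I4 L)
    rintro _ ⟨O, _, rfl⟩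
    exact FF_mem N1 w u c hc hC I1 hN O

include hc hC I1 I3 I4 in
lemma pow_linearIndependent (hN : n + m ≤ N) :
    LinearIndependent K (pow N : SuperPartition n m → SP N) := by
  rw [linearIndependent_iff_card_eq_finrank_span, Set.finrank,
    span_eq N1 w u c hc hC I1 I3 I4 hN]
  exact linearIndependent_iff_card_eq_finrank_span.1 (mon_linearIndependent hN)

include hc hC I1 I3 I4 in
lemma exists_B (hN : n + m ≤ N) : ∃ B, IsScalarProduct n m N B := by
  classical
  have hLI := pow_linearIndependent N1 w u c hc hC I1 I3 I4 hN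
  set T : (SuperPartition n m → K) →ₗ[K] SP N := Fintype.linearCombination K (pow N) with hT
  have hTinj : LinearMap.ker T = ⊥ := by
    rw [LinearMap.ker_eq_bot']
    intro g hg
    rw [hT, Fintype.linearCombination_apply] at hg
    funext i
    exact Fintype.linearIndependent_iff.1 hLI g hg i
  obtain ⟨φ, hφ⟩ := LinearMap.exists_leftInverse_of_injective T hTinj
  have hφ' : ∀ G, φ (pow N G) = Pi.single G 1 := by
    intro G
    have h1 : T (Pi.single G 1) = pow N G := by
      rw [hT, Fintype.linearCombination_apply, Finset.sum_eq_single G]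
      · simp
      · intro b _ hb
        rw [Pi.single_eq_of_ne hb, zero_smul]
      · intro hh; exact absurd (mem_univ _) hh
    rw [← h1]
    exact DFunLike.congr_fun hφ _
  set f : SuperPartition n m → (SP N →ₗ[K] K) := fun G => LinearMap.proj G ∘ₗ φ with hf
  have hf' : ∀ G W, f G (pow N W) = if G = W then 1 else 0 := by
    intro G W
    rw [hf]
    simp only [LinearMap.comp_apply, hφ', LinearMap.proj_apply, Pi.single_apply]
  refine ⟨∑ G, nrm G • (f G).smulRight (f G), fun L W => ⟨fun hLW => ?_, ?_⟩⟩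
  · simp only [LinearMap.sum_apply, LinearMap.smul_apply, LinearMap.smulRight_apply, hf']
    apply Finset.sum_eq_zero
    intro G _
    by_cases h1 : G = L
    · subst h1; simp [hLW]
    · simp [h1]
  · simp only [LinearMap.sum_apply, LinearMap.smul_apply, LinearMap.smulRight_apply, hf']
    rw [Finset.sum_eq_single L]
    · simp [nrm]
    · intro G _ hG
      simp [hG]
    · intro hh; exact absurd (mem_univ _) hh

/-- bilinear expansion -/
lemma B_expand {B : SP N →ₗ[K] SP N →ₗ[K] K} (hB : IsScalarProduct n m N B)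
    (a b : SuperPartition n m → K) :
    B (∑ G, a G • pow N G) (∑ G, b G • pow N G) = ∑ G, a G * b G * nrm G := by
  rw [show B (∑ G, a G • pow N G) = ∑ G, B (a G • pow N G) from map_sum B _ _, LinearMap.sum_apply]
  refine Finset.sum_congr rfl fun G _ => ?_
  rw [LinearMap.map_smul₂, map_sum, Finset.sum_eq_single G]
  · rw [map_smul, (hB G G).2, smul_eq_mul, smul_eq_mul, nrm]; ring
  · intro W _ hW
    rw [map_smul, (hB G W).1 hW.symm, smul_zero]
  · intro hh; exact absurd (mem_univ _) hh

include hc hC I1 I2 in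
lemma FF_orth (hN : n + m ≤ N) {B : SP N →ₗ[K] SP N →ₗ[K] K} (hB : IsScalarProduct n m N B)
    {L L' : SuperPartition n m} (hL : L ≠ L') : B (FF w N L) (FF w N L') = 0 := by
  have h1 : c L * (c L' * B (FF w N L) (FF w N L')) = 0 := by
    have h2 : c L * (c L' * B (FF w N L) (FF w N L')) = B (c L • FF w N L) (c L' • FF w N L') := by
      rw [LinearMap.map_smul₂, map_smul, smul_eq_mul, smul_eq_mul]
    rw [h2, c_FF N1 w u c hC I1 hN, c_FF N1 w u c hC I1 hN, B_expand hB]
    have h3 : ∑ G, u L G * u L' G * nrm G = (-1) ^ (m.choose 2) * al ^ m *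
        ∑ G, u L G * u L' G * (al ^ (Multiset.card G.bos) * (zee G : K)) := by
      rw [Finset.mul_sum]
      refine Finset.sum_congr rfl fun G _ => ?_
      rw [nrm, pow_add]; ring
    rw [h3, I2 L L' hL, mul_zero]
  exact ((mul_eq_zero.1 ((mul_eq_zero.1 h1).resolve_left (hc L))).resolve_left (hc L'))

lemma nondeg {B : SP N →ₗ[K] SP N →ₗ[K] K} (hB : IsScalarProduct n m N B) {x : SP N}
    (hx : x ∈ Submodule.span K (Set.range (pow N : SuperPartition n m → SP N)))
    (h0 : ∀ G : SuperPartition n m, B x (pow N G) = 0) : x = 0 := by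
  obtain ⟨a, rfl⟩ := (Submodule.mem_span_range_iff_exists_fun K).1 hx
  apply Finset.sum_eq_zero
  intro G _
  have h1 := h0 G
  have h2 : (pow N G : SP N) = ∑ W : SuperPartition n m, (if W = G then (1 : K) else 0) • pow N W := by
    rw [Finset.sum_eq_single G]
    · simp
    · intro b _ hb; simp [hb]
    · intro hh; exact absurd (mem_univ _) hh
  rw [h2, B_expand hB, Finset.sum_eq_single G] at h1
  · simp only [if_true, mul_one] at h1
    rw [(mul_eq_zero.1 h1).resolve_right (nrm_ne_zero G), zero_smul]
  · intro b _ hb; simp [hb]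
  · intro hh; exact absurd (mem_univ _) hh

include hc hC I1 I2 I3 I4 in
lemma PP_isJack (hN : n + m ≤ N) : IsJackFamily n m N (PP w N) := by
  refine ⟨fun L => ?_, fun B hB L L' hL => ?_⟩
  · rw [PP, FF_eq w I3 I4, smul_add, inv_smul_smul₀ (aeval_ne_zero (v_ne_zero L)),
      add_sub_cancel_left]
    apply Submodule.smul_mem
    apply Submodule.sum_mem
    intro O hO
    rw [Finset.mem_filter] at hO
    exact Submodule.smul_mem _ _ (Submodule.subset_span ⟨O, ⟨hO.2.1, hO.2.2⟩, rfl⟩)
  · rw [PP, PP, LinearMap.map_smul₂, map_smul,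
      FF_orth N1 w u c hc hC I1 I2 hN hB hL, smul_zero, smul_zero]

include I3 I4 in
lemma mon_mem_PP (L : SuperPartition n m) :
    mon N L ∈ Submodule.span K (PP w N '' {O | Dom O L}) := by
  refine Submodule.span_le.2 ?_ (mon_mem w I3 I4 L)
  rintro _ ⟨O, hO, rfl⟩
  have : FF w N O = Polynomial.aeval al (v O) • PP w N O := by
    rw [PP, smul_inv_smul₀ (aeval_ne_zero (v_ne_zero O))]
  rw [SetLike.mem_coe, this]
  exact Submodule.smul_mem _ _ (Submodule.subset_span ⟨O, hO, rfl⟩)

include hc hC I1 I2 I3 I4 in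
lemma jack_unique (hN : n + m ≤ N) {P : SuperPartition n m → SP N} (hP : IsJackFamily n m N P) :
    P = PP w N := by
  obtain ⟨B, hB⟩ := exists_B N1 w u c hc hC I1 I3 I4 hN
  have hPP := PP_isJack N1 w u c hc hC I1 I2 I3 I4 hN
  funext L
  induction L using SDom_wf.induction with
  | _ L ih =>
    rw [← sub_eq_zero]
    have hD : P L - PP w N L ∈ Submodule.span K (PP w N '' {O | Dom O L ∧ O ≠ L}) := by
      have h1 : P L - PP w N L = (P L - mon N L) - (PP w N L - mon N L) := by abel
      rw [h1]
      refine Submodule.sub_mem _ ?_ ?_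
      · refine Submodule.span_le.2 ?_ (hP.1 L)
        rintro _ ⟨O, hO, rfl⟩
        refine Submodule.span_mono ?_ (mon_mem_PP w I3 I4 O)
        rintro _ ⟨S, hS, rfl⟩
        refine ⟨S, ⟨Dom_trans hS hO.1, ?_⟩, rfl⟩
        rintro rfl
        exact hO.2 (Dom_antisymm hO.1 hS)
      · refine Submodule.span_le.2 ?_ (hPP.1 L)
        rintro _ ⟨O, hO, rfl⟩
        refine Submodule.span_mono ?_ (mon_mem_PP w I3 I4 O)
        rintro _ ⟨S, hS, rfl⟩
        refine ⟨S, ⟨Dom_trans hS hO.1, ?_⟩, rfl⟩
        rintro rfl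
        exact hO.2 (Dom_antisymm hO.1 hS)
    have hspan : ∀ O, PP w N O ∈ Submodule.span K (Set.range (pow N : SuperPartition n m → SP N)) :=
      fun O => Submodule.smul_mem _ _ (FF_mem N1 w u c hc hC I1 hN O)
    have hD' : P L - PP w N L ∈ Submodule.span K (Set.range (pow N : SuperPartition n m → SP N)) := by
      refine Submodule.span_le.2 ?_ hD
      rintro _ ⟨O, _, rfl⟩
      exact hspan O
    have hDO : ∀ O, B (P L - PP w N L) (PP w N O) = 0 := by
      intro O
      by_cases hO : SDom O L
      · rw [map_sub, LinearMap.sub_apply, hPP.2 B hB L O (Ne.symm hO.2), sub_zero, ← ih O hO]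
        exact hP.2 B hB L O (Ne.symm hO.2)
      · have : ∀ x ∈ Submodule.span K (PP w N '' {O | Dom O L ∧ O ≠ L}), B x (PP w N O) = 0 := by
          intro x hx
          induction hx using Submodule.span_induction with
          | mem x hx =>
            obtain ⟨S, hS, rfl⟩ := hx
            apply hPP.2 B hB
            rintro rfl
            exact hO hS
          | zero => rw [map_zero]; rfl
          | add x y _ _ hx hy => rw [map_add, LinearMap.add_apply, hx, hy, add_zero]
          | smul a x _ hx => rw [map_smul, LinearMap.smul_apply, hx, smul_zero]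
        exact this _ hD
    apply nondeg hB hD'
    intro G
    have hG : pow N G ∈ Submodule.span K (Set.range (PP w N)) := by
      have h1 : pow N G ∈ Submodule.span K (Set.range (mon N : SuperPartition n m → SP N)) := by
        rw [← span_eq N1 w u c hc hC I1 I3 I4 hN]
        exact Submodule.subset_span ⟨G, rfl⟩
      refine Submodule.span_le.2 ?_ h1
      rintro _ ⟨O, rfl⟩
      refine Submodule.span_mono ?_ (mon_mem_PP w I3 I4 O)
      rintro _ ⟨S, _, rfl⟩
      exact ⟨S, rfl⟩
    have key : ∀ y ∈ Submodule.span K (Set.range (PP w N)), B (P L - PP w N L) y = 0 := by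
      intro y hy
      induction hy using Submodule.span_induction with
      | mem x hx => obtain ⟨O, rfl⟩ := hx; exact hDO O
      | zero => rw [map_zero]
      | add x y _ _ hx hy => rw [map_add, hx, hy, add_zero]
      | smul a x _ hx => rw [map_smul, hx, smul_zero]
    exact key _ hG

include hc hC I1 I2 I3 I4 in
/-- The wrapper. -/
theorem wrap : ∃ w' : SuperPartition n m → SuperPartition n m → Polynomial ℤ,
    (∀ L, w' L L = v L) ∧ (∀ L O, w' L O ≠ 0 → Dom O L) ∧
    ∀ N, n + m ≤ N →
      LinearIndependent K (mon N : SuperPartition n m → SP N) ∧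
      LinearIndependent K (pow N : SuperPartition n m → SP N) ∧
      Submodule.span K (Set.range (pow N : SuperPartition n m → SP N)) =
        Submodule.span K (Set.range (mon N : SuperPartition n m → SP N)) ∧
      (∃ B, IsScalarProduct n m N B) ∧
      ∃ P : SuperPartition n m → SP N, IsJackFamily n m N P ∧
        (∀ P', IsJackFamily n m N P' → P' = P) ∧
        ∀ L, Polynomial.aeval al (v L) • P L = ∑ O, Polynomial.aeval al (w' L O) • mon N O := by
  refine ⟨w, I3, I4, fun N hN => ⟨mon_linearIndependent hN,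
    pow_linearIndependent N1 w u c hc hC I1 I3 I4 hN, span_eq N1 w u c hc hC I1 I3 I4 hN,
    exists_B N1 w u c hc hC I1 I3 I4 hN, PP w N, PP_isJack N1 w u c hc hC I1 I2 I3 I4 hN,
    fun P' hP' => jack_unique N1 w u c hc hC I1 I2 I3 I4 hN hP', fun L => ?_⟩⟩
  rw [PP, smul_inv_smul₀ (aeval_ne_zero (v_ne_zero L))]; rfl

end

end Pool.Agent.Helper61.JackSuper
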