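import Pool.Agent.Helper72.Jack.Expand
import Pool.Agent.Helper61.Jack.Defs

/-!
# Bridge between the two sets of definitions
-/

set_option linter.unusedSectionVars false
set_option linter.unusedSimpArgs false
set_option linter.style.longLine false

open MvPolynomial Finset

namespace Pool.Agent.Helper61.JackSuper

open Pool.Agent.Helper72.Jack (SPar)

variable {n m N : ℕ}

lemma dec_pairwise (s : Multiset ℕ) : (dec s).Pairwise (· ≥ ·) := Multiset.pairwise_sort s _

lemma dec_coe (s : Multiset ℕ) : ((dec s : List ℕ) : Multiset ℕ) = s := Multiset.sort_eq s _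

lemma dec_pairwise' (s : Finset ℕ) : (dec s.val).Pairwise (· > ·) := by
  have h1 : (dec s.val).Nodup := by
    rw [← Multiset.coe_nodup, dec_coe]; exact s.nodup
  have h2 := dec_pairwise s.val
  exact (h2.and h1).imp (fun {a b} h => lt_of_le_of_ne h.1 (Ne.symm h.2))

/-- the corresponding superpartition -/
def toS (L : SuperPartition n m) : SPar n m where
  a := dec L.fer.val
  s := dec L.bos
  ha := dec_pairwise' _
  hm := by
    rw [← Multiset.coe_card, dec_coe]; exact L.card_fer
  hs := dec_pairwise _
  hpos := by
    intro x hx
    apply L.bos_pos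
    rw [← dec_coe L.bos]; exact hx
  hsum := by
    rw [← Multiset.sum_coe, ← Multiset.sum_coe, dec_coe, dec_coe]
    have := L.sum_eq
    rwa [Finset.sum_eq_multiset_sum, Multiset.map_id'] at this

lemma toS_injective : Function.Injective (toS (n := n) (m := m)) := by
  intro L W h
  have h1 : dec L.fer.val = dec W.fer.val := congrArg SPar.a h
  have h2 : dec L.bos = dec W.bos := congrArg SPar.s h
  apply SuperPartition.ext
  · apply Finset.val_injective
    rw [← dec_coe L.fer.val, h1, dec_coe]
  · rw [← dec_coe L.bos, h2, dec_coe]

lemma toS_surjective : Function.Surjective (toS (n := n) (m := m)) := by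
  intro S
  have hnd : (S.a : Multiset ℕ).Nodup := by
    rw [Multiset.coe_nodup]
    exact S.ha.imp (fun {a b} h => ne_of_gt h)
  refine ⟨⟨⟨S.a, hnd⟩, S.s, ?_, ?_, ?_⟩, ?_⟩
  · simpa using S.hm
  · intro x hx; exact S.hpos x (by simpa using hx)
  · rw [Finset.sum_eq_multiset_sum, Multiset.map_id', Multiset.sum_coe, Multiset.sum_coe]
    exact S.hsum
  · apply SPar.ext
    · show dec (S.a : Multiset ℕ) = S.a
      apply List.Perm.eq_of_pairwise (le := (· ≥ ·))
      · intro a b _ _ h1 h2; exact le_antisymm h2 h1
      · exact dec_pairwise _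
      · exact S.ha.imp (fun {a b} h => le_of_lt h)
      · rw [← Multiset.coe_eq_coe, dec_coe]
    · show dec (S.s : Multiset ℕ) = S.s
      apply List.Perm.eq_of_pairwise (le := (· ≥ ·))
      · intro a b _ _ h1 h2; exact le_antisymm h2 h1
      · exact dec_pairwise _
      · exact S.hs
      · rw [← Multiset.coe_eq_coe, dec_coe]

/-- the bijection -/
noncomputable def equivS : SuperPartition n m ≃ SPar n m :=
  Equiv.ofBijective toS ⟨toS_injective, toS_surjective⟩

noncomputable instance instFintypeSP : Fintype (SuperPartition n m) := Fintype.ofEquiv _ equivS.symm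

noncomputable instance instDecEqSP : DecidableEq (SuperPartition n m) := Classical.decEq _

lemma part_toS (L : SuperPartition n m) (i : ℕ) : (toS L).part i = L.parts.getD i 0 := rfl

lemma card_filter_getD (l : List ℕ) (k : ℕ) : ∀ T, l.length ≤ T →
    ((range T).filter (fun j => l.getD j 0 = k)).card = l.count k + if k = 0 then T - l.length else 0 := by
  induction l with
  | nil =>
    intro T _
    by_cases hk : k = 0
    · subst hk; simp
    · rw [if_neg hk]
      simp [Ne.symm hk]
  | cons x xs ih =>
    intro T hT
    obtain ⟨T, rfl⟩ : ∃ T', T = T' + 1 := ⟨T - 1, by simp at hT; omega⟩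
    have hT' : xs.length ≤ T := by simpa using hT
    have h1 : ((range (T + 1)).filter (fun j => (x :: xs).getD j 0 = k)).card =
        (if x = k then 1 else 0) + ((range T).filter (fun j => xs.getD j 0 = k)).card := by
      rw [Finset.card_filter, Finset.card_filter, Finset.sum_range_succ']
      simp only [List.getD_cons_succ, List.getD_cons_zero]
      omega
    rw [h1, ih T hT', List.count_cons]
    simp only [beq_iff_eq, List.length_cons]
    split_ifs <;> omega

lemma card_fin_filter (S : SPar n m) (hN : n + m ≤ N) (k : ℕ) :
    (univ.filter (fun i : Fin N => m ≤ (i : ℕ) ∧ S.part i = k)).card =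
      S.s.count k + if k = 0 then N - m - S.s.length else 0 := by
  have h1 : (univ.filter (fun i : Fin N => m ≤ (i : ℕ) ∧ S.part i = k)).card =
      ((range (N - m)).filter (fun j => S.s.getD j 0 = k)).card := by
    symm
    refine Finset.card_bij (fun j hj => ⟨m + j, by
      have := Finset.mem_range.1 (Finset.mem_filter.1 hj).1; omega⟩) ?_ ?_ ?_
    · intro j hj
      have h2 := (Finset.mem_filter.1 hj).2
      simp only [Finset.mem_filter, mem_univ, true_and]
      refine ⟨by omega, ?_⟩
      rw [SPar.part_ge S (by omega)]
      simpa using h2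
    · intro a _ b _ hab
      have := congrArg Fin.val hab
      simp only at this
      omega
    · intro i hi
      simp only [Finset.mem_filter, mem_univ, true_and] at hi
      refine ⟨i - m, ?_, ?_⟩
      · rw [Finset.mem_filter, Finset.mem_range]
        refine ⟨by have := i.2; omega, ?_⟩
        rw [← SPar.part_ge S hi.1]; exact hi.2
      · apply Fin.ext; simp only; omega
  rw [h1, card_filter_getD _ _ _ (by have := S.length_s; omega)]

lemma stab_eq_aut (hN : n + m ≤ N) (L : SuperPartition n m) :
    Pool.Agent.Helper72.Jack.stab N (toS L) = SuperPartition.aut N L := by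
  classical
  set S := toS L with hS
  set f : Fin N → ℕ := fun i => if (i : ℕ) < m then n + 1 + i else S.part i with hf
  have hfF : ∀ i : Fin N, (i : ℕ) < m → f i = n + 1 + i := fun i hi => by simp [hf, hi]
  have hfB : ∀ i : Fin N, ¬ (i : ℕ) < m → f i = S.part i := fun i hi => by simp [hf, hi]
  have h1 : Pool.Agent.Helper72.Jack.stab N S = Fintype.card {σ : Equiv.Perm (Fin N) // f ∘ σ = f} := by
    rw [Fintype.card_subtype, Pool.Agent.Helper72.Jack.stab]
    congr 1
    ext σ
    simp only [Finset.mem_filter, mem_univ, true_and]
    constructor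
    · rintro ⟨h2, h3⟩
      funext i
      simp only [Function.comp_apply]
      by_cases hi : (i : ℕ) < m
      · rw [h2 i hi]
      · have hσ : ¬ (σ i : ℕ) < m := by
          intro hc
          have := h2 _ hc
          exact hi (by rw [← σ.injective this]; exact hc)
        rw [hfB _ hσ, hfB _ hi, h3]
    · intro h2
      have h3 : ∀ i, f (σ i) = f i := fun i => congrFun h2 i
      have h4 : ∀ i : Fin N, (i : ℕ) < m → σ i = i := by
        intro i hi
        have h5 := h3 i
        rw [hfF i hi] at h5
        by_cases hσ : (σ i : ℕ) < m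
        · rw [hfF _ hσ] at h5; apply Fin.ext; omega
        · rw [hfB _ hσ] at h5
          have := S.part_le (σ i)
          omega
      refine ⟨h4, fun i => ?_⟩
      by_cases hi : (i : ℕ) < m
      · rw [h4 i hi]
      · have hσ : ¬ (σ i : ℕ) < m := by
          intro hc
          have := h4 _ hc
          exact hi (by rw [← σ.injective this]; exact hc)
        have h5 := h3 i
        rwa [hfB _ hσ, hfB _ hi] at h5
  rw [h1, DomMulAct.stabilizer_card']
  set g : ℕ → ℕ := fun v => (Fintype.card {a : Fin N // f a = v}).factorial with hg
  set T : Finset ℕ := insert 0 (L.bos.toFinset ∪ (range m).image (fun i => n + 1 + i)) with hT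
  have hsub : Finset.univ.image f ⊆ T := by
    intro v hv
    rw [Finset.mem_image] at hv
    obtain ⟨i, _, rfl⟩ := hv
    by_cases hi : (i : ℕ) < m
    · rw [hfF i hi, hT]
      simp [hi]
    · rw [hfB i hi, hT]
      by_cases h0 : S.part i = 0
      · simp [h0]
      · have : S.part i ∈ L.bos := by
          rw [SPar.part_ge S (not_lt.1 hi)] at h0 ⊢
          have hl : (i : ℕ) - m < S.s.length := by
            by_contra hc
            exact h0 (List.getD_eq_default _ _ (not_lt.1 hc))
          rw [List.getD_eq_getElem _ _ hl, ← dec_coe L.bos, Multiset.mem_coe]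
          exact List.getElem_mem hl
        simp [this]
  have hprod : ∏ v ∈ Finset.univ.image f, g v = ∏ v ∈ T, g v := by
    apply Finset.prod_subset hsub
    intro v _ hv
    have : IsEmpty {a : Fin N // f a = v} := by
      constructor
      rintro ⟨a, ha⟩
      exact hv (Finset.mem_image.2 ⟨a, mem_univ _, ha⟩)
    simp [hg]
  have hcard : ∀ v, v ≤ n → Fintype.card {a : Fin N // f a = v} =
      (univ.filter (fun i : Fin N => m ≤ (i : ℕ) ∧ S.part i = v)).card := by
    intro v hv
    rw [Fintype.card_subtype]
    congr 1
    ext i
    simp only [Finset.mem_filter, mem_univ, true_and]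
    by_cases hi : (i : ℕ) < m
    · rw [hfF i hi]
      constructor
      · intro hc; omega
      · intro hc; omega
    · rw [hfB i hi]
      constructor
      · intro hc; exact ⟨not_lt.1 hi, hc⟩
      · intro hc; exact hc.2
  have hcount : ∀ k, S.s.count k = L.bos.count k := by
    intro k
    rw [← Multiset.coe_count]
    show Multiset.count k ((dec L.bos : List ℕ) : Multiset ℕ) = _
    rw [dec_coe]
  have hlen : S.s.length = Multiset.card L.bos := by
    rw [← Multiset.coe_card]
    show Multiset.card ((dec L.bos : List ℕ) : Multiset ℕ) = _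
    rw [dec_coe]
  show ∏ v ∈ Finset.univ.image f, g v = _
  rw [hprod, hT, Finset.prod_insert, Finset.prod_union]
  · have e0 : g 0 = (N - m - Multiset.card L.bos).factorial := by
      simp only [hg]
      rw [hcard 0 (Nat.zero_le _), card_fin_filter S hN, if_pos rfl, hlen]
      have : S.s.count 0 = 0 := by
        rw [List.count_eq_zero]
        intro h0
        exact absurd (S.hpos 0 h0) (lt_irrefl _)
      rw [this, zero_add]
    have e1 : ∏ x ∈ L.bos.toFinset, g x = ∏ k ∈ L.bos.toFinset, (L.bos.count k).factorial := by
      refine Finset.prod_congr rfl fun k hk => ?_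
      have hk' : k ∈ L.bos := Multiset.mem_toFinset.1 hk
      have hk0 : 0 < k := L.bos_pos k hk'
      have hkn : k ≤ n := by
        have := L.sum_eq
        have := Multiset.single_le_sum (fun _ _ => Nat.zero_le _) k hk'
        omega
      simp only [hg]
      rw [hcard k hkn, card_fin_filter S hN, if_neg (by omega), hcount, add_zero]
    have e2 : ∏ x ∈ (range m).image (fun i => n + 1 + i), g x = 1 := by
      apply Finset.prod_eq_one
      intro v hv
      rw [Finset.mem_image] at hv
      obtain ⟨i, hi, rfl⟩ := hv
      rw [Finset.mem_range] at hi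
      simp only [hg]
      have : Fintype.card {a : Fin N // f a = n + 1 + i} = 1 := by
        rw [Fintype.card_eq_one_iff]
        refine ⟨⟨⟨i, by omega⟩, by rw [hfF _ hi]⟩, ?_⟩
        rintro ⟨a, ha⟩
        apply Subtype.ext
        apply Fin.ext
        by_cases haM : (a : ℕ) < m
        · rw [hfF a haM] at ha
          simp only; omega
        · rw [hfB a haM] at ha
          have := S.part_le a
          omega
      rw [this]; rfl
    rw [e0, e1, e2, mul_one]; rfl
  · rw [Finset.disjoint_left]
    intro k hk hk2
    rw [Finset.mem_image] at hk2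
    obtain ⟨i, _, rfl⟩ := hk2
    have hk' : n + 1 + i ∈ L.bos := Multiset.mem_toFinset.1 hk
    have := L.sum_eq
    have := Multiset.single_le_sum (fun _ _ => Nat.zero_le _) _ hk'
    omega
  · intro h0
    rw [Finset.mem_union] at h0
    rcases h0 with h0 | h0
    · exact absurd (L.bos_pos 0 (Multiset.mem_toFinset.1 h0)) (lt_irrefl _)
    · rw [Finset.mem_image] at h0
      obtain ⟨i, _, hi⟩ := h0
      omega

end Pool.Agent.Helper61.JackSuper
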