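import Pool.Agent.Helper72.Jack.Defs

/-!
# Elementary facts on superpartitions
-/

set_option linter.unusedSectionVars false
set_option linter.unusedSimpArgs false
set_option linter.style.longLine false

open Finset

namespace Pool.Agent.Helper72.Jack

namespace SPar

variable {n m : ℕ}

lemma part_lt (L : SPar n m) {i : ℕ} (hi : i < m) : L.part i = L.a.getD i 0 := by
  have : i < L.a.length := by rw [L.hm]; exact hi
  rw [part, List.getD_append _ _ _ _ this]

lemma part_ge (L : SPar n m) {i : ℕ} (hi : m ≤ i) : L.part i = L.s.getD (i - m) 0 := by
  have : L.a.length ≤ i := by rw [L.hm]; omega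
  rw [part, List.getD_append_right _ _ _ _ this, L.hm]

lemma part_strictAnti (L : SPar n m) {i j : ℕ} (hij : i < j) (hj : j < m) : L.part j < L.part i := by
  have hi' : i < L.a.length := by rw [L.hm]; omega
  have hj' : j < L.a.length := by rw [L.hm]; exact hj
  rw [part_lt L hj, part_lt L (hij.trans hj)]
  have := List.pairwise_iff_getElem.1 L.ha i j hi' hj' hij
  simpa [hi', hj'] using this

lemma part_anti (L : SPar n m) {i j : ℕ} (hi : m ≤ i) (hij : i ≤ j) : L.part j ≤ L.part i := by
  rw [part_ge L hi, part_ge L (by omega)]
  rcases hij.eq_or_lt with rfl | hij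
  · exact le_rfl
  by_cases hj' : j - m < L.s.length
  · have hi' : i - m < L.s.length := by omega
    have := List.pairwise_iff_getElem.1 L.hs (i - m) (j - m) hi' hj' (by omega)
    simpa [hi', hj'] using this
  · rw [List.getD_eq_default _ _ (not_lt.1 hj')]
    exact Nat.zero_le _

lemma length_s (L : SPar n m) : L.s.length ≤ n := by
  have h : L.s.length ≤ L.s.sum := by
    have := L.hpos
    generalize L.s = l at *
    induction l with
    | nil => simp
    | cons x xs ih =>
      have h1 := this x (by simp)
      have h2 := ih (fun y hy => this y (by simp [hy]))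
      simp only [List.length_cons, List.sum_cons]
      omega
  have := L.hsum
  omega

lemma part_eq_zero (L : SPar n m) {i : ℕ} (hi : n + m ≤ i) : L.part i = 0 := by
  have := L.length_s
  rw [part_ge L (by omega)]
  exact List.getD_eq_default _ _ (by omega)

lemma ext_part {L W : SPar n m} (h : ∀ i, i < n + m → L.part i = W.part i) : L = W := by
  have h' : ∀ i, L.part i = W.part i := by
    intro i
    by_cases hi : i < n + m
    · exact h i hi
    · rw [part_eq_zero L (not_lt.1 hi), part_eq_zero W (not_lt.1 hi)]
  apply SPar.ext
  · apply List.ext_getElem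
    · rw [L.hm, W.hm]
    · intro i h1 h2
      have hi : i < m := by rw [← L.hm]; exact h1
      have := h' i
      rw [part_lt L hi, part_lt W hi] at this
      simpa [h1, h2] using this
  · have hs : ∀ k, L.s.getD k 0 = W.s.getD k 0 := by
      intro k
      have := h' (m + k)
      rw [part_ge L (by omega), part_ge W (by omega)] at this
      simpa using this
    have hlen : L.s.length = W.s.length := by
      rcases lt_trichotomy L.s.length W.s.length with hl | hl | hl
      · exfalso
        have h1 := hs L.s.length
        rw [List.getD_eq_default _ _ le_rfl, List.getD_eq_getElem _ _ hl] at h1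
        have := W.hpos _ (List.getElem_mem hl)
        omega
      · exact hl
      · exfalso
        have h1 := hs W.s.length
        rw [List.getD_eq_default W.s _ le_rfl, List.getD_eq_getElem _ _ hl] at h1
        have := L.hpos _ (List.getElem_mem hl)
        omega
    apply List.ext_getElem hlen
    intro k h1 h2
    have := hs k
    rwa [List.getD_eq_getElem _ _ h1, List.getD_eq_getElem _ _ h2] at this

lemma sum_part (L : SPar n m) {N : ℕ} (hN : n + m ≤ N) : ∑ i ∈ range N, L.part i = n := by
  have h1 : ∀ (l : List ℕ) (N : ℕ), l.length ≤ N → ∑ i ∈ range N, l.getD i 0 = l.sum := by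
    intro l
    induction l with
    | nil => intro N _; simp
    | cons x xs ih =>
      intro N hN
      obtain ⟨N, rfl⟩ : ∃ N', N = N' + 1 := ⟨N - 1, by simp at hN; omega⟩
      rw [Finset.sum_range_succ']
      simp only [List.getD_cons_succ, List.getD_cons_zero, List.sum_cons]
      rw [ih N (by simpa using hN)]; omega
  have := h1 (L.a ++ L.s) N (by rw [List.length_append, L.hm]; have := L.length_s; omega)
  rw [List.sum_append, L.hsum] at this
  exact this

lemma part_le (L : SPar n m) (i : ℕ) : L.part i ≤ n := by
  by_cases hi : i < n + m
  · refine le_trans ?_ (L.sum_part le_rfl).le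
    exact Finset.single_le_sum (f := L.part) (fun _ _ => Nat.zero_le _) (Finset.mem_range.2 hi)
  · rw [part_eq_zero L (not_lt.1 hi)]; omega

lemma getD_filter_pos : ∀ (l : List ℕ) (_ : l.Pairwise (· ≥ ·)) (k : ℕ),
    (l.filter (fun x => 0 < x)).getD k 0 = l.getD k 0 := by
  intro l
  induction l with
  | nil => intro _ k; simp
  | cons x xs ih =>
    intro h k
    rw [List.pairwise_cons] at h
    by_cases hx : 0 < x
    · rw [List.filter_cons_of_pos (by simpa using hx)]
      rcases k with _ | k
      · simp
      · simpa using ih h.2 k
    · have hall : ∀ y ∈ x :: xs, y = 0 := by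
        intro y hy
        rcases List.mem_cons.1 hy with rfl | hy
        · omega
        · have := h.1 y hy; omega
      have h1 : (x :: xs).filter (fun x => 0 < x) = [] := by
        rw [List.filter_eq_nil_iff]
        intro y hy
        simp [hall y hy]
      rw [h1]
      by_cases hk : k < (x :: xs).length
      · rw [List.getD_eq_getElem _ _ hk, hall _ (List.getElem_mem hk)]; simp
      · rw [List.getD_eq_default _ _ (not_lt.1 hk)]; simp

/-- superpartition from a dominant exponent function -/
lemma exists_of_fun {N : ℕ} (hN : m ≤ N) (e : ℕ → ℕ) (h1 : ∀ i j, i < j → j < m → e j < e i)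
    (h2 : ∀ i j, m ≤ i → i ≤ j → j < N → e j ≤ e i) (h3 : ∑ i ∈ range N, e i = n) :
    ∃ L : SPar n m, ∀ i, i < N → L.part i = e i := by
  set l : List ℕ := (List.range (N - m)).map (fun k => e (m + k)) with hl
  have hlp : l.Pairwise (· ≥ ·) := by
    rw [List.pairwise_iff_getElem]
    intro i j hi hj hij
    simp only [hl, List.length_map, List.length_range] at hi hj
    simp only [hl, List.getElem_map, List.getElem_range]
    exact h2 _ _ (by omega) (by omega) (by omega)
  have hlen : l.length = N - m := by simp [hl]
  have hsumf : (l.filter (fun x => 0 < x)).sum = l.sum := by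
    clear_value l
    clear hl hlp hlen
    induction l with
    | nil => simp
    | cons x xs ih =>
      by_cases hx : 0 < x
      · rw [List.filter_cons_of_pos (by simpa using hx)]; simp [ih]
      · rw [List.filter_cons_of_neg (by simpa using hx)]
        have : x = 0 := by omega
        simp [ih, this]
  refine ⟨⟨(List.range m).map e, l.filter (fun x => 0 < x), ?_, by simp, hlp.filter _, ?_, ?_⟩, ?_⟩
  · rw [List.pairwise_iff_getElem]
    intro i j hi hj hij
    simp only [List.length_map, List.length_range] at hi hj
    simp only [List.getElem_map, List.getElem_range]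
    exact h1 _ _ hij hj
  · intro x hx
    simpa using (List.mem_filter.1 hx).2
  · rw [hsumf, ← h3, ← Finset.sum_range_add_sum_Ico _ hN, Finset.sum_Ico_eq_sum_range]
    have hr : ∀ (k : ℕ) (f : ℕ → ℕ), ((List.range k).map f).sum = ∑ i ∈ range k, f i := by
      intro k f; rfl
    rw [hl, hr, hr]
  · intro i hi
    by_cases him : i < m
    · rw [part_lt _ him]
      simp [him]
    · rw [part_ge _ (by omega)]
      show (l.filter (fun x => 0 < x)).getD (i - m) 0 = e i
      rw [getD_filter_pos l hlp, List.getD_eq_getElem _ _ (by rw [hlen]; omega)]
      simp only [hl, List.getElem_map, List.getElem_range]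
      congr 1; omega

instance : Finite (SPar n m) := by
  apply Finite.of_injective (β := Fin (n + m) → Fin (n + 1))
    (fun L i => ⟨L.part i, Nat.lt_succ_of_le (L.part_le i)⟩)
  intro L W h
  apply ext_part
  intro i hi
  have := congrFun h ⟨i, hi⟩
  simpa using this

noncomputable instance : Fintype (SPar n m) := Fintype.ofFinite _

/-- a monotone key which encodes the superpartition -/
def key (L : SPar n m) (i : ℕ) : ℕ := (if i < m then 0 else n + 1) + (n - L.part i)

lemma key_mono (L : SPar n m) {i j : ℕ} (hij : i ≤ j) : L.key i ≤ L.key j := by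
  have h1 := L.part_le i
  have h2 := L.part_le j
  unfold key
  by_cases hj : j < m
  · rw [if_pos (by omega : i < m), if_pos hj]
    rcases hij.eq_or_lt with rfl | hij
    · exact le_rfl
    · have := L.part_strictAnti hij hj
      omega
  · rw [if_neg hj]
    by_cases hi : i < m
    · rw [if_pos hi]; omega
    · rw [if_neg hi]
      have := L.part_anti (not_lt.1 hi) hij
      omega

end SPar

end Pool.Agent.Helper72.Jack
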