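import Pool.Agent.Helper72.Jack.Super
import Pool.Agent.Helper72.Jack.SPart

/-!
# Coefficients of the components
-/

set_option linter.unusedSectionVars false
set_option linter.unusedSimpArgs false
set_option linter.style.longLine false

open MvPolynomial Finset

namespace Pool.Agent.Helper72.Jack

variable {K : Type*} [Field K] {N m n : ℕ}

lemma lt_of_pres (h : m ≤ N) {τ : Equiv.Perm (Fin N)} (hτ : Pres h τ) (i : Fin N) :
    ((τ i : ℕ) < m ↔ (i : ℕ) < m) := by
  have h1 : ∀ i : Fin N, (i : ℕ) < m → (τ i : ℕ) < m := fun i hi => by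
    simpa using hτ ⟨i, hi⟩
  refine ⟨fun hi => ?_, h1 i⟩
  -- counting
  obtain ⟨ρ, hρ⟩ := exists_perm h hτ
  have h2 : τ (Fin.castLE h (ρ.symm ⟨τ i, hi⟩)) = τ i := by
    rw [hρ]; ext; simp
  have h3 := τ.injective h2
  rw [← h3]; simp

lemma key_comp (h : m ≤ N) {τ : Equiv.Perm (Fin N)} (hτ : Pres h τ) (L W : SPar n m)
    (he : ∀ i : Fin N, L.part i = W.part (τ i)) :
    (fun i : Fin N => L.key i) = (fun i : Fin N => W.key i) ∘ τ := by
  funext i
  simp only [SPar.key, Function.comp_apply, he i]
  congr 1
  have := lt_of_pres h hτ i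
  by_cases hi : (i : ℕ) < m
  · rw [if_pos hi, if_pos (this.2 hi)]
  · rw [if_neg hi, if_neg (fun hc => hi (this.1 hc))]

lemma eq_of_key (hN : n + m ≤ N) (L W : SPar n m)
    (hk : (fun i : Fin N => L.key i) = (fun i : Fin N => W.key i)) : L = W := by
  apply SPar.ext_part
  intro i hi
  have := congrFun hk ⟨i, by omega⟩
  simp only [SPar.key] at this
  have h1 := L.part_le i
  have h2 := W.part_le i
  omega

lemma eq_of_pres (h : m ≤ N) (hN : n + m ≤ N) {τ : Equiv.Perm (Fin N)} (hτ : Pres h τ)
    (L W : SPar n m) (he : ∀ i : Fin N, L.part i = W.part (τ i)) : L = W := by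
  apply eq_of_key hN
  have h1 := key_comp h hτ L W he
  have h2 : Monotone ((fun i : Fin N => W.key i) ∘ τ) := by
    rw [← h1]; intro i j hij; exact L.key_mono hij
  have h3 : Monotone ((fun i : Fin N => W.key i) ∘ (1 : Equiv.Perm (Fin N))) := by
    intro i j hij; exact W.key_mono hij
  rw [h1, Tuple.unique_monotone h2 h3]; rfl

lemma fix_of_part (h : m ≤ N) {τ : Equiv.Perm (Fin N)} (hτ : Pres h τ)
    (L : SPar n m) (he : ∀ i : Fin N, L.part i = L.part (τ i)) (i : Fin N) (hi : (i : ℕ) < m) :
    τ i = i := by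
  have h1 : (τ i : ℕ) < m := (lt_of_pres h hτ i).2 hi
  rcases lt_trichotomy (τ i : ℕ) i with h2 | h2 | h2
  · have := L.part_strictAnti h2 hi
    have := he i
    omega
  · exact Fin.ext h2
  · have := L.part_strictAnti h2 h1
    have := he i
    omega

lemma coeff_rename_expo (τ : Equiv.Perm (Fin N)) (L W : SPar n m) :
    coeff (expo N W) (rename τ (monomial (expo N L) (1 : K))) =
      if (∀ i : Fin N, L.part i = W.part (τ i)) then 1 else 0 := by
  rw [rename_monomial, coeff_monomial]
  have : (Finsupp.mapDomain τ (expo N L) = expo N W) ↔ (∀ i : Fin N, L.part i = W.part (τ i)) := by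
    rw [Finsupp.ext_iff]
    constructor
    · intro hh i
      have := hh (τ i)
      rwa [Finsupp.mapDomain_apply τ.injective] at this
    · intro hh i
      have := hh (τ.symm i)
      rw [Equiv.apply_symm_apply] at this
      rw [expo_apply, ← this, ← expo_apply, ← Finsupp.mapDomain_apply τ.injective]
      simp
  simp only [this]

theorem coeff_mono [CharZero K] (h : m ≤ N) (hN : n + m ≤ N) (L W : SPar n m) :
    coeff (expo N W) (mono h L : MvPolynomial (Fin N) K) = if L = W then 1 else 0 := by
  classical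
  rw [mono, mLam_eq, LinearMap.map_smul_of_tower, comp_Psi, coeff_smul, coeff_sum]
  have key : ∀ τ : Equiv.Perm (Fin N),
      coeff (expo N W) (rename τ (monomial (expo N L) (1 : K)) * eps h τ) =
      if L = W ∧ ((∀ i : Fin N, (i : ℕ) < m → τ i = i) ∧ ∀ i : Fin N, L.part (τ i) = L.part i)
        then 1 else 0 := by
    intro τ
    by_cases hτ : Pres h τ
    · obtain ⟨ρ, hρ⟩ := exists_perm h hτ
      rw [eps_perm h hρ]
      have hC : (((Equiv.Perm.sign ρ : ℤ)) : MvPolynomial (Fin N) K) =
          C (((Equiv.Perm.sign ρ : ℤ)) : K) := by simp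
      rw [hC, mul_comm, coeff_C_mul, mul_comm, coeff_rename_expo]
      by_cases he : ∀ i : Fin N, L.part i = W.part (τ i)
      · have hLW := eq_of_pres h hN hτ L W he
        subst hLW
        have hfix := fix_of_part h hτ L he
        have hρ1 : ρ = 1 := by
          ext a
          have h1 := hρ a
          rw [hfix _ (by simp)] at h1
          have := congrArg Fin.val h1
          simpa using this.symm
        rw [if_pos he, if_pos ⟨rfl, hfix, fun i => (he i).symm⟩, hρ1]; simp
      · rw [if_neg he, zero_mul, if_neg]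
        rintro ⟨rfl, _, h3⟩
        exact he (fun i => (h3 i).symm)
    · rw [eps_zero h hτ, mul_zero, coeff_zero, if_neg]
      rintro ⟨_, h2, _⟩
      apply hτ
      intro a
      rw [h2 _ (by simp)]; simp
  rw [Finset.sum_congr rfl (fun τ _ => key τ)]
  by_cases hLW : L = W
  · subst hLW
    simp only [true_and, if_true, smul_eq_mul]
    rw [Finset.sum_boole]
    have hs : (stab N L : K) ≠ 0 := by
      rw [Nat.cast_ne_zero, stab, Finset.card_ne_zero]
      exact ⟨1, by simp⟩
    exact inv_mul_cancel₀ hs
  · simp [hLW]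

/-- antisymmetric in the first `m` variables and symmetric in the others -/
def ASym (m : ℕ) (g : MvPolynomial (Fin N) K) : Prop :=
  (∀ i j : Fin N, i ≠ j → (i : ℕ) < m → (j : ℕ) < m → sw i j g = -g) ∧
  (∀ i j : Fin N, m ≤ (i : ℕ) → m ≤ (j : ℕ) → sw i j g = g)

lemma coeff_sw (i j : Fin N) (g : MvPolynomial (Fin N) K) (e : Fin N →₀ ℕ) :
    coeff (Finsupp.mapDomain (Equiv.swap i j) e) (sw i j g) = coeff e g := by
  rw [sw, coeff_rename_mapDomain _ (Equiv.injective _)]

lemma ASym.sub {m : ℕ} {f g : MvPolynomial (Fin N) K} (hf : ASym m f) (hg : ASym m g) :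
    ASym m (f - g) := by
  refine ⟨fun i j hij hi hj => ?_, fun i j hi hj => ?_⟩
  · rw [map_sub, hf.1 i j hij hi hj, hg.1 i j hij hi hj]; ring
  · rw [map_sub, hf.2 i j hi hj, hg.2 i j hi hj]

lemma ASym.sum {m : ℕ} {ι : Type*} (s : Finset ι) {f : ι → MvPolynomial (Fin N) K}
    (hf : ∀ i ∈ s, ASym m (f i)) : ASym m (∑ i ∈ s, f i) := by
  refine ⟨fun i j hij hi hj => ?_, fun i j hi hj => ?_⟩
  · rw [map_sum, Finset.sum_congr rfl (fun k hk => (hf k hk).1 i j hij hi hj), Finset.sum_neg_distrib]
  · rw [map_sum, Finset.sum_congr rfl (fun k hk => (hf k hk).2 i j hi hj)]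

lemma ASym.smul {m : ℕ} {f : MvPolynomial (Fin N) K} (c : K) (hf : ASym m f) : ASym m (c • f) := by
  refine ⟨fun i j hij hi hj => ?_, fun i j hi hj => ?_⟩
  · rw [map_smul, hf.1 i j hij hi hj, smul_neg]
  · rw [map_smul, hf.2 i j hi hj]

/-- A polynomial of the right symmetry type is determined by its dominant coefficients. -/
theorem eq_zero_of_coeff [CharZero K] (h : m ≤ N) {g : MvPolynomial (Fin N) K} (hg : ASym m g)
    (hdeg : ∀ e, coeff e g ≠ 0 → ∑ i, e i = n)
    (h0 : ∀ L : SPar n m, coeff (expo N L) g = 0) : g = 0 := by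
  classical
  by_contra hne
  -- choose an exponent maximising a statistic
  obtain ⟨e, he, hmax⟩ := Finset.exists_max_image g.support
    (fun e : Fin N →₀ ℕ => ∑ i : Fin N, (N - (i : ℕ)) * e i)
    (by rw [Finset.nonempty_iff_ne_empty]; exact fun hc => hne (support_eq_empty.1 hc))
  have hstep : ∀ (i : ℕ) (hi : i + 1 < N), (i + 1 < m ∨ m ≤ i) → e ⟨i + 1, hi⟩ ≤ e ⟨i, by omega⟩ := by
    intro i hi hcase
    by_contra hlt
    rw [not_le] at hlt
    set a : Fin N := ⟨i, by omega⟩ with ha
    set b : Fin N := ⟨i + 1, hi⟩ with hb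
    have hab : a ≠ b := by intro hc; simpa [ha, hb] using congrArg Fin.val hc
    set e' := Finsupp.mapDomain (Equiv.swap a b) e with he'
    have hs : sw a b g = g ∨ sw a b g = -g := by
      rcases hcase with hc | hc
      · right; exact hg.1 a b hab (by show i < m; omega) hc
      · left; exact hg.2 a b hc (by show m ≤ i + 1; omega)
    have he'g : e' ∈ g.support := by
      rw [mem_support_iff] at he ⊢
      have := coeff_sw a b g e
      rcases hs with hs | hs
      · rw [hs] at this; rw [this]; exact he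
      · rw [hs, coeff_neg] at this
        intro hz
        rw [← he', hz, neg_zero] at this
        exact he this.symm
    have h1 := hmax e' he'g
    have h2 : ∀ k, e' (Equiv.swap a b k) = e k := fun k => by
      rw [he', Finsupp.mapDomain_apply (Equiv.injective _)]
    have h3 : ∑ k : Fin N, (N - (k : ℕ)) * e' k = ∑ k : Fin N, (N - ((Equiv.swap a b k : Fin N) : ℕ)) * e k := by
      rw [← Equiv.sum_comp (Equiv.swap a b)]
      refine Finset.sum_congr rfl fun k _ => ?_
      rw [h2]
    rw [h3] at h1
    have h4 : ∀ F : Fin N → ℕ, ∑ k, F k = F a + (F b + ∑ k ∈ (univ.erase a).erase b, F k) := by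
      intro F
      rw [← Finset.add_sum_erase univ F (mem_univ a), ← Finset.add_sum_erase (univ.erase a) F
        (Finset.mem_erase.2 ⟨hab.symm, mem_univ b⟩)]
    rw [h4, h4 (fun k => (N - (k : ℕ)) * e k)] at h1
    have h5 : ∑ k ∈ (univ.erase a).erase b, (N - ((Equiv.swap a b k : Fin N) : ℕ)) * e k =
        ∑ k ∈ (univ.erase a).erase b, (N - (k : ℕ)) * e k := by
      refine Finset.sum_congr rfl fun k hk => ?_
      rw [Finset.mem_erase, Finset.mem_erase] at hk
      rw [Equiv.swap_apply_of_ne_of_ne hk.2.1 hk.1]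
    rw [h5] at h1
    simp only [Equiv.swap_apply_left, Equiv.swap_apply_right] at h1
    have ha' : (a : ℕ) = i := rfl
    have hb' : (b : ℕ) = i + 1 := rfl
    rw [ha', hb'] at h1
    have h6 : N - i = (N - (i + 1)) + 1 := by omega
    rw [h6] at h1
    nlinarith
  have hstrict : ∀ (i : ℕ) (hi : i + 1 < N), i + 1 < m → e ⟨i + 1, hi⟩ < e ⟨i, by omega⟩ := by
    intro i hi him
    refine lt_of_le_of_ne (hstep i hi (Or.inl him)) ?_
    intro heq
    set a : Fin N := ⟨i, by omega⟩ with ha
    set b : Fin N := ⟨i + 1, hi⟩ with hb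
    have hab : a ≠ b := by intro hc; simpa [ha, hb] using congrArg Fin.val hc
    have hs := hg.1 a b hab (by show i < m; omega) him
    have hfix : Finsupp.mapDomain (Equiv.swap a b) e = e := by
      ext k
      have h2 : Finsupp.mapDomain (Equiv.swap a b) e (Equiv.swap a b (Equiv.swap a b k)) = e (Equiv.swap a b k) := by
        rw [Finsupp.mapDomain_apply (Equiv.injective _)]
      rw [Equiv.swap_apply_self] at h2
      rw [h2]
      by_cases hka : k = a
      · subst hka; rw [Equiv.swap_apply_left, heq]
      · by_cases hkb : k = b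
        · subst hkb; rw [Equiv.swap_apply_right, heq]
        · rw [Equiv.swap_apply_of_ne_of_ne hka hkb]
    have := coeff_sw a b g e
    rw [hfix, hs, coeff_neg] at this
    have h2 : (2 : K) * coeff e g = 0 := by linear_combination -this
    rcases mul_eq_zero.1 h2 with h3 | h3
    · exact absurd h3 two_ne_zero
    · exact (mem_support_iff.1 he) h3
  -- extend to ℕ
  set f : ℕ → ℕ := fun i => if hi : i < N then e ⟨i, hi⟩ else 0 with hf
  have hf1 : ∀ i (hi : i < N), f i = e ⟨i, hi⟩ := fun i hi => by simp [hf, hi]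
  obtain ⟨L, hL⟩ := SPar.exists_of_fun (n := n) h f
    (by
      intro i j hij hj
      induction j, hij using Nat.le_induction with
      | base =>
        rw [hf1 _ (by omega), hf1 _ (by omega)]
        exact hstrict i (by omega) hj
      | succ k hk ih =>
        refine lt_trans ?_ (ih (by omega))
        rw [hf1 _ (by omega), hf1 _ (by omega)]
        exact hstrict k (by omega) hj)
    (by
      intro i j hi hij hj
      induction j, hij using Nat.le_induction with
      | base => exact le_rfl
      | succ k hk ih =>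
        refine le_trans ?_ (ih (by omega))
        rw [hf1 _ (by omega), hf1 _ (by omega)]
        exact hstep k (by omega) (Or.inr (by omega)))
    (by
      rw [← hdeg e (mem_support_iff.1 he), Finset.sum_range]
      refine Finset.sum_congr rfl fun i _ => ?_
      rw [hf1 _ i.2])
  have : expo N L = e := by
    ext i
    rw [expo_apply, hL i i.2, hf1 _ i.2]
  have h2 := h0 L
  rw [this] at h2
  exact (mem_support_iff.1 he) h2

end Pool.Agent.Helper72.Jack
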