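import Mathlib

/-!
# Divided differences on multivariate polynomials
-/

open MvPolynomial

namespace Pool.Agent.Helper72.Jack

variable {σ τ : Type*} [DecidableEq σ] [DecidableEq τ] {K : Type*} [Field K]

/-- exchange of two variables -/
noncomputable def sw (i j : σ) : MvPolynomial σ K →ₐ[K] MvPolynomial σ K :=
  rename (Equiv.swap i j)

@[simp] lemma sw_X (i j k : σ) : sw i j (X k : MvPolynomial σ K) = X (Equiv.swap i j k) := by
  simp [sw]

lemma sw_comm (i j : σ) : (sw i j : MvPolynomial σ K →ₐ[K] MvPolynomial σ K) = sw j i := by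
  simp [sw, Equiv.swap_comm]

@[simp] lemma sw_sw (i j : σ) (f : MvPolynomial σ K) : sw i j (sw i j f) = f := by
  have h : (⇑(Equiv.swap i j) ∘ ⇑(Equiv.swap i j)) = id := by
    funext k; simp
  simp [sw, rename_rename, h]

@[simp] lemma sw_self (i : σ) (f : MvPolynomial σ K) : sw i i f = f := by
  simp [sw]

lemma dvd_sub_sw (i j : σ) (f : MvPolynomial σ K) : (X i - X j) ∣ f - sw i j f := by
  by_cases hij : i = j
  · subst hij; simp
  induction f using MvPolynomial.induction_on with
  | C a => simp [sw]
  | add p q hp hq =>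
    have : p + q - sw i j (p + q) = (p - sw i j p) + (q - sw i j q) := by
      rw [map_add]; ring
    rw [this]; exact dvd_add hp hq
  | mul_X p k hp =>
    have : p * X k - sw i j (p * X k) =
        (p - sw i j p) * X k + sw i j p * (X k - sw i j (X k)) := by
      rw [map_mul]; ring
    rw [this]
    refine dvd_add (hp.mul_right _) (Dvd.dvd.mul_left ?_ _)
    rw [sw_X]
    by_cases hk : k = i
    · subst hk; simp
    · by_cases hk' : k = j
      · subst hk'; simp only [Equiv.swap_apply_right]
        exact ⟨-1, by ring⟩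
      · rw [Equiv.swap_apply_of_ne_of_ne hk hk']; simp

omit [DecidableEq σ] in
lemma X_sub_X_ne_zero {i j : σ} (h : i ≠ j) : (X i - X j : MvPolynomial σ K) ≠ 0 := by
  intro h0
  have := sub_eq_zero.1 h0
  exact h (X_injective this)

/-- divided difference -/
noncomputable def ddFun (i j : σ) (f : MvPolynomial σ K) : MvPolynomial σ K :=
  if i = j then 0 else (dvd_sub_sw i j f).choose

lemma ddFun_spec {i j : σ} (h : i ≠ j) (f : MvPolynomial σ K) :
    (X i - X j) * ddFun i j f = f - sw i j f := by
  rw [ddFun, if_neg h]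
  exact (dvd_sub_sw i j f).choose_spec.symm

lemma ddFun_unique {i j : σ} (h : i ≠ j) {f g : MvPolynomial σ K}
    (hg : (X i - X j) * g = f - sw i j f) : ddFun i j f = g :=
  mul_left_cancel₀ (X_sub_X_ne_zero h) ((ddFun_spec h f).trans hg.symm)

/-- divided difference as a linear map -/
noncomputable def dd (i j : σ) : MvPolynomial σ K →ₗ[K] MvPolynomial σ K where
  toFun := ddFun i j
  map_add' f g := by
    by_cases h : i = j
    · simp [ddFun, h]
    · apply ddFun_unique h
      rw [mul_add, ddFun_spec h, ddFun_spec h, map_add]; ring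
  map_smul' c f := by
    by_cases h : i = j
    · simp [ddFun, h]
    · apply ddFun_unique h
      rw [RingHom.id_apply, mul_smul_comm, ddFun_spec h, map_smul, smul_sub]

lemma dd_spec {i j : σ} (h : i ≠ j) (f : MvPolynomial σ K) :
    (X i - X j) * dd i j f = f - sw i j f := ddFun_spec h f

lemma dd_unique {i j : σ} (h : i ≠ j) {f g : MvPolynomial σ K}
    (hg : (X i - X j) * g = f - sw i j f) : dd i j f = g := ddFun_unique h hg

@[simp] lemma dd_self (i : σ) (f : MvPolynomial σ K) : dd i i f = 0 := by
  show ddFun i i f = 0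
  simp [ddFun]

lemma dd_mul {i j : σ} (f g : MvPolynomial σ K) :
    dd i j (f * g) = dd i j f * g + sw i j f * dd i j g := by
  by_cases h : i = j
  · subst h; simp
  apply dd_unique h
  rw [mul_add, ← mul_assoc, dd_spec h, map_mul]
  have : (X i - X j) * (sw i j f * dd i j g) = sw i j f * ((X i - X j) * dd i j g) := by ring
  rw [this, dd_spec h]; ring

lemma dd_mul_symm {i j : σ} (f g : MvPolynomial σ K) (hg : sw i j g = g) :
    dd i j (f * g) = dd i j f * g := by
  have h1 : dd i j g = 0 := by
    by_cases h : i = j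
    · subst h; simp
    · apply dd_unique h; rw [hg]; simp
  rw [dd_mul, h1]; simp

/-- intertwining of divided differences with algebra maps -/
lemma dd_map {i j : σ} {i' j' : τ} (φ : MvPolynomial σ K →ₐ[K] MvPolynomial τ K)
    (h : i ≠ j) (h' : i' ≠ j') (hi : φ (X i) = X i') (hj : φ (X j) = X j')
    (hsw : ∀ f, φ (sw i j f) = sw i' j' (φ f)) (f : MvPolynomial σ K) :
    φ (dd i j f) = dd i' j' (φ f) := by
  symm
  apply dd_unique h'
  rw [← hi, ← hj, ← map_sub, ← map_mul, dd_spec h, map_sub, hsw]

lemma rename_sw (e : Equiv.Perm σ) (i j : σ) (f : MvPolynomial σ K) :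
    rename e (sw i j f) = sw (e i) (e j) (rename e f) := by
  simp only [sw, rename_rename]
  congr 1
  ext k
  simp [Equiv.swap_apply_apply]

lemma rename_dd (e : Equiv.Perm σ) (i j : σ) (f : MvPolynomial σ K) :
    rename e (dd i j f) = dd (e i) (e j) (rename e f) := by
  by_cases h : i = j
  · subst h; simp
  · exact dd_map (rename e) h (fun h' => h (e.injective h')) (by simp) (by simp)
      (fun f => rename_sw e i j f) f

end Pool.Agent.Helper72.Jack
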