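import Mathlib

/-!
# Superpartitions, symmetric functions in superspace and Jack superpolynomials: definitions
-/

set_option linter.style.longLine false

open MvPolynomial Finset

namespace Pool.Agent.Helper72.Jack

/-- Superpartitions of degree `(n|m)`: a strictly decreasing list `a = (Λ_1 > ... > Λ_m ≥ 0)` of
length `m` and a weakly decreasing list `s = (Λ_{m+1} ≥ ... ≥ Λ_ℓ > 0)`, of total sum `n`. -/
@[ext]
structure SPar (n m : ℕ) where
  /-- the fermionic parts -/
  a : List ℕ
  /-- the bosonic parts -/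
  s : List ℕ
  ha : a.Pairwise (· > ·)
  hm : a.length = m
  hs : s.Pairwise (· ≥ ·)
  hpos : ∀ x ∈ s, 0 < x
  hsum : a.sum + s.sum = n
deriving DecidableEq

namespace SPar

variable {n m : ℕ}

/-- The part of index `i + 1` (zero beyond the length). -/
def part (L : SPar n m) (i : ℕ) : ℕ := (L.a ++ L.s).getD i 0

/-- The rows of `Λ^*`: all parts in decreasing order (possibly with a zero at the end). -/
def star (L : SPar n m) : List ℕ := (L.a ++ L.s).mergeSort (· ≥ ·)

/-- The rows of `Λ^⊛`. -/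
def circ (L : SPar n m) : List ℕ := (L.a.map (· + 1) ++ L.s).mergeSort (· ≥ ·)

/-- Dominance order on superpartitions of the same degree: usual dominance for `Λ^*` and
for `Λ^⊛`. -/
def Dom (W L : SPar n m) : Prop :=
  ∀ k : ℕ, (W.star.take k).sum ≤ (L.star.take k).sum ∧ (W.circ.take k).sum ≤ (L.circ.take k).sum

/-- Row `i` (0-based) of `Λ^*`. -/
def starRow (L : SPar n m) (i : ℕ) : ℕ := L.star.getD i 0

/-- Row `i` (0-based) of `Λ^⊛`. -/
def circRow (L : SPar n m) (i : ℕ) : ℕ := L.circ.getD i 0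

/-- Column `j` (0-based) of `Λ^*`: the number of rows of `Λ^*` of length more than `j`. -/
def starCol (L : SPar n m) (j : ℕ) : ℕ := L.star.countP (fun r => j < r)

/-- The cell `(i, j)` (0-based) carries a circle: it belongs to `Λ^⊛ / Λ^*`. -/
def IsCircle (L : SPar n m) (i j : ℕ) : Prop := L.starRow i ≤ j ∧ j < L.circRow i

/-- The box `(i, j)` of `Λ^*` is in `ℬΛ`: it does not lie in both a row containing a circle and a
column containing a circle. -/
def InB (L : SPar n m) (i j : ℕ) : Prop :=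
  j < L.starRow i ∧ ¬ ((∃ j', L.IsCircle i j') ∧ (∃ i', L.IsCircle i' j))

open Classical in
/-- `v_Λ(α)`: the product over the boxes `(i, j)` of `ℬΛ` (0-based) of
`α a_{Λ^⊛} + l_{Λ^*} + 1`. -/
noncomputable def v {K : Type*} [Field K] (α : K) (L : SPar n m) : K :=
  ∏ i ∈ range (L.star.length), ∏ j ∈ (range (L.starRow i)).filter (fun j => L.InB i j),
    (α * ((L.circRow i : K) - ((j : K) + 1)) + ((L.starCol j : K) - ((i : K) + 1)) + 1)

/-- `z_{Λ^s}` -/
def z (L : SPar n m) : ℕ := ∏ k ∈ L.s.toFinset, k ^ (L.s.count k) * (L.s.count k).factorial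

end SPar

/-- The superspace in `N` variables: the algebra generated over `K` by commuting `x_i` and
anticommuting `θ_i` (which commute with the `x_i`). -/
abbrev Superspace (K : Type*) [Field K] (N : ℕ) :=
  ExteriorAlgebra (MvPolynomial (Fin N) K) (Fin N → MvPolynomial (Fin N) K)

section
variable (K : Type*) [Field K] {n m N : ℕ}

/-- `θ_i` -/
noncomputable def theta (i : Fin N) : Superspace K N :=
  ExteriorAlgebra.ι (MvPolynomial (Fin N) K) (Pi.single i 1)

/-- The number of permutations of `{1, ..., N}` fixing the monomial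
`θ_1 ⋯ θ_m x_1^{Λ_1} ⋯ x_N^{Λ_N}`. -/
def stab (N : ℕ) (L : SPar n m) : ℕ :=
  (univ.filter (fun σ : Equiv.Perm (Fin N) =>
    (∀ i : Fin N, (i : ℕ) < m → σ i = i) ∧ ∀ i : Fin N, L.part (σ i) = L.part i)).card

/-- The monomial symmetric superpolynomial `m_Λ`: the sum of the distinct terms
`σ(θ_1 ⋯ θ_m x_1^{Λ_1} ⋯ x_N^{Λ_N})`. -/
noncomputable def mLam (h : m ≤ N) (L : SPar n m) : Superspace K N :=
  ((stab N L : K)⁻¹) • ∑ σ : Equiv.Perm (Fin N),
    (∏ i : Fin N, (X (σ i) : MvPolynomial (Fin N) K) ^ L.part i) •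
      (List.ofFn (fun i : Fin m => theta K (σ (Fin.castLE h i)))).prod

/-- `p̃_r = ∑ θ_i x_i^r` -/
noncomputable def pTilde (N r : ℕ) : Superspace K N :=
  ∑ i : Fin N, (X i : MvPolynomial (Fin N) K) ^ r • theta K i

/-- `p_s = ∑ x_i^s` -/
noncomputable def pOrd (N s : ℕ) : MvPolynomial (Fin N) K := ∑ i : Fin N, X i ^ s

/-- `p_Λ` -/
noncomputable def pLam (N : ℕ) (L : SPar n m) : Superspace K N :=
  (L.a.map (pTilde K N)).prod * algebraMap _ _ ((L.s.map (pOrd K N)).prod)

end

/-- `B` is the scalar product in degree `(n|m)`. -/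
def IsScalarProduct {K : Type*} [Field K] (α : K) (n m N : ℕ)
    (B : Superspace K N →ₗ[K] Superspace K N →ₗ[K] K) : Prop :=
  ∀ L W : SPar n m, (L = W → B (pLam K N L) (pLam K N W) =
      (-1) ^ (m * (m - 1) / 2) * α ^ (m + L.s.length) * (L.z : K)) ∧
    (L ≠ W → B (pLam K N L) (pLam K N W) = 0)

end Pool.Agent.Helper72.Jack
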