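import Pool.Agent.Helper72.Jack.Comp

/-!
# Expansion in the components of the monomials; the power sums
-/

set_option linter.unusedSectionVars false
set_option linter.unusedSimpArgs false
set_option linter.style.longLine false

open MvPolynomial Finset

namespace Pool.Agent.Helper72.Jack

variable {K : Type*} [Field K] {N m n : ℕ}

lemma eps_const (h : m ≤ N) (τ : Equiv.Perm (Fin N)) :
    ∃ c : ℤ, (eps h τ : MvPolynomial (Fin N) K) = (c : MvPolynomial (Fin N) K) := by
  by_cases hτ : Pres h τ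
  · obtain ⟨ρ, hρ⟩ := exists_perm h hτ
    exact ⟨_, eps_perm h hρ⟩
  · exact ⟨0, by rw [eps_zero h hτ]; simp⟩

lemma eps_swap_B (h : m ≤ N) (i j : Fin N) (hi : m ≤ (i : ℕ)) (hj : m ≤ (j : ℕ))
    (σ : Equiv.Perm (Fin N)) :
    (eps h (Equiv.swap i j * σ) : MvPolynomial (Fin N) K) = eps h σ := by
  rw [eps_eq, eps_eq]
  congr 1
  funext a b
  have hb : Equiv.swap i j (Fin.castLE h b) = Fin.castLE h b := by
    apply Equiv.swap_apply_of_ne_of_ne
    · intro hc; have := congrArg Fin.val hc; simp at this; omega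
    · intro hc; have := congrArg Fin.val hc; simp at this; omega
  rw [Equiv.Perm.mul_apply, Pi.single_apply, Pi.single_apply]
  congr 1
  rw [eq_iff_iff]
  constructor
  · intro hc; rw [← hb, hc, Equiv.swap_apply_self]
  · intro hc; rw [← hc, hb]

lemma eps_swap_F (h : m ≤ N) (i j : Fin m) (hij : i ≠ j) (σ : Equiv.Perm (Fin N)) :
    (eps h (Equiv.swap (Fin.castLE h i) (Fin.castLE h j) * σ) : MvPolynomial (Fin N) K) =
      - eps h σ := by
  rw [eps_eq, eps_eq]
  have h1 : (fun a b : Fin m => (Pi.single ((Equiv.swap (Fin.castLE h i) (Fin.castLE h j) * σ)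
      (Fin.castLE h a)) 1 : Fin N → MvPolynomial (Fin N) K) (Fin.castLE h b)) =
      (Matrix.of (fun a b : Fin m => (Pi.single (σ (Fin.castLE h a)) 1 : Fin N → MvPolynomial (Fin N) K)
        (Fin.castLE h b))).submatrix id (Equiv.swap i j) := by
    funext a b
    have hb : Fin.castLE h (Equiv.swap i j b) = Equiv.swap (Fin.castLE h i) (Fin.castLE h j)
        (Fin.castLE h b) := by
      rcases eq_or_ne b i with rfl | hbi
      · simp
      rcases eq_or_ne b j with rfl | hbj
      · simp
      rw [Equiv.swap_apply_of_ne_of_ne hbi hbj,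
        Equiv.swap_apply_of_ne_of_ne (by simpa using hbi) (by simpa using hbj)]
    rw [Equiv.Perm.mul_apply, Matrix.submatrix_apply, Matrix.of_apply, hb, Pi.single_apply,
      Pi.single_apply]
    congr 1
    rw [eq_iff_iff]
    constructor
    · intro hc; rw [hc, Equiv.swap_apply_self]; rfl
    · intro hc; rw [id_eq] at hc; rw [← hc, Equiv.swap_apply_self]
  rw [h1, Matrix.det_permute']
  rw [Equiv.Perm.sign_swap hij]
  simp
  rfl

lemma ASym_comp_Psi (h : m ≤ N) (u : MvPolynomial (Fin N) K) : ASym m (comp h (Psi h u)) := by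
  have h0 : ∀ (τ σ : Equiv.Perm (Fin N)), rename τ (eps h σ : MvPolynomial (Fin N) K) = eps h σ := by
    intro τ σ
    obtain ⟨c, hc⟩ := eps_const (K := K) h σ
    rw [hc]; simp
  have h1 : ∀ τ : Equiv.Perm (Fin N), rename τ (comp h (Psi h u)) =
      ∑ σ : Equiv.Perm (Fin N), rename σ u * eps h (τ⁻¹ * σ) := by
    intro τ
    rw [comp_Psi, map_sum, ← Equiv.sum_comp (Equiv.mulLeft τ)
      (fun σ : Equiv.Perm (Fin N) => rename σ u * eps h (τ⁻¹ * σ))]
    refine Finset.sum_congr rfl fun σ _ => ?_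
    rw [map_mul, h0, rename_rename]
    simp only [Equiv.coe_mulLeft, inv_mul_cancel_left]
    rfl
  refine ⟨fun i j hij hi hj => ?_, fun i j hi hj => ?_⟩
  · rw [sw, h1, comp_Psi, ← Finset.sum_neg_distrib]
    refine Finset.sum_congr rfl fun σ _ => ?_
    rw [Equiv.swap_inv]
    have := eps_swap_F (K := K) h ⟨i, hi⟩ ⟨j, hj⟩ (by simpa [Fin.ext_iff] using hij) σ
    simp only [Fin.castLE_mk, Fin.eta] at this
    rw [this, mul_neg]
  · rw [sw, h1, comp_Psi]
    refine Finset.sum_congr rfl fun σ _ => ?_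
    rw [Equiv.swap_inv, eps_swap_B h i j hi hj]

lemma ASym_mono (h : m ≤ N) (L : SPar n m) : ASym m (mono h L : MvPolynomial (Fin N) K) := by
  rw [mono, mLam_eq, LinearMap.map_smul_of_tower]
  exact (ASym_comp_Psi h _).smul _

lemma hom_comp_Psi (h : m ≤ N) {u : MvPolynomial (Fin N) K} (hu : u.IsHomogeneous n) :
    (comp h (Psi h u)).IsHomogeneous n := by
  rw [comp_Psi]
  apply IsHomogeneous.sum
  intro σ _
  obtain ⟨c, hc⟩ := eps_const (K := K) h σ
  rw [hc]
  have : ((c : MvPolynomial (Fin N) K)).IsHomogeneous 0 := by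
    have := isHomogeneous_C (Fin N) (c : K)
    simpa using this
  simpa using hu.rename_isHomogeneous.mul this

lemma hom_smul {σ : Type*} {u : MvPolynomial σ K} (c : K) (hu : u.IsHomogeneous n) :
    (c • u).IsHomogeneous n := by
  rw [MvPolynomial.smul_eq_C_mul]; exact hu.C_mul c

lemma degree_expo (hN : n + m ≤ N) (L : SPar n m) : (expo N L).degree = n := by
  rw [Finsupp.degree_eq_sum]
  conv_rhs => rw [← L.sum_part hN, Finset.sum_range]
  rfl

lemma hom_mono (h : m ≤ N) (hN : n + m ≤ N) (L : SPar n m) :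
    (mono h L : MvPolynomial (Fin N) K).IsHomogeneous n := by
  rw [mono, mLam_eq, LinearMap.map_smul_of_tower]
  exact hom_smul _ (hom_comp_Psi h (isHomogeneous_monomial _ (degree_expo hN L)))

lemma sum_eq_of_hom {u : MvPolynomial (Fin N) K} (hu : u.IsHomogeneous n) (e : Fin N →₀ ℕ)
    (he : coeff e u ≠ 0) : ∑ i, e i = n := by
  rw [← Finsupp.degree_eq_sum]
  by_contra hc
  exact he (hu.coeff_eq_zero hc)

/-- expansion in the `mono` basis -/
theorem expand [CharZero K] (h : m ≤ N) (hN : n + m ≤ N) {g : MvPolynomial (Fin N) K}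
    (hg : ASym m g) (hh : g.IsHomogeneous n) :
    g = ∑ L : SPar n m, coeff (expo N L) g • mono h L := by
  rw [← sub_eq_zero]
  have hs : (∑ L : SPar n m, coeff (expo N L) g • mono h L : MvPolynomial (Fin N) K).IsHomogeneous n :=
    IsHomogeneous.sum _ _ _ (fun L _ => hom_smul _ (hom_mono h hN L))
  apply eq_zero_of_coeff (n := n) h
  · exact hg.sub (ASym.sum _ fun L _ => (ASym_mono h L).smul _)
  · exact fun e he => sum_eq_of_hom (hh.sub hs) e he
  · intro W
    rw [coeff_sub, coeff_sum]
    simp only [coeff_smul, coeff_mono h hN, smul_eq_mul, mul_ite, mul_one, mul_zero]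
    rw [Finset.sum_ite_eq', if_pos (mem_univ _), sub_self]

theorem mLam_linearIndependent [CharZero K] (h : m ≤ N) (hN : n + m ≤ N)
    {c : SPar n m → K} (hc : ∑ L, c L • mLam K h L = 0) : c = 0 := by
  have h1 := congrArg (comp h) hc
  rw [map_sum, map_zero] at h1
  funext W
  have h2 := congrArg (coeff (expo N W)) h1
  rw [coeff_sum, coeff_zero] at h2
  simp only [LinearMap.map_smul_of_tower, coeff_smul] at h2
  have h3 : ∀ L : SPar n m, coeff (expo N W) (comp h (mLam K h L)) = if L = W then 1 else 0 :=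
    fun L => coeff_mono h hN L W
  simp only [h3, smul_eq_mul, mul_ite, mul_one, mul_zero] at h2
  rwa [Finset.sum_ite_eq', if_pos (mem_univ _)] at h2

end Pool.Agent.Helper72.Jack
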