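import Pool.Agent.Helper72.Jack.Mixed

/-!
# The scalar product on the mixed model and self-adjointness of the Cherednik operators
-/

set_option linter.unusedSectionVars false
set_option linter.unusedSimpArgs false
set_option linter.style.longLine false

open MvPolynomial Finset

namespace Pool.Agent.Helper72.Jack

variable {K : Type*} [Field K] (α : K)

/-- Cherednik operators on the mixed model -/
noncomputable def XV {M : ℕ} (i : Fin M) : VM K M →ₗ[K] VM K M :=
  DV α i - ∑ j ∈ univ.filter (· < i), (sw (Sum.inl i) (Sum.inl j) : VM K M →ₐ[K] _).toLinearMap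

lemma XV_apply {M : ℕ} (i : Fin M) (f : VM K M) :
    XV α i f = DV α i f - ∑ j ∈ univ.filter (· < i), sw (Sum.inl i) (Sum.inl j) f := by
  simp [XV, LinearMap.sum_apply]

lemma ev_XV {M N : ℕ} (h : M ≤ N) (i : Fin M) (f : VM K M) :
    ev h (XV α i f) = xi α (Fin.castLE h i) (ev h f) := by
  rw [XV_apply, xi_apply, map_sub, ev_DV, map_sum]
  congr 1
  simp only [ev_sw]
  refine Finset.sum_bij (fun j _ => Fin.castLE h j) ?_ ?_ ?_ ?_
  · intro j hj
    simpa using hj
  · intro a _ b _ hab; simpa using hab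
  · intro j hj
    simp only [mem_filter, mem_univ, true_and] at hj
    have : (j : ℕ) < M := lt_of_lt_of_le (Fin.lt_def.1 hj) (by simpa using i.2.le)
    refine ⟨⟨j, this⟩, ?_, by ext; simp⟩
    simp only [mem_filter, mem_univ, true_and]
    exact hj
  · intro j _; rfl

/-- weight factor -/
noncomputable def wf {M : ℕ} (k : Fin M ⊕ ℕ) (n : ℕ) : K :=
  Sum.elim (fun _ => (1 : K)) (fun s : ℕ => (α * ((s : K) + 1)) ^ n * (n.factorial : K)) k

/-- weight of a monomial -/
noncomputable def wt {M : ℕ} (d : Fin M ⊕ ℕ →₀ ℕ) : K := d.prod (fun k n => wf α k n)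

/-- the scalar product on the mixed model -/
noncomputable def form (M : ℕ) : VM K M →ₗ[K] VM K M →ₗ[K] K :=
  (basisMonomials (Fin M ⊕ ℕ) K).constr K (fun d => wt α d • lcoeff K d)

lemma form_monomial_left {M : ℕ} (d : Fin M ⊕ ℕ →₀ ℕ) (g : VM K M) :
    form α M (monomial d 1) g = wt α d * coeff d g := by
  have h := (basisMonomials (Fin M ⊕ ℕ) K).constr_basis K (fun d => wt α d • lcoeff K d) d
  rw [coe_basisMonomials] at h
  rw [form, h]; simp

lemma form_monomial {M : ℕ} (d d' : Fin M ⊕ ℕ →₀ ℕ) :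
    form α M (monomial d 1) (monomial d' 1) = if d = d' then wt α d else 0 := by
  rw [form_monomial_left, coeff_monomial]
  by_cases h : d = d'
  · subst h; simp
  · rw [if_neg h, if_neg (fun h' => h h'.symm)]; simp

lemma form_ext {M : ℕ} {A B : VM K M →ₗ[K] VM K M}
    (h : ∀ d d', form α M (A (monomial d 1)) (monomial d' 1) =
      form α M (monomial d 1) (B (monomial d' 1))) (f g : VM K M) :
    form α M (A f) g = form α M f (B g) := by
  have : (form α M) ∘ₗ A = ((form α M).compl₂ B) := by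
    apply linear_ext
    intro d
    apply linear_ext
    intro d'
    exact h d d'
  exact DFunLike.congr_fun (DFunLike.congr_fun this f) g

lemma form_symm {M : ℕ} (f g : VM K M) : form α M f g = form α M g f := by
  have : form α M = (form α M).flip := by
    apply linear_ext
    intro d
    apply linear_ext
    intro d'
    rw [LinearMap.flip_apply, form_monomial, form_monomial]
    by_cases h : d = d'
    · subst h; simp
    · rw [if_neg h, if_neg (fun h' => h h'.symm)]
  exact DFunLike.congr_fun (DFunLike.congr_fun this f) g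

/-- self-adjoint operators -/
def SA {M : ℕ} (A : VM K M →ₗ[K] VM K M) : Prop :=
  ∀ f g, form α M (A f) g = form α M f (A g)

lemma SA.add {M : ℕ} {A B : VM K M →ₗ[K] VM K M} (hA : SA α A) (hB : SA α B) : SA α (A + B) := by
  intro f g
  simp only [LinearMap.add_apply, map_add, LinearMap.add_apply]
  rw [hA, hB]

lemma SA.sub {M : ℕ} {A B : VM K M →ₗ[K] VM K M} (hA : SA α A) (hB : SA α B) : SA α (A - B) := by
  intro f g
  simp only [LinearMap.sub_apply, map_sub, LinearMap.sub_apply]
  rw [hA, hB]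

lemma SA.neg {M : ℕ} {A : VM K M →ₗ[K] VM K M} (hA : SA α A) : SA α (-A) := by
  intro f g
  simp only [LinearMap.neg_apply, map_neg, LinearMap.neg_apply]
  rw [hA]

lemma SA.sum {M : ℕ} {ι : Type*} (s : Finset ι) {A : ι → VM K M →ₗ[K] VM K M}
    (hA : ∀ i ∈ s, SA α (A i)) : SA α (∑ i ∈ s, A i) := by
  intro f g
  simp only [LinearMap.sum_apply, map_sum, LinearMap.sum_apply]
  exact Finset.sum_congr rfl fun i hi => hA i hi f g

/-! ### The swaps -/

lemma wt_mapDomain {M : ℕ} (i j : Fin M) (d : Fin M ⊕ ℕ →₀ ℕ) :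
    wt α (Finsupp.mapDomain (Equiv.swap (Sum.inl i) (Sum.inl j)) d) = wt α d := by
  rw [wt, wt, Finsupp.prod_mapDomain_index_inj (Equiv.injective _)]
  refine Finsupp.prod_congr fun k _ => ?_
  rcases k with k | s
  · have : ∃ l, Equiv.swap (Sum.inl i) (Sum.inl j) (Sum.inl k : Fin M ⊕ ℕ) = Sum.inl l := by
      rcases eq_or_ne k i with rfl | hki
      · exact ⟨j, by simp⟩
      rcases eq_or_ne k j with rfl | hkj
      · exact ⟨i, by simp⟩
      exact ⟨k, by rw [Equiv.swap_apply_of_ne_of_ne (by simpa using hki) (by simpa using hkj)]⟩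
    obtain ⟨l, hl⟩ := this
    rw [hl]; simp [wf]
  · rw [Equiv.swap_apply_of_ne_of_ne (by simp) (by simp)]

lemma SA_sw {M : ℕ} (i j : Fin M) :
    SA α (sw (Sum.inl i) (Sum.inl j) : VM K M →ₐ[K] _).toLinearMap := by
  intro f g
  apply form_ext
  intro d d'
  simp only [AlgHom.toLinearMap_apply, sw, rename_monomial]
  rw [form_monomial, form_monomial]
  have : (Finsupp.mapDomain (Equiv.swap (Sum.inl i) (Sum.inl j)) d = d') ↔
      (d = Finsupp.mapDomain (Equiv.swap (Sum.inl i) (Sum.inl j)) d') := by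
    have hinv : ∀ e : Fin M ⊕ ℕ →₀ ℕ, Finsupp.mapDomain (Equiv.swap (Sum.inl i) (Sum.inl j))
        (Finsupp.mapDomain (Equiv.swap (Sum.inl i) (Sum.inl j)) e) = e := by
      intro e
      rw [← Finsupp.mapDomain_comp]
      have : (⇑(Equiv.swap (Sum.inl i : Fin M ⊕ ℕ) (Sum.inl j)) ∘ ⇑(Equiv.swap (Sum.inl i) (Sum.inl j))) = id := by
        funext k; simp
      rw [this, Finsupp.mapDomain_id]
    constructor
    · rintro rfl; exact (hinv d).symm
    · rintro rfl; exact hinv d'
  simp only [this, wt_mapDomain]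

/-! ### The pair part -/

lemma er_apply_ne {M : ℕ} {i : Fin M} {k : Fin M ⊕ ℕ} (h : k ≠ Sum.inl i) (d : Fin M ⊕ ℕ →₀ ℕ) :
    er i d k = d k := by
  rw [er, Finsupp.erase_ne h]

lemma er_apply_self {M : ℕ} (i : Fin M) (d : Fin M ⊕ ℕ →₀ ℕ) : er i d (Sum.inl i) = 0 := by
  rw [er, Finsupp.erase_same]

/-- the part of an exponent away from `i` and `j` -/
noncomputable def er2 {M : ℕ} (i j : Fin M) (d : Fin M ⊕ ℕ →₀ ℕ) : Fin M ⊕ ℕ →₀ ℕ := er j (er i d)

lemma monomial_er2 {M : ℕ} {i j : Fin M} (h : i ≠ j) (d : Fin M ⊕ ℕ →₀ ℕ) :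
    (monomial d (1 : K)) = monomial (er2 i j d) 1 * X (Sum.inl i) ^ (d (Sum.inl i)) *
      X (Sum.inl j) ^ (d (Sum.inl j)) := by
  have h1 := monomial_er (K := K) j (er i d)
  rw [er_apply_ne (by simpa using h.symm)] at h1
  rw [monomial_er i d, h1, er2]; ring

lemma sw_er2 {M : ℕ} {i j : Fin M} (h : i ≠ j) (d : Fin M ⊕ ℕ →₀ ℕ) :
    sw (Sum.inl i) (Sum.inl j) (monomial (er2 i j d) (1 : K)) = monomial (er2 i j d) 1 := by
  rw [monomial_eq, C_1, one_mul, Finsupp.prod, map_prod]
  refine Finset.prod_congr rfl ?_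
  intro k hk
  rw [map_pow, sw_X, Equiv.swap_apply_of_ne_of_ne]
  · rintro rfl
    rw [Finsupp.mem_support_iff, er2, er_apply_ne (by simpa using h), er_apply_self] at hk
    exact hk rfl
  · rintro rfl
    rw [Finsupp.mem_support_iff, er2, er_apply_self] at hk
    exact hk rfl

/-- the pair part on monomials -/
lemma pair_monomial {M : ℕ} {i j : Fin M} (h : i ≠ j) (d : Fin M ⊕ ℕ →₀ ℕ) :
    X (Sum.inl j) * dd (Sum.inl i) (Sum.inl j) (monomial d (1 : K)) - WW i j (monomial d 1) =
      - ∑ u ∈ range (d (Sum.inl j)), monomial (er2 i j d) 1 * X (Sum.inl i) ^ u *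
        X (Sum.inl j) ^ (d (Sum.inl i) + d (Sum.inl j) - u) := by
  have hij : (Sum.inl i : Fin M ⊕ ℕ) ≠ Sum.inl j := by simpa using h
  apply mul_left_cancel₀ (X_sub_X_ne_zero (K := K) hij)
  set a := d (Sum.inl i) with ha
  set b := d (Sum.inl j) with hb
  set x : VM K M := X (Sum.inl i) with hx
  set y : VM K M := X (Sum.inl j) with hy
  set r : VM K M := monomial (er2 i j d) 1 with hr
  have hW : WW i j (monomial d (1 : K)) = r * y ^ (b + 1) * ∑ t ∈ range a, y ^ t * x ^ (a - 1 - t) := by
    rw [WW_monomial, Finset.mul_sum]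
    refine Finset.sum_congr rfl fun t _ => ?_
    have h1 := monomial_er (K := K) j (er i d)
    rw [er_apply_ne (by simpa using h.symm)] at h1
    rw [h1, ← ha, ← hx, ← hy, Nat.sub_sub, add_comm 1 t, hr, er2]; ring
  have hU : (∑ u ∈ range b, r * x ^ u * y ^ (a + b - u)) =
      r * y ^ (a + 1) * ∑ u ∈ range b, x ^ u * y ^ (b - 1 - u) := by
    rw [Finset.mul_sum]
    refine Finset.sum_congr rfl fun u hu => ?_
    rw [Finset.mem_range] at hu
    have : a + b - u = a + 1 + (b - 1 - u) := by omega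
    rw [this, pow_add]; ring
  have hd : (x - y) * dd (Sum.inl i) (Sum.inl j) (monomial d (1 : K)) =
      r * x ^ a * y ^ b - r * y ^ a * x ^ b := by
    rw [hx, hy, dd_spec hij, monomial_er2 h d, map_mul, map_mul, map_pow, map_pow, sw_X, sw_X,
      Equiv.swap_apply_left, Equiv.swap_apply_right, sw_er2 h]
  have g1 := geom_sum₂_mul y x a
  have g2 := geom_sum₂_mul x y b
  rw [mul_sub, hW, hU]
  have e1 : (x - y) * (y * dd (Sum.inl i) (Sum.inl j) (monomial d (1 : K))) =
      y * (r * x ^ a * y ^ b - r * y ^ a * x ^ b) := by rw [← hd]; ring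
  rw [e1]
  have e2 : (x - y) * (r * y ^ (b + 1) * ∑ t ∈ range a, y ^ t * x ^ (a - 1 - t)) =
      r * y ^ (b + 1) * (x ^ a - y ^ a) := by
    linear_combination (-(r * y ^ (b + 1))) * g1
  have e3 : (x - y) * (-(r * y ^ (a + 1) * ∑ u ∈ range b, x ^ u * y ^ (b - 1 - u))) =
      - (r * y ^ (a + 1) * (x ^ b - y ^ b)) := by
    linear_combination (-(r * y ^ (a + 1))) * g2
  rw [e2, e3]; ring

/-- exponents of the pair part -/
lemma pair_exp {M : ℕ} {i j : Fin M} (h : i ≠ j) (d d' : Fin M ⊕ ℕ →₀ ℕ) {u : ℕ}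
    (hu : u < d (Sum.inl j)) :
    (er2 i j d + Finsupp.single (Sum.inl i) u +
      Finsupp.single (Sum.inl j) (d (Sum.inl i) + d (Sum.inl j) - u) = d') ↔
    (u = d' (Sum.inl i) ∧ (er2 i j d = er2 i j d' ∧
      d (Sum.inl i) + d (Sum.inl j) = d' (Sum.inl i) + d' (Sum.inl j))) := by
  have hij : (Sum.inl i : Fin M ⊕ ℕ) ≠ Sum.inl j := by simpa using h
  constructor
  · rintro rfl
    have hi : (er2 i j d + Finsupp.single (Sum.inl i) u +
      Finsupp.single (Sum.inl j) (d (Sum.inl i) + d (Sum.inl j) - u) : Fin M ⊕ ℕ →₀ ℕ) (Sum.inl i) = u := by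
      rw [Finsupp.add_apply, Finsupp.add_apply, Finsupp.single_eq_same,
        Finsupp.single_eq_of_ne hij, er2, er_apply_ne hij, er_apply_self]; simp
    have hj : (er2 i j d + Finsupp.single (Sum.inl i) u +
      Finsupp.single (Sum.inl j) (d (Sum.inl i) + d (Sum.inl j) - u) : Fin M ⊕ ℕ →₀ ℕ) (Sum.inl j) =
        d (Sum.inl i) + d (Sum.inl j) - u := by
      rw [Finsupp.add_apply, Finsupp.add_apply, Finsupp.single_eq_same,
        Finsupp.single_eq_of_ne hij.symm, er2, er_apply_self]; simp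
    refine ⟨hi.symm, ?_, ?_⟩
    · ext k
      by_cases hkj : k = Sum.inl j
      · subst hkj; rw [er2, er2, er_apply_self, er_apply_self]
      by_cases hki : k = Sum.inl i
      · subst hki; rw [er2, er2, er_apply_ne hij, er_apply_ne hij, er_apply_self, er_apply_self]
      · rw [er2, er2, er_apply_ne hkj, er_apply_ne hkj, er_apply_ne hki, er_apply_ne hki,
          Finsupp.add_apply, Finsupp.add_apply, Finsupp.single_eq_of_ne hki,
          Finsupp.single_eq_of_ne hkj, er_apply_ne hkj, er_apply_ne hki]; simp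
    · rw [hi, hj]; omega
  · rintro ⟨hu', he, hs⟩
    ext k
    rw [Finsupp.add_apply, Finsupp.add_apply, he]
    by_cases hkj : k = Sum.inl j
    · subst hkj
      rw [Finsupp.single_eq_same, Finsupp.single_eq_of_ne hij.symm, er2, er_apply_self]
      omega
    by_cases hki : k = Sum.inl i
    · subst hki
      rw [Finsupp.single_eq_same, Finsupp.single_eq_of_ne hij, er2, er_apply_ne hij, er_apply_self]
      omega
    · rw [er2, er_apply_ne hkj, er_apply_ne hki,
          Finsupp.single_eq_of_ne hki, Finsupp.single_eq_of_ne hkj]; simp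

lemma wt_er2 {M : ℕ} {i j : Fin M} (h : i ≠ j) (d : Fin M ⊕ ℕ →₀ ℕ) :
    wt α (er2 i j d) = wt α d := by
  have h1 : ∀ (k : Fin M) (e : Fin M ⊕ ℕ →₀ ℕ), wt α (er k e) = wt α e := by
    intro k e
    conv_rhs => rw [wt, ← Finsupp.erase_add_single (Sum.inl k) e]
    rw [wt, er]
    by_cases hk : e (Sum.inl k) = 0
    · rw [hk]; simp
    · rw [Finsupp.prod_add_index_of_disjoint]
      · rw [Finsupp.prod_single_index (by simp [wf])]
        simp [wf]
      · rw [Finsupp.support_single_ne_zero _ hk, Finset.disjoint_singleton_right]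
        simp
  rw [er2, h1, h1]

lemma form_pair {M : ℕ} {i j : Fin M} (h : i ≠ j) (d d' : Fin M ⊕ ℕ →₀ ℕ) :
    form α M (X (Sum.inl j) * dd (Sum.inl i) (Sum.inl j) (monomial d (1 : K)) - WW i j (monomial d 1))
      (monomial d' 1) = if (d' (Sum.inl i) < d (Sum.inl j) ∧ er2 i j d = er2 i j d' ∧
      d (Sum.inl i) + d (Sum.inl j) = d' (Sum.inl i) + d' (Sum.inl j)) then - wt α d' else 0 := by
  rw [pair_monomial h, map_neg, LinearMap.neg_apply, map_sum, LinearMap.sum_apply]
  have e1 : ∀ u ∈ range (d (Sum.inl j)), form α M (monomial (er2 i j d) 1 * X (Sum.inl i) ^ u *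
        X (Sum.inl j) ^ (d (Sum.inl i) + d (Sum.inl j) - u)) (monomial d' 1) =
        if u = d' (Sum.inl i) then (if (er2 i j d = er2 i j d' ∧
      d (Sum.inl i) + d (Sum.inl j) = d' (Sum.inl i) + d' (Sum.inl j)) then wt α d' else 0) else 0 := by
    intro u hu
    rw [Finset.mem_range] at hu
    rw [X_pow_eq_monomial, X_pow_eq_monomial, monomial_mul, monomial_mul, mul_one, mul_one,
      form_monomial]
    by_cases hc : u = d' (Sum.inl i) ∧ (er2 i j d = er2 i j d' ∧
      d (Sum.inl i) + d (Sum.inl j) = d' (Sum.inl i) + d' (Sum.inl j))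
    · have hc' := (pair_exp h d d' hu).2 hc
      rw [if_pos hc', if_pos hc.1, if_pos hc.2, hc']
    · have hc' := fun hh => hc ((pair_exp h d d' hu).1 hh)
      rw [if_neg hc']
      by_cases h1 : u = d' (Sum.inl i)
      · rw [if_pos h1, if_neg (fun h2 => hc ⟨h1, h2⟩)]
      · rw [if_neg h1]
  rw [Finset.sum_congr rfl e1, Finset.sum_ite_eq']
  by_cases h1 : d' (Sum.inl i) < d (Sum.inl j)
  · rw [if_pos (Finset.mem_range.2 h1)]
    by_cases h2 : (er2 i j d = er2 i j d' ∧
      d (Sum.inl i) + d (Sum.inl j) = d' (Sum.inl i) + d' (Sum.inl j))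
    · rw [if_pos h2, if_pos ⟨h1, h2⟩]
    · rw [if_neg h2, if_neg (fun h3 => h2 h3.2)]; simp
  · rw [if_neg (fun h2 => h1 (Finset.mem_range.1 h2)), if_neg (fun h3 => h1 h3.1)]; simp

lemma SA_pair {M : ℕ} (i j : Fin M) :
    SA α (LinearMap.mulLeft K (X (Sum.inl j)) ∘ₗ dd (Sum.inl i) (Sum.inl j) - WW i j :
      VM K M →ₗ[K] VM K M) := by
  intro f g
  apply form_ext
  intro d d'
  simp only [LinearMap.sub_apply, LinearMap.comp_apply, LinearMap.mulLeft_apply]
  by_cases h : i = j
  · subst h
    simp only [dd_self, mul_zero, zero_sub]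
    have hW : ∀ e : Fin M ⊕ ℕ →₀ ℕ, WW i i (monomial e (1 : K)) = (e (Sum.inl i) : K) • monomial e 1 := by
      intro e
      rw [WW_monomial]
      rw [Finset.sum_congr rfl (g := fun _ => monomial e (1 : K))]
      · rw [Finset.sum_const, Finset.card_range, Nat.cast_smul_eq_nsmul]
      · intro t ht
        rw [Finset.mem_range] at ht
        rw [mul_assoc, ← pow_add]
        have : e (Sum.inl i) - (t + 1) + (t + 1) = e (Sum.inl i) := by omega
        rw [this, ← monomial_er]
    rw [hW, hW, map_neg, map_neg, LinearMap.neg_apply, map_smul, map_smul, LinearMap.smul_apply,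
      form_monomial]
    by_cases hd : d = d'
    · subst hd; rfl
    · rw [if_neg hd]; simp
  · rw [form_pair α h, form_symm, form_pair α h]
    by_cases hc : (d' (Sum.inl i) < d (Sum.inl j) ∧ er2 i j d = er2 i j d' ∧
      d (Sum.inl i) + d (Sum.inl j) = d' (Sum.inl i) + d' (Sum.inl j))
    · rw [if_pos hc, if_pos ⟨by omega, hc.2.1.symm, hc.2.2.symm⟩, ← wt_er2 α h d, ← wt_er2 α h d',
        hc.2.1]
    · rw [if_neg hc, if_neg]
      rintro ⟨h1, h2, h3⟩
      exact hc ⟨by omega, h2.symm, h3.symm⟩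

/-! ### The power sum part -/

/-- bound for the indices of power sums -/
def Bd {M : ℕ} (T : ℕ) (d : Fin M ⊕ ℕ →₀ ℕ) : Prop := ∀ s, T ≤ s → d (Sum.inr s) = 0

lemma exists_Bd {M : ℕ} (d : Fin M ⊕ ℕ →₀ ℕ) : ∃ T, ∀ T', T ≤ T' → Bd T' d := by
  refine ⟨(d.support.sup (Sum.elim (fun _ => 0) (fun s => s + 1))), fun T' hT s hs => ?_⟩
  by_contra hd
  have : Sum.inr s ∈ d.support := by simpa using hd
  have := Finset.le_sup (f := (Sum.elim (fun _ => 0) (fun s => s + 1) : Fin M ⊕ ℕ → ℕ)) this
  simp only [Sum.elim_inr] at this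
  omega

lemma support_subset_of_Bd {M T : ℕ} {d : Fin M ⊕ ℕ →₀ ℕ} (h : Bd T d) :
    d.support ⊆ (univ : Finset (Fin M)).disjSum (range T) := by
  rintro (k | s) hk
  · simp
  · rw [Finset.inr_mem_disjSum, Finset.mem_range]
    by_contra hs
    exact (Finsupp.mem_support_iff.1 hk) (h s (not_lt.1 hs))

lemma wt_eq {M T : ℕ} {d : Fin M ⊕ ℕ →₀ ℕ} (h : Bd T d) :
    wt α d = ∏ s ∈ range T, ((α * ((s : K) + 1)) ^ d (Sum.inr s) * ((d (Sum.inr s)).factorial : K)) := by
  rw [wt, Finsupp.prod_of_support_subset _ (support_subset_of_Bd h)]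
  · rw [Finset.prod_disjSum]; simp [wf]
  · rintro (k | s) _ <;> simp [wf]

lemma wt_add_inr {M : ℕ} (e : Fin M ⊕ ℕ →₀ ℕ) (t : ℕ) :
    wt α (e + Finsupp.single (Sum.inr t) 1) =
      α * ((t : K) + 1) * ((e (Sum.inr t) : K) + 1) * wt α e := by
  obtain ⟨T1, h1⟩ := exists_Bd e
  obtain ⟨T2, h2⟩ := exists_Bd (e + Finsupp.single (Sum.inr t) 1)
  have hT1 := h1 (T1 + T2 + t + 1) (by omega)
  have hT2 := h2 (T1 + T2 + t + 1) (by omega)
  rw [wt_eq α hT1, wt_eq α hT2]
  have ht : t ∈ range (T1 + T2 + t + 1) := by rw [Finset.mem_range]; omega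
  rw [← Finset.mul_prod_erase _ _ ht, ← Finset.mul_prod_erase (range (T1 + T2 + t + 1)) _ ht]
  have he : ∏ x ∈ (range (T1 + T2 + t + 1)).erase t,
      ((α * ((x : K) + 1)) ^ ((e + Finsupp.single (Sum.inr t) 1 : Fin M ⊕ ℕ →₀ ℕ) (Sum.inr x)) *
        (((e + Finsupp.single (Sum.inr t) 1 : Fin M ⊕ ℕ →₀ ℕ) (Sum.inr x)).factorial : K)) =
      ∏ x ∈ (range (T1 + T2 + t + 1)).erase t,
      ((α * ((x : K) + 1)) ^ e (Sum.inr x) * ((e (Sum.inr x)).factorial : K)) := by
    refine Finset.prod_congr rfl fun x hx => ?_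
    have hne : (Sum.inr x : Fin M ⊕ ℕ) ≠ Sum.inr t := by
      intro hc; exact (Finset.mem_erase.1 hx).1 (Sum.inr_injective hc)
    rw [Finsupp.add_apply, Finsupp.single_eq_of_ne hne, add_zero]
  rw [he, Finsupp.add_apply, Finsupp.single_eq_same, pow_succ, Nat.factorial_succ]
  push_cast
  ring

lemma wt_add_inl {M : ℕ} (e : Fin M ⊕ ℕ →₀ ℕ) (i : Fin M) (n : ℕ) :
    wt α (e + Finsupp.single (Sum.inl i) n) = wt α e := by
  obtain ⟨T1, h1⟩ := exists_Bd e
  obtain ⟨T2, h2⟩ := exists_Bd (e + Finsupp.single (Sum.inl i) n)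
  rw [wt_eq α (h1 (T1 + T2) (by omega)), wt_eq α (h2 (T1 + T2) (by omega))]
  refine Finset.prod_congr rfl fun x _ => ?_
  rw [Finsupp.add_apply, Finsupp.single_eq_of_ne (by simp), add_zero]

lemma eul_monomial {M T : ℕ} (i : Fin M) {d : Fin M ⊕ ℕ →₀ ℕ} (h : Bd T d) :
    eul i (monomial d (1 : K)) = (d (Sum.inl i) : K) • monomial d 1 +
      ∑ s ∈ range T, ((d (Sum.inr s) : K) * ((s : K) + 1)) •
        monomial (d - Finsupp.single (Sum.inr s) 1 + Finsupp.single (Sum.inl i) (s + 1)) 1 := by
  rw [eul, mkDerivation_monomial, one_smul,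
    Finsupp.sum_of_support_subset _ (support_subset_of_Bd h) _ (by simp), Finset.sum_disjSum]
  congr 1
  · rw [Finset.sum_eq_single i]
    · simp only [Sum.elim_inl, if_true, smul_eq_mul]
      by_cases hd : d (Sum.inl i) = 0
      · rw [hd]; simp
      · rw [X, monomial_mul, smul_monomial, tsub_add_cancel_of_le]
        · simp
        · rw [Finsupp.single_le_iff]; omega
    · intro j _ hj
      simp only [Sum.elim_inl, if_neg hj, smul_zero]
    · intro hh; exact absurd (Finset.mem_univ _) hh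
  · refine Finset.sum_congr rfl fun s _ => ?_
    simp only [Sum.elim_inr, smul_eq_mul]
    rw [X_pow_eq_monomial, mul_smul_comm, monomial_mul, smul_monomial, smul_monomial]
    simp [mul_comm]

lemma form_eulQ {M T : ℕ} (i : Fin M) {d d' : Fin M ⊕ ℕ →₀ ℕ} (h : Bd T d) (h' : Bd T d') :
    form α M (α • eul i (monomial d (1 : K)) + QQ i (monomial d 1)) (monomial d' 1) =
      (if d = d' then α * (d (Sum.inl i) : K) * wt α d else 0) +
      (∑ s ∈ range T, if (1 ≤ d (Sum.inr s) ∧
        d - Finsupp.single (Sum.inr s) 1 + Finsupp.single (Sum.inl i) (s + 1) = d') then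
          wt α d else 0) +
      ∑ s ∈ range T, if (1 ≤ d' (Sum.inr s) ∧
        d' - Finsupp.single (Sum.inr s) 1 + Finsupp.single (Sum.inl i) (s + 1) = d) then
          wt α d' else 0 := by
  rw [map_add, LinearMap.add_apply, eul_monomial i h, smul_add, map_add, LinearMap.add_apply]
  congr 1
  · congr 1
    · rw [map_smul, map_smul, LinearMap.smul_apply, LinearMap.smul_apply, form_monomial]
      by_cases hd : d = d'
      · subst hd; simp [mul_assoc]
      · simp [hd]
    · rw [Finset.smul_sum, map_sum, LinearMap.sum_apply]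
      refine Finset.sum_congr rfl fun s _ => ?_
      rw [map_smul, map_smul, LinearMap.smul_apply, LinearMap.smul_apply, form_monomial]
      by_cases hd : d (Sum.inr s) = 0
      · rw [if_neg (by omega : ¬ (1 ≤ d (Sum.inr s) ∧ _)), hd]; simp
      · by_cases hc : d - Finsupp.single (Sum.inr s) 1 + Finsupp.single (Sum.inl i) (s + 1) = d'
        · rw [if_pos hc, if_pos ⟨by omega, hc⟩]
          have h1 : wt α d = α * ((s : K) + 1) * (d (Sum.inr s) : K) *
              wt α (d - Finsupp.single (Sum.inr s) 1) := by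
            have h2 : d = d - Finsupp.single (Sum.inr s) 1 + Finsupp.single (Sum.inr s) 1 := by
              rw [tsub_add_cancel_of_le]
              rw [Finsupp.single_le_iff]; omega
            conv_lhs => rw [h2]
            rw [wt_add_inr]
            have h3 : ((d - Finsupp.single (Sum.inr s) 1 : Fin M ⊕ ℕ →₀ ℕ) (Sum.inr s) : K) + 1 =
                (d (Sum.inr s) : K) := by
              rw [Finsupp.tsub_apply, Finsupp.single_eq_same]
              have : d (Sum.inr s) = (d (Sum.inr s) - 1) + 1 := by omega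
              conv_rhs => rw [this]
              push_cast; rfl
            rw [h3]
          rw [h1, wt_add_inl]
          simp only [smul_eq_mul]; ring
        · rw [if_neg hc, if_neg (fun h2 => hc h2.2)]; simp
  · -- the `QQ` part
    have hQ : QQ i (monomial d (1 : K)) = ∑ t ∈ range (d (Sum.inl i)),
        monomial (er i d + Finsupp.single (Sum.inl i) (d (Sum.inl i) - (t + 1))
      + Finsupp.single (Sum.inr t) 1) 1 := by
      rw [QQ_monomial]
      refine Finset.sum_congr rfl fun t _ => ?_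
      rw [X_pow_eq_monomial, X, monomial_mul, monomial_mul]; simp
    rw [hQ, map_sum, LinearMap.sum_apply]
    set S := range (T + d (Sum.inl i)) with hS
    have key : ∀ t, t < d (Sum.inl i) →
        ((er i d + Finsupp.single (Sum.inl i) (d (Sum.inl i) - (t + 1))
          + Finsupp.single (Sum.inr t) 1 = d') ↔ (1 ≤ d' (Sum.inr t) ∧
        d' - Finsupp.single (Sum.inr t) 1 + Finsupp.single (Sum.inl i) (t + 1) = d)) := by
      intro t ht
      constructor
      · rintro rfl
        refine ⟨by rw [Finsupp.add_apply, Finsupp.single_eq_same]; omega, ?_⟩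
        rw [add_tsub_cancel_right, add_assoc, ← Finsupp.single_add]
        have : d (Sum.inl i) - (t + 1) + (t + 1) = d (Sum.inl i) := by omega
        rw [this, er, Finsupp.erase_add_single]
      · rintro ⟨h1, h2⟩
        have h3 : d (Sum.inl i) = d' (Sum.inl i) + (t + 1) := by
          rw [← h2, Finsupp.add_apply, Finsupp.single_eq_same, Finsupp.tsub_apply,
            Finsupp.single_eq_of_ne (by simp)]; simp
        have h4 : er i d + Finsupp.single (Sum.inl i) (d (Sum.inl i) - (t + 1)) =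
            d' - Finsupp.single (Sum.inr t) 1 := by
          ext k
          by_cases hk : k = Sum.inl i
          · subst hk
            rw [Finsupp.add_apply, er_apply_self, Finsupp.single_eq_same, Finsupp.tsub_apply,
              Finsupp.single_eq_of_ne (by simp)]
            omega
          · rw [Finsupp.add_apply, er_apply_ne hk, Finsupp.single_eq_of_ne hk, ← h2,
              Finsupp.add_apply, Finsupp.single_eq_of_ne hk]
            simp
        rw [h4, tsub_add_cancel_of_le]
        rw [Finsupp.single_le_iff]; exact h1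
    have e1 : ∑ t ∈ range (d (Sum.inl i)), form α M (monomial (er i d +
        Finsupp.single (Sum.inl i) (d (Sum.inl i) - (t + 1))
          + Finsupp.single (Sum.inr t) 1) 1) (monomial d' 1) =
        ∑ s ∈ S, if (1 ≤ d' (Sum.inr s) ∧
        d' - Finsupp.single (Sum.inr s) 1 + Finsupp.single (Sum.inl i) (s + 1) = d) then
          wt α d' else 0 := by
      rw [← Finset.sum_subset (s₁ := range (d (Sum.inl i))) (s₂ := S)]
      · refine Finset.sum_congr rfl fun t ht => ?_
        rw [form_monomial]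
        have hk := key t (Finset.mem_range.1 ht)
        by_cases hc : (1 ≤ d' (Sum.inr t) ∧
          d' - Finsupp.single (Sum.inr t) 1 + Finsupp.single (Sum.inl i) (t + 1) = d)
        · rw [if_pos hc, if_pos (hk.2 hc), hk.2 hc]
        · rw [if_neg hc, if_neg (fun h2 => hc (hk.1 h2))]
      · intro t ht
        rw [Finset.mem_range] at ht ⊢
        omega
      · intro t _ ht
        rw [if_neg]
        rintro ⟨h1, h2⟩
        apply ht
        rw [Finset.mem_range, ← h2, Finsupp.add_apply, Finsupp.single_eq_same]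
        omega
    rw [e1]
    symm
    apply Finset.sum_subset
    · intro t ht
      rw [Finset.mem_range] at ht ⊢
      omega
    · intro t _ ht
      rw [if_neg]
      rintro ⟨h1, _⟩
      rw [Finset.mem_range, not_lt] at ht
      rw [h' t ht] at h1
      omega

lemma SA_eulQ {M : ℕ} (i : Fin M) :
    SA α (α • (eul i).toLinearMap + QQ i : VM K M →ₗ[K] VM K M) := by
  intro f g
  apply form_ext
  intro d d'
  simp only [LinearMap.add_apply, LinearMap.smul_apply, Derivation.coeFn_coe]
  obtain ⟨T1, h1⟩ := exists_Bd d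
  obtain ⟨T2, h2⟩ := exists_Bd d'
  have hT1 := h1 (T1 + T2) (by omega)
  have hT2 := h2 (T1 + T2) (by omega)
  rw [form_eulQ α i hT1 hT2, form_symm, form_eulQ α i hT2 hT1]
  have : (if d = d' then α * (d (Sum.inl i) : K) * wt α d else 0) =
      (if d' = d then α * (d' (Sum.inl i) : K) * wt α d' else 0) := by
    by_cases h : d = d'
    · subst h; rfl
    · rw [if_neg h, if_neg (fun h' => h h'.symm)]
  rw [this]; ring

theorem SA_XV {M : ℕ} (i : Fin M) : SA α (XV α i : VM K M →ₗ[K] VM K M) := by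
  rw [XV, DV]
  apply SA.sub
  · apply SA.add
    · exact SA_eulQ α i
    · exact SA.sum α _ fun j _ => SA_pair α i j
  · exact SA.sum α _ fun j _ => SA_sw α i j

end Pool.Agent.Helper72.Jack
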