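import Pool.Agent.Helper72.Jack.Form

/-!
# Injectivity of the evaluation of the mixed model in low degree
-/

set_option linter.unusedSectionVars false
set_option linter.unusedSimpArgs false
set_option linter.style.longLine false

open MvPolynomial Finset

namespace Pool.Agent.Helper72.Jack

variable {K : Type*} [Field K]

lemma coeff_pderiv' {σ : Type*} [DecidableEq σ] (i : σ) (f : MvPolynomial σ K) (d : σ →₀ ℕ) :
    coeff d (pderiv i f) = coeff (d + Finsupp.single i 1) f * ((d i : K) + 1) := by
  induction f using MvPolynomial.induction_on' with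
  | monomial e a =>
    rw [pderiv_monomial, coeff_monomial, coeff_monomial]
    by_cases he : e = d + Finsupp.single i 1
    · subst he
      rw [if_pos (add_tsub_cancel_right _ _), if_pos rfl, Finsupp.add_apply, Finsupp.single_eq_same]
      push_cast; ring
    · rw [if_neg he, zero_mul]
      by_cases h0 : e i = 0
      · rw [h0]; simp
      · rw [if_neg]
        intro hd
        apply he
        rw [← hd, tsub_add_cancel_of_le]
        rw [Finsupp.single_le_iff]; omega
  | add p q hp hq => rw [map_add, coeff_add, coeff_add, hp, hq]; ring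

lemma chain_rule {M N : ℕ} (h : M ≤ N) (j : Fin N) (hj : M ≤ j) (F : VM K M) :
    ∃ T, ∀ T', T ≤ T' → pderiv j (ev h F) =
      ∑ s ∈ range T', ((s : K) + 1) • (X j ^ s * ev h (pderiv (Sum.inr s) F)) := by
  induction F using MvPolynomial.induction_on with
  | C a => exact ⟨0, fun T' _ => by simp⟩
  | add p q hp hq =>
    obtain ⟨T1, h1⟩ := hp
    obtain ⟨T2, h2⟩ := hq
    refine ⟨T1 + T2, fun T' hT => ?_⟩
    rw [map_add, map_add, h1 T' (by omega), h2 T' (by omega), ← Finset.sum_add_distrib]
    refine Finset.sum_congr rfl fun s _ => ?_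
    rw [map_add, map_add, mul_add, smul_add]
  | mul_X p k hp =>
    obtain ⟨T1, h1⟩ := hp
    rcases k with k | t
    · refine ⟨T1, fun T' hT => ?_⟩
      have hne : Fin.castLE h k ≠ j := by
        intro hc
        have := congrArg Fin.val hc
        simp at this
        omega
      rw [map_mul, ev_X_inl, Derivation.leibniz, pderiv_X_of_ne hne, h1 T' hT, smul_zero, zero_add,
        smul_eq_mul, Finset.mul_sum]
      refine Finset.sum_congr rfl fun s _ => ?_
      rw [Derivation.leibniz, pderiv_X_of_ne (by simp : (Sum.inl k : Fin M ⊕ ℕ) ≠ Sum.inr s),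
        smul_zero, zero_add, smul_eq_mul, map_mul, ev_X_inl, mul_smul_comm]
      congr 1
      ring
    · refine ⟨T1 + t + 1, fun T' hT => ?_⟩
      have hps : pderiv j (ev h (X (Sum.inr t) : VM K M)) = ((t : K) + 1) • X j ^ t := by
        rw [ev_X_inr, map_sum, Finset.sum_eq_single j]
        · rw [Derivation.leibniz_pow, pderiv_X_self]
          simp only [add_tsub_cancel_right, smul_eq_mul, mul_one, nsmul_eq_mul]
          rw [MvPolynomial.smul_eq_C_mul]
          simp
        · intro l _ hl
          rw [Derivation.leibniz_pow, pderiv_X_of_ne hl]; simp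
        · intro hh; exact absurd (Finset.mem_univ _) hh
      rw [map_mul, Derivation.leibniz, hps, h1 T' (by omega), smul_eq_mul, smul_eq_mul]
      have : ∀ s ∈ range T', ((s : K) + 1) • (X j ^ s * ev h (pderiv (Sum.inr s) (p * X (Sum.inr t)))) =
          ev h (X (Sum.inr t)) * (((s : K) + 1) • (X j ^ s * ev h (pderiv (Sum.inr s) p))) +
          (if s = t then ev h p * (((t : K) + 1) • X j ^ t) else 0) := by
        intro s _
        rw [Derivation.leibniz, smul_eq_mul, smul_eq_mul, map_add, map_mul, map_mul]
        by_cases hst : s = t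
        · subst hst
          rw [pderiv_X_self, if_pos rfl, map_one, mul_one, mul_add, smul_add, mul_smul_comm,
            mul_smul_comm, add_comm]
          congr 2
          · ring
          · ring
        · rw [pderiv_X_of_ne (by simpa using fun hc => hst hc.symm : (Sum.inr t : Fin M ⊕ ℕ) ≠ Sum.inr s),
            if_neg hst, map_zero, mul_zero, zero_add, add_zero, mul_smul_comm]
          congr 1
          ring
      rw [Finset.sum_congr rfl this, Finset.sum_add_distrib, Finset.sum_ite_eq',
        if_pos (Finset.mem_range.2 (by omega)), Finset.mul_sum]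
      ring

/-- polynomials of the mixed model which only involve the first `n` power sums -/
def BdP {M : ℕ} (n : ℕ) (F : VM K M) : Prop := ∀ d, coeff d F ≠ 0 → Bd n d

lemma inj_base {M N : ℕ} (h : M ≤ N) (F : VM K M) (hF : BdP 0 F) (h0 : ev h F = 0) : F = 0 := by
  set ρ : MvPolynomial (Fin N) K →ₐ[K] VM K M :=
    aeval (fun j => if hj : (j : ℕ) < M then X (Sum.inl ⟨j, hj⟩) else 0) with hρ
  have h1 : ρ (ev h F) = F := by
    have h2 : ∀ d : Fin M ⊕ ℕ →₀ ℕ, Bd 0 d → ρ (ev h (monomial d 1)) = monomial d 1 := by
      intro d hd
      rw [monomial_eq, C_1, one_mul, Finsupp.prod, map_prod, map_prod]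
      refine Finset.prod_congr rfl ?_
      rintro (k | s) hk
      · rw [map_pow, map_pow, ev_X_inl, hρ, aeval_X]
        simp
      · exact absurd (hd s (Nat.zero_le _)) (Finsupp.mem_support_iff.1 hk)
    conv_lhs => rw [F.as_sum]
    conv_rhs => rw [F.as_sum]
    rw [map_sum, map_sum]
    refine Finset.sum_congr rfl fun d hd => ?_
    have : monomial d (coeff d F) = coeff d F • monomial d (1 : K) := by
      rw [smul_monomial]; simp
    rw [this, map_smul, map_smul, h2 d (hF d (mem_support_iff.1 hd))]
  rw [← h1, h0, map_zero]

theorem ev_injective {M N n : ℕ} [CharZero K] (h : M ≤ N) (hN : M + n ≤ N) (F : VM K M)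
    (hF : BdP n F) (h0 : ev h F = 0) : F = 0 := by
  suffices H : ∀ D, ∀ F : VM K M, BdP n F → (∀ d, coeff d F ≠ 0 →
      ∑ s ∈ range n, d (Sum.inr s) ≤ D) → ev h F = 0 → F = 0 by
    refine H (F.support.sup (fun d => ∑ s ∈ range n, d (Sum.inr s))) F hF ?_ h0
    intro d hd
    exact Finset.le_sup (f := fun d : Fin M ⊕ ℕ →₀ ℕ => ∑ s ∈ range n, d (Sum.inr s))
      (mem_support_iff.2 hd)
  intro D
  induction D with
  | zero =>
    intro F hF hD h0
    refine inj_base h F ?_ h0
    intro d hd s _
    by_cases hs : s < n
    · have := hD d hd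
      rw [Nat.le_zero, Finset.sum_eq_zero_iff] at this
      exact this s (Finset.mem_range.2 hs)
    · exact hF d hd s (not_lt.1 hs)
  | succ D ih =>
    intro F hF hD h0
    -- the derivatives vanish for large index
    have hbig : ∀ s, n ≤ s → pderiv (Sum.inr s) F = 0 := by
      intro s hs
      ext d
      rw [coeff_pderiv', coeff_zero]
      by_contra hne
      have h1 := hF _ (left_ne_zero_of_mul hne) s hs
      rw [Finsupp.add_apply, Finsupp.single_eq_same] at h1
      omega
    have hev : ∀ s, s < n → ev h (pderiv (Sum.inr s) F) = 0 := by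
      -- polynomial with many roots
      set q : Polynomial (MvPolynomial (Fin N) K) := ∑ s ∈ range n,
        Polynomial.C (((s : K) + 1) • ev h (pderiv (Sum.inr s) F)) * Polynomial.X ^ s with hq
      have hroot : ∀ j : Fin N, M ≤ (j : ℕ) → q.eval (X j) = 0 := by
        intro j hj
        obtain ⟨T, hT⟩ := chain_rule h j hj F
        have h1 := hT (T + n) (by omega)
        rw [h0, map_zero] at h1
        rw [hq, Polynomial.eval_finsetSum]
        have h2 : ∑ s ∈ range n, Polynomial.eval (X j)
            (Polynomial.C (((s : K) + 1) • ev h (pderiv (Sum.inr s) F)) * Polynomial.X ^ s) =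
            ∑ s ∈ range (T + n), ((s : K) + 1) • (X j ^ s * ev h (pderiv (Sum.inr s) F)) := by
          rw [← Finset.sum_subset (s₁ := range n) (s₂ := range (T + n))]
          · refine Finset.sum_congr rfl fun s _ => ?_
            rw [Polynomial.eval_mul, Polynomial.eval_C, Polynomial.eval_pow, Polynomial.eval_X,
              smul_mul_assoc, mul_comm]
          · intro s hs
            rw [Finset.mem_range] at hs ⊢; omega
          · intro s _ hs
            rw [Finset.mem_range, not_lt] at hs
            rw [hbig s hs, map_zero, mul_zero, smul_zero]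
        rw [h2, ← h1]
      have hqz : q = 0 := by
        by_cases hn : n = 0
        · rw [hq, hn]; simp
        apply Polynomial.eq_zero_of_natDegree_lt_card_of_eval_eq_zero q
          (f := fun i : Fin n => (X (⟨M + i, by omega⟩ : Fin N) : MvPolynomial (Fin N) K))
        · intro a b hab
          have := X_injective hab
          simpa [Fin.ext_iff] using this
        · intro i
          exact hroot _ (by simp)
        · rw [Fintype.card_fin]
          refine lt_of_le_of_lt (Polynomial.natDegree_sum_le_of_forall_le (n := n - 1) _ _ ?_) (by omega)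
          intro s hs
          rw [Finset.mem_range] at hs
          refine (Polynomial.natDegree_C_mul_X_pow_le _ _).trans (by omega)
      intro s hs
      have h3 : q.coeff s = ((s : K) + 1) • ev h (pderiv (Sum.inr s) F) := by
        rw [hq, Polynomial.finsetSum_coeff]
        simp only [Polynomial.coeff_C_mul, Polynomial.coeff_X_pow]
        rw [Finset.sum_eq_single s]
        · simp
        · intro t _ hts
          rw [if_neg (fun hh => hts hh.symm), mul_zero]
        · intro hh; exact absurd (Finset.mem_range.2 hs) hh
      rw [hqz, Polynomial.coeff_zero] at h3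
      have h4 : ((s : K) + 1) ≠ 0 := by
        have : ((s + 1 : ℕ) : K) ≠ 0 := Nat.cast_ne_zero.2 (Nat.succ_ne_zero s)
        simpa using this
      exact (smul_eq_zero.1 h3.symm).resolve_left h4
    have hz : ∀ s, pderiv (Sum.inr s) F = 0 := by
      intro s
      by_cases hs : s < n
      · apply ih
        · intro d hd t ht
          rw [coeff_pderiv'] at hd
          have := hF _ (left_ne_zero_of_mul hd) t ht
          rw [Finsupp.add_apply] at this
          omega
        · intro d hd
          rw [coeff_pderiv'] at hd
          have := hD _ (left_ne_zero_of_mul hd)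
          have h5 : ∑ t ∈ range n, (d + Finsupp.single (Sum.inr s) 1 : Fin M ⊕ ℕ →₀ ℕ) (Sum.inr t) =
              ∑ t ∈ range n, d (Sum.inr t) + 1 := by
            simp only [Finsupp.add_apply, Finset.sum_add_distrib]
            congr 1
            rw [Finset.sum_eq_single s]
            · simp
            · intro t _ hts
              rw [Finsupp.single_eq_of_ne (by simpa using hts)]
            · intro hh; exact absurd (Finset.mem_range.2 hs) hh
          omega
        · exact hev s hs
      · exact hbig s (not_lt.1 hs)
    refine inj_base h F ?_ h0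
    intro d hd s _
    by_contra hds
    have h6 := congrArg (coeff (d - Finsupp.single (Sum.inr s) 1)) (hz s)
    rw [coeff_pderiv', coeff_zero, tsub_add_cancel_of_le
      (by rw [Finsupp.single_le_iff]; omega)] at h6
    rcases mul_eq_zero.1 h6 with h7 | h7
    · exact hd h7
    · have : (((d - Finsupp.single (Sum.inr s) 1 : Fin M ⊕ ℕ →₀ ℕ) (Sum.inr s) + 1 : ℕ) : K) ≠ 0 :=
        Nat.cast_ne_zero.2 (Nat.succ_ne_zero _)
      exact this (by push_cast; exact h7)

end Pool.Agent.Helper72.Jack
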