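import Pool.Agent.Helper72.Jack.DD

/-!
# Cherednik operators in `N` variables and on the mixed model
-/

set_option linter.unusedSectionVars false
set_option linter.unusedSimpArgs false
set_option linter.style.longLine false

open MvPolynomial Finset

namespace Pool.Agent.Helper72.Jack

variable {K : Type*} [Field K] (α : K)

/-- The equivariant operators `D_i`. -/
noncomputable def DD {N : ℕ} (i : Fin N) : MvPolynomial (Fin N) K →ₗ[K] MvPolynomial (Fin N) K :=
  α • ((LinearMap.mulLeft K (X i)) ∘ₗ (pderiv i).toLinearMap) +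
    ∑ j : Fin N, (LinearMap.mulLeft K (X j)) ∘ₗ dd i j

lemma DD_apply {N : ℕ} (i : Fin N) (f : MvPolynomial (Fin N) K) :
    DD α i f = α • (X i * pderiv i f) + ∑ j : Fin N, X j * dd i j f := by
  simp [DD, LinearMap.sum_apply]

/-- The Cherednik operators `xi_i`. -/
noncomputable def xi {N : ℕ} (i : Fin N) : MvPolynomial (Fin N) K →ₗ[K] MvPolynomial (Fin N) K :=
  DD α i - ∑ j ∈ univ.filter (· < i), (sw i j : MvPolynomial (Fin N) K →ₐ[K] _).toLinearMap

lemma xi_apply {N : ℕ} (i : Fin N) (f : MvPolynomial (Fin N) K) :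
    xi α i f = DD α i f - ∑ j ∈ univ.filter (· < i), sw i j f := by
  simp [xi, LinearMap.sum_apply]

/-- mixed model -/
abbrev VM (K : Type*) [Field K] (M : ℕ) := MvPolynomial (Fin M ⊕ ℕ) K

/-- evaluation of the mixed model in `N` variables -/
noncomputable def ev {M N : ℕ} (h : M ≤ N) : VM K M →ₐ[K] MvPolynomial (Fin N) K :=
  aeval (Sum.elim (fun i => X (Fin.castLE h i)) (fun s => ∑ j : Fin N, X j ^ (s + 1)))

@[simp] lemma ev_X_inl {M N : ℕ} (h : M ≤ N) (i : Fin M) :
    ev (K := K) h (X (Sum.inl i)) = X (Fin.castLE h i) := by simp [ev]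

@[simp] lemma ev_X_inr {M N : ℕ} (h : M ≤ N) (s : ℕ) :
    ev (K := K) h (X (Sum.inr s)) = ∑ j : Fin N, X j ^ (s + 1) := by simp [ev]

lemma sw_psum {N : ℕ} (i j : Fin N) (s : ℕ) :
    sw i j (∑ k : Fin N, X k ^ s : MvPolynomial (Fin N) K) = ∑ k : Fin N, X k ^ s := by
  rw [map_sum]
  simp only [map_pow, sw_X]
  exact Equiv.sum_comp (Equiv.swap i j) (fun k => (X k : MvPolynomial (Fin N) K) ^ s)

lemma ev_sw {M N : ℕ} (h : M ≤ N) (i j : Fin M) (f : VM K M) :
    ev h (sw (Sum.inl i) (Sum.inl j) f) = sw (Fin.castLE h i) (Fin.castLE h j) (ev h f) := by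
  have : (ev (K := K) h).comp (sw (Sum.inl i) (Sum.inl j)) =
      (sw (Fin.castLE h i) (Fin.castLE h j)).comp (ev h) := by
    apply MvPolynomial.algHom_ext
    rintro (k | s)
    · simp only [AlgHom.comp_apply, sw_X, ev_X_inl]
      rcases eq_or_ne k i with rfl | hki
      · simp
      rcases eq_or_ne k j with rfl | hkj
      · simp
      rw [Equiv.swap_apply_of_ne_of_ne (by simpa using hki) (by simpa using hkj),
        Equiv.swap_apply_of_ne_of_ne (by simpa using hki) (by simpa using hkj)]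
      simp
    · simp only [AlgHom.comp_apply, sw_X, ev_X_inr, sw_psum]
      rw [Equiv.swap_apply_of_ne_of_ne (by simp) (by simp)]
      simp
  exact DFunLike.congr_fun this f

lemma ev_dd {M N : ℕ} (h : M ≤ N) (i j : Fin M) (f : VM K M) :
    ev h (dd (Sum.inl i) (Sum.inl j) f) = dd (Fin.castLE h i) (Fin.castLE h j) (ev h f) := by
  by_cases hij : i = j
  · subst hij; simp
  · exact dd_map (ev h) (by simpa using hij) (by simpa using hij) (by simp) (by simp)
      (fun f => ev_sw h i j f) f

/-- the derivation `x_i ∂_i` on the mixed model -/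
noncomputable def eul {M : ℕ} (i : Fin M) : Derivation K (VM K M) (VM K M) :=
  mkDerivation K (Sum.elim (fun j => if j = i then X (Sum.inl i) else 0)
    (fun s => ((s : K) + 1) • X (Sum.inl i) ^ (s + 1)))

lemma ev_eul {M N : ℕ} (h : M ≤ N) (i : Fin M) (f : VM K M) :
    ev h (eul i f) = X (Fin.castLE h i) * pderiv (Fin.castLE h i) (ev h f) := by
  induction f using MvPolynomial.induction_on with
  | C a => simp [eul]
  | add p q hp hq => simp only [map_add, hp, hq]; ring
  | mul_X p k hp =>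
    rw [Derivation.leibniz, map_add, smul_eq_mul, smul_eq_mul, map_mul, map_mul, hp, map_mul,
      Derivation.leibniz, smul_eq_mul, smul_eq_mul]
    have : ev h (eul i (X k : VM K M)) =
        X (Fin.castLE h i) * pderiv (Fin.castLE h i) (ev h (X k : VM K M)) := by
      rcases k with k | s
      · simp only [eul, mkDerivation_X, Sum.elim_inl, ev_X_inl]
        by_cases hk : k = i
        · subst hk; simp
        · rw [if_neg hk, pderiv_X_of_ne (by simpa using hk)]; simp
      · simp only [eul, mkDerivation_X, Sum.elim_inr, ev_X_inr, map_smul, map_pow, ev_X_inl]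
        rw [map_sum, Finset.sum_eq_single (Fin.castLE h i)]
        · rw [Derivation.leibniz_pow, pderiv_X_self]
          simp only [add_tsub_cancel_right, smul_eq_mul, mul_one, nsmul_eq_mul, pow_succ]
          rw [MvPolynomial.smul_eq_C_mul]
          simp only [map_add, map_natCast, map_one, Nat.cast_add, Nat.cast_one]
          ring
        · intro j _ hj
          rw [Derivation.leibniz_pow, pderiv_X_of_ne hj]; simp
        · intro hh; exact absurd (Finset.mem_univ _) hh
    rw [this]; ring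

/-- exponent vector with the `i` entry removed -/
noncomputable def er {M : ℕ} (i : Fin M) (d : Fin M ⊕ ℕ →₀ ℕ) : Fin M ⊕ ℕ →₀ ℕ := d.erase (Sum.inl i)

/-- the part `∑_t x_i^{-t} p_t` -/
noncomputable def QQ {M : ℕ} (i : Fin M) : VM K M →ₗ[K] VM K M :=
  (basisMonomials (Fin M ⊕ ℕ) K).constr K (fun d => ∑ t ∈ range (d (Sum.inl i)),
    monomial (er i d + Finsupp.single (Sum.inl i) (d (Sum.inl i) - (t + 1))
      + Finsupp.single (Sum.inr t) 1) 1)

/-- the part `∑_t x_i^{-t} x_j^t` -/
noncomputable def WW {M : ℕ} (i j : Fin M) : VM K M →ₗ[K] VM K M :=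
  (basisMonomials (Fin M ⊕ ℕ) K).constr K (fun d => ∑ t ∈ range (d (Sum.inl i)),
    monomial (er i d + Finsupp.single (Sum.inl i) (d (Sum.inl i) - (t + 1))
      + Finsupp.single (Sum.inl j) (t + 1)) 1)

lemma QQ_monomial {M : ℕ} (i : Fin M) (d : Fin M ⊕ ℕ →₀ ℕ) :
    QQ i (monomial d (1 : K)) = ∑ t ∈ range (d (Sum.inl i)),
      monomial (er i d) 1 * X (Sum.inl i) ^ (d (Sum.inl i) - (t + 1)) * X (Sum.inr t) := by
  have h := (basisMonomials (Fin M ⊕ ℕ) K).constr_basis K (fun d => ∑ t ∈ range (d (Sum.inl i)),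
    (monomial (er i d + Finsupp.single (Sum.inl i) (d (Sum.inl i) - (t + 1))
      + Finsupp.single (Sum.inr t) 1) (1 : K))) d
  rw [coe_basisMonomials] at h
  rw [QQ, h]
  refine Finset.sum_congr rfl fun t _ => ?_
  rw [X_pow_eq_monomial, X, monomial_mul, monomial_mul]; simp

lemma WW_monomial {M : ℕ} (i j : Fin M) (d : Fin M ⊕ ℕ →₀ ℕ) :
    WW i j (monomial d (1 : K)) = ∑ t ∈ range (d (Sum.inl i)),
      monomial (er i d) 1 * X (Sum.inl i) ^ (d (Sum.inl i) - (t + 1)) * X (Sum.inl j) ^ (t + 1) := by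
  have h := (basisMonomials (Fin M ⊕ ℕ) K).constr_basis K (fun d => ∑ t ∈ range (d (Sum.inl i)),
    (monomial (er i d + Finsupp.single (Sum.inl i) (d (Sum.inl i) - (t + 1))
      + Finsupp.single (Sum.inl j) (t + 1)) (1 : K))) d
  rw [coe_basisMonomials] at h
  rw [WW, h]
  refine Finset.sum_congr rfl fun t _ => ?_
  rw [X_pow_eq_monomial, X_pow_eq_monomial, monomial_mul, monomial_mul]; simp

lemma monomial_er {M : ℕ} (i : Fin M) (d : Fin M ⊕ ℕ →₀ ℕ) :
    (monomial d (1 : K)) = monomial (er i d) 1 * X (Sum.inl i) ^ (d (Sum.inl i)) := by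
  rw [X_pow_eq_monomial, monomial_mul, er, Finsupp.erase_add_single]; simp

/-- a linear map identity can be checked on monomials -/
lemma linear_ext {σ : Type*} {W : Type*} [AddCommMonoid W] [Module K W]
    {f g : MvPolynomial σ K →ₗ[K] W} (h : ∀ d, f (monomial d 1) = g (monomial d 1)) : f = g := by
  apply (basisMonomials σ K).ext
  intro d
  rw [coe_basisMonomials]; exact h d

/-- swap with an outer variable fixes the part free of `x_i` -/
lemma sw_ev_er {M N : ℕ} (h : M ≤ N) (i : Fin M) (j : Fin N) (hj : M ≤ j) (d : Fin M ⊕ ℕ →₀ ℕ) :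
    sw (Fin.castLE h i) j (ev h (monomial (er i d) (1 : K))) = ev h (monomial (er i d) 1) := by
  rw [monomial_eq, C_1, one_mul, Finsupp.prod, map_prod, map_prod]
  refine Finset.prod_congr rfl ?_
  rintro (k | s) hk
  · rw [map_pow, map_pow, ev_X_inl, sw_X]
    have hki : k ≠ i := by
      rintro rfl
      simp [er] at hk
    rw [Equiv.swap_apply_of_ne_of_ne]
    · simpa using hki
    · intro hc
      have := congrArg Fin.val hc
      simp at this
      omega
  · rw [map_pow, map_pow, ev_X_inr, sw_psum]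

lemma dd_X_pow {N : ℕ} {i j : Fin N} (h : i ≠ j) (a : ℕ) :
    X j * dd i j (X i ^ a : MvPolynomial (Fin N) K) =
      ∑ t ∈ range a, X i ^ (a - (t + 1)) * X j ^ (t + 1) := by
  have h1 : dd i j (X i ^ a : MvPolynomial (Fin N) K) =
      ∑ t ∈ range a, X i ^ (a - (t + 1)) * X j ^ t := by
    apply dd_unique h
    have := geom_sum₂_mul (X j : MvPolynomial (Fin N) K) (X i) a
    rw [map_pow, sw_X, Equiv.swap_apply_left]
    have h2 : (∑ t ∈ range a, (X i : MvPolynomial (Fin N) K) ^ (a - (t + 1)) * X j ^ t) =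
        ∑ t ∈ range a, X j ^ t * X i ^ (a - 1 - t) := by
      refine Finset.sum_congr rfl fun t _ => ?_
      rw [mul_comm, Nat.sub_sub, add_comm 1 t]
    rw [h2]
    linear_combination (-1 : MvPolynomial (Fin N) K) * this
  rw [h1, Finset.mul_sum]
  refine Finset.sum_congr rfl fun t _ => ?_
  ring

/-- the operator `D_i` on the mixed model -/
noncomputable def DV {M : ℕ} (i : Fin M) : VM K M →ₗ[K] VM K M :=
  α • (eul i).toLinearMap + QQ i +
    ∑ j : Fin M, (LinearMap.mulLeft K (X (Sum.inl j)) ∘ₗ dd (Sum.inl i) (Sum.inl j) - WW i j)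

lemma DV_apply {M : ℕ} (i : Fin M) (f : VM K M) :
    DV α i f = α • eul i f + QQ i f +
      ∑ j : Fin M, (X (Sum.inl j) * dd (Sum.inl i) (Sum.inl j) f - WW i j f) := by
  simp [DV, LinearMap.sum_apply]

lemma ev_DV {M N : ℕ} (h : M ≤ N) (i : Fin M) (f : VM K M) :
    ev h (DV α i f) = DD α (Fin.castLE h i) (ev h f) := by
  suffices hs : (ev h).toLinearMap ∘ₗ DV α i = DD α (Fin.castLE h i) ∘ₗ (ev (K := K) h).toLinearMap by
    exact DFunLike.congr_fun hs f
  apply linear_ext
  intro d
  simp only [LinearMap.comp_apply, AlgHom.toLinearMap_apply]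
  rw [DV_apply, DD_apply]
  simp only [map_add, map_sum, map_sub, map_smul, map_mul, ev_eul, ev_X_inl, ev_dd]
  rw [add_assoc]
  congr 1
  -- split the sum over `Fin N`
  have hsplit : ∀ F : Fin N → MvPolynomial (Fin N) K, ∑ j, F j =
      ∑ j : Fin M, F (Fin.castLE h j) + ∑ j ∈ univ.filter (fun j : Fin N => M ≤ j), F j := by
    intro F
    rw [← Finset.sum_filter_add_sum_filter_not univ (fun j : Fin N => (j : ℕ) < M)]
    congr 1
    · symm
      refine Finset.sum_bij (fun j _ => Fin.castLE h j) ?_ ?_ ?_ ?_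
      · intro j _; simp
      · intro a _ b _ hab; simpa using hab
      · intro j hj
        simp only [mem_filter, mem_univ, true_and] at hj
        exact ⟨⟨j, hj⟩, mem_univ _, by ext; simp⟩
      · intro j _; rfl
    · apply Finset.sum_congr
      · ext j; simp
      · intros; rfl
  rw [hsplit (fun j => X j * dd (Fin.castLE h i) j (ev h (monomial d 1))), Finset.sum_sub_distrib]
  have hA : ∑ j ∈ univ.filter (fun j : Fin N => M ≤ j),
      X j * dd (Fin.castLE h i) j (ev h (monomial d (1 : K))) =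
      ∑ t ∈ range (d (Sum.inl i)), ev h (monomial (er i d) 1) *
        (X (Fin.castLE h i) ^ (d (Sum.inl i) - (t + 1)) *
          ∑ j ∈ univ.filter (fun j : Fin N => M ≤ j), X j ^ (t + 1)) := by
    simp only [Finset.mul_sum]
    rw [Finset.sum_comm]
    refine Finset.sum_congr rfl fun j hj => ?_
    simp only [mem_filter, mem_univ, true_and] at hj
    have hne : Fin.castLE h i ≠ j := by
      intro hc
      have := congrArg Fin.val hc
      simp at this
      omega
    rw [monomial_er i d, map_mul, map_pow, ev_X_inl, mul_comm (ev h _), dd_mul_symm _ _ (sw_ev_er h i j hj d),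
      ← mul_assoc, dd_X_pow hne, Finset.sum_mul]
    refine Finset.sum_congr rfl fun t _ => ?_
    ring
  rw [hA]
  have hQ : ev h (QQ i (monomial d (1 : K))) = ∑ t ∈ range (d (Sum.inl i)), ev h (monomial (er i d) 1) *
        (X (Fin.castLE h i) ^ (d (Sum.inl i) - (t + 1)) * ∑ j : Fin N, X j ^ (t + 1)) := by
    rw [QQ_monomial, map_sum]
    refine Finset.sum_congr rfl fun t _ => ?_
    rw [map_mul, map_mul, map_pow, ev_X_inl, ev_X_inr]; ring
  have hW : ∑ j : Fin M, ev h (WW i j (monomial d (1 : K))) =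
      ∑ t ∈ range (d (Sum.inl i)), ev h (monomial (er i d) 1) *
        (X (Fin.castLE h i) ^ (d (Sum.inl i) - (t + 1)) * ∑ j : Fin M, X (Fin.castLE h j) ^ (t + 1)) := by
    simp only [Finset.mul_sum]
    rw [Finset.sum_comm]
    refine Finset.sum_congr rfl fun j _ => ?_
    rw [WW_monomial, map_sum]
    refine Finset.sum_congr rfl fun t _ => ?_
    rw [map_mul, map_mul, map_pow, map_pow, ev_X_inl, ev_X_inl]; ring
  rw [hQ, hW]
  have hfin : ∀ t, ∑ j : Fin N, (X j : MvPolynomial (Fin N) K) ^ (t + 1) =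
      ∑ j : Fin M, X (Fin.castLE h j) ^ (t + 1) +
        ∑ j ∈ univ.filter (fun j : Fin N => M ≤ j), X j ^ (t + 1) := fun t => hsplit _
  simp only [hfin, mul_add, Finset.sum_add_distrib]
  ring

end Pool.Agent.Helper72.Jack
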