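import Pool.Agent.Helper72.Jack.Defs
import Pool.Agent.Helper72.Jack.Inj

/-!
# Components of symmetric superpolynomials
-/

set_option linter.unusedSectionVars false
set_option linter.unusedSimpArgs false
set_option linter.style.longLine false

open MvPolynomial Finset

namespace Pool.Agent.Helper72.Jack

variable {K : Type*} [Field K] {N m n : ℕ}

/-- product of thetas -/
noncomputable def thProd (f : Fin m → Fin N) : Superspace K N :=
  (List.ofFn (fun i : Fin m => theta K (f i))).prod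

lemma thProd_eq (f : Fin m → Fin N) : (thProd f : Superspace K N) =
    ExteriorAlgebra.ιMulti (MvPolynomial (Fin N) K) m (fun i => Pi.single (f i) 1) := by
  rw [ExteriorAlgebra.ιMulti_apply]; rfl

lemma thProd_comp_perm (f : Fin m → Fin N) (ρ : Equiv.Perm (Fin m)) :
    (thProd (f ∘ ρ) : Superspace K N) = (Equiv.Perm.sign ρ : ℤ) • thProd f := by
  rw [thProd_eq, thProd_eq]
  have := (ExteriorAlgebra.ιMulti (MvPolynomial (Fin N) K) m
    (M := Fin N → MvPolynomial (Fin N) K)).map_perm (fun i => Pi.single (f i) 1) ρ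
  simpa [Function.comp_def, Units.smul_def] using this

/-- the alternating map of the component -/
noncomputable def detAlt (h : m ≤ N) :
    (Fin N → MvPolynomial (Fin N) K) [⋀^Fin m]→ₗ[MvPolynomial (Fin N) K] MvPolynomial (Fin N) K :=
  (Matrix.detRowAlternating (n := Fin m) (R := MvPolynomial (Fin N) K)).compLinearMap
    (LinearMap.funLeft (MvPolynomial (Fin N) K) (MvPolynomial (Fin N) K) (Fin.castLE h))

/-- coefficient of `θ_1 ⋯ θ_m` -/
noncomputable def comp (h : m ≤ N) :
    Superspace K N →ₗ[MvPolynomial (Fin N) K] MvPolynomial (Fin N) K :=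
  ExteriorAlgebra.liftAlternating (Function.update (fun _ => 0) m (detAlt h))

lemma comp_ιMulti (h : m ≤ N) (v : Fin m → Fin N → MvPolynomial (Fin N) K) :
    comp h (ExteriorAlgebra.ιMulti (MvPolynomial (Fin N) K) m v) =
      Matrix.det (fun a b : Fin m => v a (Fin.castLE h b)) := by
  rw [comp, ExteriorAlgebra.liftAlternating_apply_ιMulti, Function.update_self]
  rfl

/-- sign coefficient -/
noncomputable def eps (h : m ≤ N) (τ : Equiv.Perm (Fin N)) : MvPolynomial (Fin N) K :=
  comp h (thProd (fun i => τ (Fin.castLE h i)))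

lemma eps_eq (h : m ≤ N) (τ : Equiv.Perm (Fin N)) :
    (eps h τ : MvPolynomial (Fin N) K) =
      Matrix.det (fun a b : Fin m => (Pi.single (τ (Fin.castLE h a)) 1 : Fin N → MvPolynomial (Fin N) K)
        (Fin.castLE h b)) := by
  rw [eps, thProd_eq, comp_ιMulti]

/-- `τ` preserves the first `m` positions -/
def Pres (h : m ≤ N) (τ : Equiv.Perm (Fin N)) : Prop :=
  ∀ a : Fin m, (τ (Fin.castLE h a) : ℕ) < m

lemma eps_zero (h : m ≤ N) {τ : Equiv.Perm (Fin N)} (hτ : ¬ Pres h τ) :
    (eps h τ : MvPolynomial (Fin N) K) = 0 := by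
  rw [eps_eq]
  simp only [Pres, not_forall, not_lt] at hτ
  obtain ⟨a, ha⟩ := hτ
  apply Matrix.det_eq_zero_of_row_eq_zero a
  intro b
  apply Pi.single_eq_of_ne
  intro hc
  rw [← hc] at ha
  simp at ha
  omega

lemma exists_perm (h : m ≤ N) {τ : Equiv.Perm (Fin N)} (hτ : Pres h τ) :
    ∃ ρ : Equiv.Perm (Fin m), ∀ a, τ (Fin.castLE h a) = Fin.castLE h (ρ a) := by
  have hinj : Function.Injective (fun a : Fin m => (⟨τ (Fin.castLE h a), hτ a⟩ : Fin m)) := by
    intro a b hab
    have h1 : τ (Fin.castLE h a) = τ (Fin.castLE h b) := by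
      ext; simpa using congrArg Fin.val hab
    simpa using τ.injective h1
  refine ⟨Equiv.ofBijective _ (Finite.injective_iff_bijective.1 hinj), fun a => ?_⟩
  ext; simp

lemma eps_perm (h : m ≤ N) {τ : Equiv.Perm (Fin N)} {ρ : Equiv.Perm (Fin m)}
    (hρ : ∀ a, τ (Fin.castLE h a) = Fin.castLE h (ρ a)) :
    (eps h τ : MvPolynomial (Fin N) K) = ((Equiv.Perm.sign ρ : ℤ) : MvPolynomial (Fin N) K) := by
  rw [eps_eq]
  have : (fun a b : Fin m => (Pi.single (τ (Fin.castLE h a)) 1 : Fin N → MvPolynomial (Fin N) K)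
        (Fin.castLE h b)) = (ρ.permMatrix (MvPolynomial (Fin N) K)) := by
    funext a b
    rw [hρ a]
    by_cases hab : ρ a = b
    · subst hab; simp [Equiv.Perm.permMatrix, PEquiv.toMatrix_apply]
    · rw [Pi.single_eq_of_ne (by simpa using fun hc => hab hc.symm)]
      simp [Equiv.Perm.permMatrix, PEquiv.toMatrix_apply, hab]
  rw [this, Matrix.det_permutation]

/-- the symmetrisation map into superspace -/
noncomputable def Psi (h : m ≤ N) : MvPolynomial (Fin N) K →ₗ[K] Superspace K N :=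
  ∑ σ : Equiv.Perm (Fin N), (LinearMap.toSpanSingleton (MvPolynomial (Fin N) K) (Superspace K N)
    (thProd (fun i => σ (Fin.castLE h i)))).restrictScalars K ∘ₗ (rename σ).toLinearMap

lemma Psi_apply (h : m ≤ N) (u : MvPolynomial (Fin N) K) :
    Psi h u = ∑ σ : Equiv.Perm (Fin N), rename σ u • thProd (fun i => σ (Fin.castLE h i)) := by
  simp [Psi, LinearMap.sum_apply]

lemma comp_Psi (h : m ≤ N) (u : MvPolynomial (Fin N) K) :
    comp h (Psi h u) = ∑ σ : Equiv.Perm (Fin N), rename σ u * eps h σ := by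
  rw [Psi_apply, map_sum]
  refine Finset.sum_congr rfl fun σ _ => ?_
  rw [map_smul, smul_eq_mul]; rfl

lemma Psi_rename (h : m ≤ N) (τ : Equiv.Perm (Fin N)) (ρ : Equiv.Perm (Fin m))
    (hρ : ∀ a, τ (Fin.castLE h a) = Fin.castLE h (ρ a)) (u : MvPolynomial (Fin N) K) :
    Psi h (rename τ u) = (Equiv.Perm.sign ρ : ℤ) • Psi h u := by
  rw [Psi_apply, Psi_apply, Finset.smul_sum,
    ← Equiv.sum_comp (Equiv.mulRight τ) (fun σ : Equiv.Perm (Fin N) =>
      (Equiv.Perm.sign ρ : ℤ) • (rename σ u • thProd (fun i => σ (Fin.castLE h i)) : Superspace K N))]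
  refine Finset.sum_congr rfl fun σ _ => ?_
  have h1 : (thProd (fun i => (Equiv.mulRight τ σ) (Fin.castLE h i)) : Superspace K N) =
      (Equiv.Perm.sign ρ : ℤ) • thProd (fun i => σ (Fin.castLE h i)) := by
    rw [← thProd_comp_perm]
    congr 1
    funext i
    simp [hρ i]
  rw [h1, smul_comm (rename _ u) (Equiv.Perm.sign ρ : ℤ), smul_smul]
  have h2 : ((Equiv.Perm.sign ρ : ℤ) * (Equiv.Perm.sign ρ : ℤ)) = 1 := by
    rw [← Units.val_mul, ← sq, Int.units_sq]; rfl
  rw [h2, one_smul, rename_rename]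
  rfl

lemma Psi_comp_Psi [CharZero K] (h : m ≤ N) (u : MvPolynomial (Fin N) K) :
    ∃ c : K, c ≠ 0 ∧ Psi h (comp h (Psi h u)) = c • Psi h u := by
  classical
  refine ⟨((univ.filter (fun τ : Equiv.Perm (Fin N) => Pres h τ)).card : K), ?_, ?_⟩
  · rw [Nat.cast_ne_zero, Finset.card_ne_zero]
    exact ⟨1, by simp [Pres]⟩
  · rw [comp_Psi, map_sum]
    rw [← Finset.sum_filter_add_sum_filter_not univ (fun τ : Equiv.Perm (Fin N) => Pres h τ)]
    have h0 : ∑ τ ∈ univ.filter (fun τ : Equiv.Perm (Fin N) => ¬ Pres h τ),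
        Psi h (rename τ u * eps h τ) = 0 := by
      apply Finset.sum_eq_zero
      intro τ hτ
      rw [eps_zero h (Finset.mem_filter.1 hτ).2, mul_zero, map_zero]
    rw [h0, add_zero, Finset.sum_congr rfl (g := fun _ => Psi h u)]
    · rw [Finset.sum_const, Nat.cast_smul_eq_nsmul]
    · intro τ hτ
      obtain ⟨ρ, hρ⟩ := exists_perm h (Finset.mem_filter.1 hτ).2
      rw [eps_perm h hρ, mul_comm, ← zsmul_eq_mul, map_zsmul, Psi_rename h τ ρ hρ, smul_smul]
      have h2 : ((Equiv.Perm.sign ρ : ℤ) * (Equiv.Perm.sign ρ : ℤ)) = 1 := by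
        rw [← Units.val_mul, ← sq, Int.units_sq]; rfl
      rw [h2, one_smul]

lemma comp_injOn [CharZero K] (h : m ≤ N) {v : Superspace K N} (hv : v ∈ LinearMap.range (Psi (K := K) h))
    (h0 : comp h v = 0) : v = 0 := by
  obtain ⟨u, rfl⟩ := hv
  obtain ⟨c, hc, hcu⟩ := Psi_comp_Psi h u
  rw [h0, map_zero] at hcu
  exact (smul_eq_zero.1 hcu.symm).resolve_left hc

/-! ### Monomials -/

/-- exponent vector -/
noncomputable def expo (N : ℕ) (L : SPar n m) : Fin N →₀ ℕ :=
  Finsupp.equivFunOnFinite.symm (fun i => L.part i)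

@[simp] lemma expo_apply (L : SPar n m) (i : Fin N) : expo N L i = L.part i := rfl

lemma mLam_eq (h : m ≤ N) (L : SPar n m) :
    mLam K h L = ((stab N L : K)⁻¹) • Psi h (monomial (expo N L) 1) := by
  rw [mLam, Psi_apply]
  congr 1
  refine Finset.sum_congr rfl fun σ _ => ?_
  congr 1
  rw [monomial_eq, C_1, one_mul, Finsupp.prod_fintype _ _ (by simp), map_prod]
  simp

lemma mLam_mem (h : m ≤ N) (L : SPar n m) : mLam K h L ∈ LinearMap.range (Psi (K := K) h) := by
  rw [mLam_eq]
  exact Submodule.smul_mem _ _ ⟨_, rfl⟩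

/-- the component of `m_Λ` -/
noncomputable def mono (h : m ≤ N) (L : SPar n m) : MvPolynomial (Fin N) K := comp h (mLam K h L)

end Pool.Agent.Helper72.Jack
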