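import Pool.Agent.Helper72.Jack.Bridge

/-!
# The superspace wrapper
-/

set_option linter.unusedSectionVars false
set_option linter.unusedSimpArgs false
set_option linter.style.longLine false

open MvPolynomial Finset

namespace Pool.Agent.Helper61.JackSuper

open Pool.Agent.Helper72.Jack (SPar comp Psi thProd mLam pLam pTilde pOrd)

variable {n m N : ℕ}

lemma take_finRange (h : m ≤ N) : (List.finRange N).take m = List.ofFn (fun i : Fin m => Fin.castLE h i) := by
  apply List.ext_getElem
  · simp [h]
  · intro i h1 h2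
    simp only [List.getElem_take, List.getElem_finRange, List.getElem_ofFn]
    rfl

lemma mon_eq (h : m ≤ N) (hN : n + m ≤ N) (L : SuperPartition n m) : mon N L = mLam K h (toS L) := by
  rw [mon, mLam, stab_eq_aut hN]
  congr 1
  refine Finset.sum_congr rfl fun σ _ => ?_
  rw [term, ← Algebra.smul_def, take_finRange h, List.map_ofFn]
  rfl

lemma ptil_eq (r : ℕ) : ptil N r = pTilde K N r := by
  rw [ptil, pTilde]
  refine Finset.sum_congr rfl fun i _ => ?_
  rw [← Algebra.smul_def]; rfl

lemma psum_eq (s : ℕ) : psum N s = algebraMap (Pol N) (SP N) (pOrd K N s) := by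
  rw [psum, pOrd, map_sum]

lemma pow_eq (L : SuperPartition n m) : pow N L = pLam K N (toS L) := by
  rw [pow, pLam]
  have e1 : ((dec L.fer.val).map (ptil N)) = ((toS L).a.map (pTilde K N)) := by
    apply List.map_congr_left
    intro r _; exact ptil_eq r
  have e2 : ((dec L.bos).map (psum N)) = ((toS L).s.map (pOrd K N)).map (algebraMap (Pol N) (SP N)) := by
    rw [List.map_map]
    apply List.map_congr_left
    intro s _; exact psum_eq s
  rw [e1, e2, map_list_prod]

/-! ### The component of `p_Λ` -/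

section
variable {F : Type*} [Field F]

lemma pTilde_eq (r : ℕ) : pTilde F N r =
    ExteriorAlgebra.ι (MvPolynomial (Fin N) F) (fun i : Fin N => (X i : MvPolynomial (Fin N) F) ^ r) := by
  rw [pTilde]
  have : (fun i : Fin N => (X i : MvPolynomial (Fin N) F) ^ r) =
      ∑ i : Fin N, (X i : MvPolynomial (Fin N) F) ^ r • (Pi.single i 1 : Fin N → MvPolynomial (Fin N) F) := by
    funext j
    rw [Finset.sum_apply, Finset.sum_eq_single j]
    · simp
    · intro b _ hb
      simp [Pi.single_eq_of_ne hb.symm]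
    · intro hh; exact absurd (mem_univ _) hh
  rw [this, map_sum]
  refine Finset.sum_congr rfl fun i _ => ?_
  rw [map_smul]; rfl

/-- the vectors of the `p̃` -/
noncomputable def pvec (S : SPar n m) (N : ℕ) (c : Fin m) : Fin N → MvPolynomial (Fin N) F :=
  fun i => X i ^ S.part c

/-- the symmetric factor -/
noncomputable def pfac (F : Type*) [Field F] (S : SPar n m) (N : ℕ) : MvPolynomial (Fin N) F :=
  (S.s.map (pOrd F N)).prod

lemma list_a_eq (S : SPar n m) : S.a = List.ofFn (fun c : Fin m => S.part c) := by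
  apply List.ext_getElem
  · simp [S.hm]
  · intro i h1 h2
    rw [List.getElem_ofFn]
    have hi : i < m := by rw [← S.hm]; exact h1
    show S.a[i] = S.part i
    rw [SPar.part_lt S hi, List.getD_eq_getElem _ _ h1]

lemma pLam_eq (S : SPar n m) : pLam F N S =
    pfac F S N • ExteriorAlgebra.ιMulti (MvPolynomial (Fin N) F) m (pvec S N) := by
  have h1 : (List.ofFn fun c : Fin m => ExteriorAlgebra.ι (MvPolynomial (Fin N) F)
      (pvec (F := F) S N c)) = S.a.map (pTilde F N) := by
    rw [list_a_eq, List.map_ofFn]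
    congr 1
    funext c
    simp only [Function.comp_apply]
    rw [pTilde_eq]; rfl
  rw [ExteriorAlgebra.ιMulti_apply, h1, pLam, ← Algebra.commutes, Algebra.smul_def]
  rfl

lemma comp_pLam (h : m ≤ N) (S : SPar n m) : comp h (pLam F N S) =
    pfac F S N * Matrix.det (fun a b : Fin m =>
      (X (Fin.castLE h b) : MvPolynomial (Fin N) F) ^ S.part a) := by
  rw [pLam_eq, map_smul, smul_eq_mul, Pool.Agent.Helper72.Jack.comp_ιMulti]
  rfl

lemma rename_pOrd (σ : Equiv.Perm (Fin N)) (s : ℕ) : rename σ (pOrd F N s) = pOrd F N s := by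
  rw [pOrd, map_sum]
  simp only [map_pow, rename_X]
  exact Equiv.sum_comp σ (fun i => (X i : MvPolynomial (Fin N) F) ^ s)

lemma rename_pfac (σ : Equiv.Perm (Fin N)) (S : SPar n m) : rename σ (pfac F S N) = pfac F S N := by
  rw [pfac, map_list_prod, List.map_map]
  congr 1
  apply List.map_congr_left
  intro s _; exact rename_pOrd σ s

lemma Psi_mul_symm (h : m ≤ N) (u g : MvPolynomial (Fin N) F)
    (hg : ∀ σ : Equiv.Perm (Fin N), rename σ g = g) : Psi h (g * u) = g • Psi h u := by
  rw [Pool.Agent.Helper72.Jack.Psi_apply, Pool.Agent.Helper72.Jack.Psi_apply, Finset.smul_sum]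
  refine Finset.sum_congr rfl fun σ _ => ?_
  rw [map_mul, hg, mul_smul]

lemma exists_extend (h : m ≤ N) (f : Fin m → Fin N) (hf : Function.Injective f) :
    ∃ σ : Equiv.Perm (Fin N), ∀ c, σ (Fin.castLE h c) = f c := by
  classical
  have e1 : {x : Fin N // x ∈ Set.range (Fin.castLE h)} ≃ Fin m :=
    (Equiv.ofInjective _ (Fin.castLE_injective h)).symm
  set e : {x : Fin N // x ∈ Set.range (Fin.castLE h)} ≃ {x : Fin N // x ∈ Set.range f} :=
    (Equiv.ofInjective _ (Fin.castLE_injective h)).symm.trans (Equiv.ofInjective f hf) with he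
  refine ⟨e.extendSubtype, fun c => ?_⟩
  rw [Equiv.extendSubtype_apply_of_mem e _ ⟨c, rfl⟩, he, Equiv.trans_apply]
  have : (Equiv.ofInjective _ (Fin.castLE_injective h)).symm ⟨Fin.castLE h c, ⟨c, rfl⟩⟩ = c := by
    rw [Equiv.symm_apply_eq]; rfl
  rw [this]; rfl

lemma card_extend (h : m ≤ N) (f : Fin m → Fin N) (hf : Function.Injective f) :
    (univ.filter (fun σ : Equiv.Perm (Fin N) => (fun c => σ (Fin.castLE h c)) = f)).card =
    (univ.filter (fun σ : Equiv.Perm (Fin N) => ∀ c : Fin m, σ (Fin.castLE h c) = Fin.castLE h c)).card := by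
  obtain ⟨τ, hτ⟩ := exists_extend h f hf
  symm
  refine Finset.card_bij (fun σ _ => τ * σ) ?_ ?_ ?_
  · intro σ hσ
    rw [Finset.mem_filter] at hσ ⊢
    refine ⟨mem_univ _, ?_⟩
    funext c
    rw [Equiv.Perm.mul_apply, hσ.2, hτ]
  · intro a _ b _ hab
    exact mul_left_cancel hab
  · intro σ hσ
    rw [Finset.mem_filter] at hσ
    refine ⟨τ⁻¹ * σ, ?_, by simp⟩
    rw [Finset.mem_filter]
    refine ⟨mem_univ _, fun c => ?_⟩
    rw [Equiv.Perm.mul_apply, Equiv.Perm.inv_eq_iff_eq, hτ]
    exact congrFun hσ.2 c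

lemma iMulti_mem [CharZero F] (h : m ≤ N) (S : SPar n m) :
    ∃ u : MvPolynomial (Fin N) F, Psi h u =
      ExteriorAlgebra.ιMulti (MvPolynomial (Fin N) F) m (pvec S N) := by
  classical
  set c0 : ℕ := (univ.filter (fun σ : Equiv.Perm (Fin N) =>
    ∀ c : Fin m, σ (Fin.castLE h c) = Fin.castLE h c)).card with hc0
  have hc0' : (c0 : F) ≠ 0 := by
    rw [Nat.cast_ne_zero, hc0, Finset.card_ne_zero]
    exact ⟨1, by simp⟩
  refine ⟨(c0 : F)⁻¹ • ∏ c : Fin m, X (Fin.castLE h c) ^ S.part c, ?_⟩
  rw [map_smul, inv_smul_eq_iff₀ hc0']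
  set G : (Fin m → Fin N) → Pool.Agent.Helper72.Jack.Superspace F N := fun f =>
    (∏ c : Fin m, (X (f c) : MvPolynomial (Fin N) F) ^ S.part c) • thProd f with hGdef
  have hleft : Psi h (∏ c : Fin m, (X (Fin.castLE h c) : MvPolynomial (Fin N) F) ^ S.part c) =
      ∑ σ : Equiv.Perm (Fin N), G (fun c => σ (Fin.castLE h c)) := by
    rw [Pool.Agent.Helper72.Jack.Psi_apply]
    refine Finset.sum_congr rfl fun σ _ => ?_
    rw [map_prod]
    simp only [map_pow, rename_X, hGdef]
  have hright : ExteriorAlgebra.ιMulti (MvPolynomial (Fin N) F) m (pvec S N) =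
      ∑ f : Fin m → Fin N, G f := by
    have hv : (pvec S N : Fin m → Fin N → MvPolynomial (Fin N) F) = fun (c : Fin m) => ∑ i : Fin N,
        (X i : MvPolynomial (Fin N) F) ^ S.part c • (Pi.single i 1 : Fin N → MvPolynomial (Fin N) F) := by
      funext c j
      rw [Finset.sum_apply, Finset.sum_eq_single j]
      · simp [pvec]
      · intro b _ hb
        simp [Pi.single_eq_of_ne hb.symm]
      · intro hh; exact absurd (mem_univ _) hh
    rw [hv]
    have := (ExteriorAlgebra.ιMulti (MvPolynomial (Fin N) F) m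
      (M := Fin N → MvPolynomial (Fin N) F)).toMultilinearMap.map_sum (fun (c : Fin m) (i : Fin N) =>
        (X i : MvPolynomial (Fin N) F) ^ S.part c • (Pi.single i 1 : Fin N → MvPolynomial (Fin N) F))
    rw [AlternatingMap.coe_multilinearMap] at this
    rw [this]
    refine Finset.sum_congr rfl fun f _ => ?_
    have h2 := (ExteriorAlgebra.ιMulti (MvPolynomial (Fin N) F) m
      (M := Fin N → MvPolynomial (Fin N) F)).toMultilinearMap.map_smul_univ
        (fun c => (X (f c) : MvPolynomial (Fin N) F) ^ S.part c)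
        (fun c => (Pi.single (f c) 1 : Fin N → MvPolynomial (Fin N) F))
    rw [AlternatingMap.coe_multilinearMap] at h2
    rw [h2]
    show _ = (∏ c : Fin m, (X (f c) : MvPolynomial (Fin N) F) ^ S.part c) • thProd f
    rw [Pool.Agent.Helper72.Jack.thProd_eq]
  rw [hleft, hright, Finset.smul_sum]
  have h3 : ∑ σ : Equiv.Perm (Fin N), G (fun c => σ (Fin.castLE h c)) =
      ∑ f : Fin m → Fin N, ∑ σ ∈ univ.filter (fun σ : Equiv.Perm (Fin N) =>
        (fun c => σ (Fin.castLE h c)) = f), G (fun c => σ (Fin.castLE h c)) :=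
    (Finset.sum_fiberwise_of_maps_to (fun _ _ => mem_univ _) _).symm
  rw [h3]
  refine Finset.sum_congr rfl fun f _ => ?_
  have h4 : ∑ σ ∈ univ.filter (fun σ : Equiv.Perm (Fin N) =>
        (fun c => σ (Fin.castLE h c)) = f), G (fun c => σ (Fin.castLE h c)) =
      ((univ.filter (fun σ : Equiv.Perm (Fin N) =>
        (fun c => σ (Fin.castLE h c)) = f)).card : F) • G f := by
    rw [Finset.sum_congr rfl (g := fun _ => G f), Finset.sum_const, Nat.cast_smul_eq_nsmul]
    intro σ hσ
    rw [(Finset.mem_filter.1 hσ).2]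
  rw [h4]
  by_cases hf : Function.Injective f
  · rw [card_extend h f hf]
  · have : (thProd f : Pool.Agent.Helper72.Jack.Superspace F N) = 0 := by
      rw [Pool.Agent.Helper72.Jack.thProd_eq]
      apply ExteriorAlgebra.ιMulti_eq_zero_of_not_inj
      intro hinj
      apply hf
      intro a b hab
      apply hinj
      simp only [hab]
    simp only [hGdef, this, smul_zero]

lemma pLam_mem [CharZero F] (h : m ≤ N) (S : SPar n m) :
    pLam F N S ∈ LinearMap.range (Psi (K := F) h) := by
  obtain ⟨u, hu⟩ := iMulti_mem (F := F) h S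
  refine ⟨pfac F S N * u, ?_⟩
  rw [Psi_mul_symm h _ _ (fun σ => rename_pfac σ S), hu, pLam_eq]

/-! ### The integer matrix -/

/-- integral version of the component of `p_Γ` -/
noncomputable def Pz (N : ℕ) (h : m ≤ N) (G : SuperPartition n m) : MvPolynomial (Fin N) ℤ :=
  Matrix.det (Matrix.of fun i j : Fin m =>
      (X (Fin.castLE h i) : MvPolynomial (Fin N) ℤ) ^ ((dec G.fer.val).getD j 0)) *
    ((dec G.bos).map (fun s => ∑ k : Fin N, (X k : MvPolynomial (Fin N) ℤ) ^ s)).prod

lemma expo_eq (hN : n + m ≤ N) (O : SuperPartition n m) :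
    expo O = Finsupp.mapDomain Fin.val (Pool.Agent.Helper72.Jack.expo N (toS O)) := by
  ext i
  have h1 : expo O i = (toS O).part i := by
    rw [part_toS, expo, List.toFinsupp_apply]
  rw [h1]
  by_cases hi : i < N
  · have : i = Fin.val (⟨i, hi⟩ : Fin N) := rfl
    conv_rhs => rw [this]
    rw [Finsupp.mapDomain_apply Fin.val_injective]; rfl
  · rw [Finsupp.mapDomain_of_notMem_range, SPar.part_eq_zero _ (by omega)]
    rintro ⟨j, rfl⟩
    exact hi j.2

lemma Cmat_eq (h : m ≤ N) (hN : n + m ≤ N) (G O : SuperPartition n m) :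
    Cmat N G O = coeff (Pool.Agent.Helper72.Jack.expo N (toS O)) (Pz N h G) := by
  have h1 : rename Fin.val (Pz N h G) = Matrix.det (Matrix.of fun i j : Fin m =>
      (X (i : ℕ) : MvPolynomial ℕ ℤ) ^ ((dec G.fer.val).getD j 0)) *
    (G.bos.map (fun s => ∑ k ∈ Finset.range N, (X k : MvPolynomial ℕ ℤ) ^ s)).prod := by
    rw [Pz, map_mul, AlgHom.map_det, map_list_prod, List.map_map]
    congr 1
    · congr 1
      ext i j
      simp [AlgHom.mapMatrix_apply]
    · have h2 : (G.bos.map (fun s => ∑ k ∈ Finset.range N, (X k : MvPolynomial ℕ ℤ) ^ s)).prod =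
          (((dec G.bos : List ℕ) : Multiset ℕ).map
            (fun s => ∑ k ∈ Finset.range N, (X k : MvPolynomial ℕ ℤ) ^ s)).prod := by rw [dec_coe]
      rw [h2, Multiset.map_coe, Multiset.prod_coe]
      congr 1
      apply List.map_congr_left
      intro s _
      simp only [Function.comp_apply, map_sum, map_pow, rename_X, Finset.sum_range]
  rw [Cmat, ← h1, expo_eq hN, coeff_rename_mapDomain _ Fin.val_injective]

lemma map_Pz (F : Type*) [Field F] (h : m ≤ N) (G : SuperPartition n m) :
    map (Int.castRingHom F) (Pz N h G) = comp h (pLam F N (toS G)) := by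
  rw [comp_pLam, Pz, map_mul, RingHom.map_det, map_list_prod, List.map_map, mul_comm]
  congr 1
  · rw [pfac]
    congr 1
    apply List.map_congr_left
    intro s _
    simp only [Function.comp_apply, map_sum, map_pow, map_X, pOrd]
  · rw [← Matrix.det_transpose]
    congr 1
    funext a b
    rw [Matrix.transpose_apply, RingHom.mapMatrix_apply, Matrix.map_apply, Matrix.of_apply, map_pow,
      map_X, SPar.part_lt _ a.2]
    rfl

lemma coeff_comp_pLam (F : Type*) [Field F] (h : m ≤ N) (hN : n + m ≤ N) (G O : SuperPartition n m) :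
    coeff (Pool.Agent.Helper72.Jack.expo N (toS O)) (comp h (pLam F N (toS G))) =
      (Cmat N G O : F) := by
  rw [← map_Pz, coeff_map, Cmat_eq h hN]; rfl

lemma hom_comp_pLam (F : Type*) [Field F] (h : m ≤ N) (S : SPar n m) :
    (comp h (pLam F N S)).IsHomogeneous n := by
  rw [comp_pLam, Matrix.det_apply']
  have h1 : (pfac F S N).IsHomogeneous S.s.sum := by
    rw [pfac]
    have : ∀ l : List ℕ, ((l.map (pOrd F N)).prod).IsHomogeneous l.sum := by
      intro l
      induction l with
      | nil => simpa using isHomogeneous_one (Fin N) F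
      | cons x xs ih =>
        rw [List.map_cons, List.prod_cons, List.sum_cons]
        apply IsHomogeneous.mul _ ih
        rw [pOrd]
        exact IsHomogeneous.sum _ _ _ (fun i _ => by simpa using (isHomogeneous_X F i).pow x)
    exact this _
  have h2 : (∑ σ : Equiv.Perm (Fin m), ((Equiv.Perm.sign σ : ℤ) : MvPolynomial (Fin N) F) *
      ∏ i : Fin m, (X (Fin.castLE h i) : MvPolynomial (Fin N) F) ^ S.part (σ i)).IsHomogeneous S.a.sum := by
    apply IsHomogeneous.sum
    intro σ _
    have h3 : (((Equiv.Perm.sign σ : ℤ)) : MvPolynomial (Fin N) F).IsHomogeneous 0 := by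
      have := isHomogeneous_C (Fin N) (((Equiv.Perm.sign σ : ℤ)) : F)
      simpa using this
    have h4 : (∏ i : Fin m, (X (Fin.castLE h i) : MvPolynomial (Fin N) F) ^ S.part (σ i)).IsHomogeneous
        (∑ i : Fin m, S.part (σ i)) := by
      apply IsHomogeneous.prod
      intro i _
      simpa using (isHomogeneous_X F (Fin.castLE h i)).pow (S.part (σ i))
    have h5 : ∑ i : Fin m, S.part (σ i) = S.a.sum := by
      rw [Equiv.sum_comp σ (fun i : Fin m => S.part i)]
      conv_rhs => rw [list_a_eq]
      rw [List.sum_ofFn]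
    rw [h5] at h4
    simpa using h3.mul h4
  have := h1.mul h2
  rwa [add_comm, S.hsum] at this

lemma ASym_of_range {F : Type*} [Field F] (h : m ≤ N) {v : Pool.Agent.Helper72.Jack.Superspace F N}
    (hv : v ∈ LinearMap.range (Psi (K := F) h)) : Pool.Agent.Helper72.Jack.ASym m (comp h v) := by
  obtain ⟨u, rfl⟩ := hv
  exact Pool.Agent.Helper72.Jack.ASym_comp_Psi h u

/-- `p_Γ` in terms of the monomials -/
theorem pow_eq_sum (hN : n + m ≤ N) (G : SuperPartition n m) :
    pow N G = ∑ O : SuperPartition n m, (Cmat N G O : K) • mon N O := by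
  have h : m ≤ N := by omega
  rw [← sub_eq_zero]
  apply Pool.Agent.Helper72.Jack.comp_injOn h
  · apply Submodule.sub_mem
    · rw [pow_eq]; exact pLam_mem h _
    · apply Submodule.sum_mem
      intro O _
      apply Submodule.smul_mem
      rw [mon_eq h hN]; exact Pool.Agent.Helper72.Jack.mLam_mem h _
  · rw [map_sub, sub_eq_zero, pow_eq, map_sum]
    rw [Pool.Agent.Helper72.Jack.expand h hN (ASym_of_range h (pLam_mem (F := K) h (toS G)))
      (hom_comp_pLam K h (toS G))]
    rw [← Equiv.sum_comp equivS]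
    refine Finset.sum_congr rfl fun O _ => ?_
    rw [LinearMap.map_smul_of_tower, mon_eq h hN]
    have : equivS O = toS O := rfl
    rw [this, coeff_comp_pLam K h hN]
    rfl

theorem mon_linearIndependent (hN : n + m ≤ N) :
    LinearIndependent K (mon N : SuperPartition n m → SP N) := by
  have h : m ≤ N := by omega
  rw [Fintype.linearIndependent_iff]
  intro g hg
  have h1 : ∑ S : SPar n m, g (equivS.symm S) • mLam K h S = 0 := by
    rw [← Equiv.sum_comp equivS, ← hg]
    refine Finset.sum_congr rfl fun O _ => ?_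
    rw [Equiv.symm_apply_apply, mon_eq h hN]; rfl
  have h2 := Pool.Agent.Helper72.Jack.mLam_linearIndependent h hN h1
  intro i
  have := congrFun h2 (equivS i)
  simpa using this

end

end Pool.Agent.Helper61.JackSuper
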